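import Pool.Agent.Hex.EngH

/-!
# A certificate gives a good function
-/

open MeasureTheory Complex ComplexConjugate Polynomial

namespace Pool.Agent.Hex

theorem sum_shift (c : ℕ → ℂ) {L : ℕ} (hc : Function.Periodic c L) (a : ℕ) :
    ∑ j ∈ Finset.range L, c (a + j) = ∑ j ∈ Finset.range L, c j := by
  induction a with
  | zero => simp
  | succ a ih =>
    rw [← ih]
    have h1 := Finset.sum_range_succ (fun j => c (a + j)) L
    have h2 := Finset.sum_range_succ' (fun j => c (a + j)) L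
    have h3 : c (a + L) = c (a + 0) := by rw [add_zero]; exact hc a
    have h4 : ∑ j ∈ Finset.range L, c (a + 1 + j) = ∑ j ∈ Finset.range L, c (a + (j + 1)) :=
      Finset.sum_congr rfl fun j _ => by rw [show a + 1 + j = a + (j + 1) by ring]
    rw [h4]
    rw [h1, h3] at h2
    exact (add_right_cancel h2).symm

/-- The coboundary terms sum to zero over a cycle. -/
theorem sum_cob {n L : ℕ} (hcyc : pt n L = rt n) (hcub : ∃ a, rt n ^ 3 = pt n a) (G₂ G₃ : ℂ[X]) :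
    ∑ j ∈ Finset.range L, ((G₂.eval (pt n j ^ 2) - G₂.eval (pt n j)) +
      (G₃.eval (pt n j ^ 3) - G₃.eval (pt n j))) = 0 := by
  obtain ⟨a, ha⟩ := hcub
  have hper := pt_periodic hcyc
  have h1 : ∑ j ∈ Finset.range L, (G₂.eval (pt n j ^ 2) - G₂.eval (pt n j)) = 0 := by
    have : ∀ j ∈ Finset.range L, G₂.eval (pt n j ^ 2) - G₂.eval (pt n j) =
        G₂.eval (pt n (j + 1)) - G₂.eval (pt n j) := fun j _ => by
      rw [pt_succ]
    rw [Finset.sum_congr rfl this, Finset.sum_range_sub (fun j => G₂.eval (pt n j)), hcyc, pt_zero, sub_self]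
  have h2 : ∑ j ∈ Finset.range L, (G₃.eval (pt n j ^ 3) - G₃.eval (pt n j)) = 0 := by
    rw [Finset.sum_sub_distrib]
    have e : ∀ j ∈ Finset.range L, G₃.eval (pt n j ^ 3) = (fun i => G₃.eval (pt n i)) (a + j) := fun j _ => by
      show _ = G₃.eval (pt n (a + j))
      rw [pt_add, ← ha, pt, ← pow_mul, ← pow_mul, mul_comm]
    rw [Finset.sum_congr rfl e, sum_shift (fun i => G₃.eval (pt n i)) (fun j => by
      show G₃.eval (pt n (j + L)) = _
      rw [hper j]), sub_self]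
  rw [Finset.sum_add_distrib, h1, h2, add_zero]

theorem sum_hE₁ {n₁ L₁ n₂ L₂ : ℕ} (hC : Cyc n₁ L₁ n₂ L₂) (G₂ G₃ : ℂ[X]) :
    ∑ j ∈ Finset.range L₁, hE n₁ L₁ n₂ L₂ G₂ G₃ (pt n₁ j) = 0 := by
  have h := sum_cob hC.cyc₁ hC.cub₁ G₂ G₃
  have e : ∀ j ∈ Finset.range L₁, hE n₁ L₁ n₂ L₂ G₂ G₃ (pt n₁ j) = tE n₁ L₁ n₂ L₂ + (sE n₁ L₁ n₂ L₂ * pt n₁ j +
      ((G₂.eval (pt n₁ j ^ 2) - G₂.eval (pt n₁ j)) + (G₃.eval (pt n₁ j ^ 3) - G₃.eval (pt n₁ j)))).re := fun j _ => by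
    rw [hE, add_assoc]
  rw [Finset.sum_congr rfl e, Finset.sum_add_distrib, ← Complex.re_sum, Finset.sum_add_distrib, h, add_zero,
    ← Finset.mul_sum, Finset.sum_const, Finset.card_range, nsmul_eq_mul]
  have e2 : ∑ j ∈ Finset.range L₁, pt n₁ j = sm n₁ L₁ := rfl
  rw [e2, tE, sE]
  simp only [Complex.mul_re, Complex.mul_im, Complex.neg_re, Complex.neg_im, Complex.I_re, Complex.I_im, map_sub,
    map_mul, Complex.sub_re, Complex.sub_im, Complex.conj_re, Complex.conj_im, Complex.natCast_re, Complex.natCast_im,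
    Complex.conj_natCast]
  ring

theorem sum_hE₂ {n₁ L₁ n₂ L₂ : ℕ} (hC : Cyc n₁ L₁ n₂ L₂) (G₂ G₃ : ℂ[X]) :
    ∑ j ∈ Finset.range L₂, hE n₁ L₁ n₂ L₂ G₂ G₃ (pt n₂ j) = 0 := by
  have h := sum_cob hC.cyc₂ hC.cub₂ G₂ G₃
  have e : ∀ j ∈ Finset.range L₂, hE n₁ L₁ n₂ L₂ G₂ G₃ (pt n₂ j) = tE n₁ L₁ n₂ L₂ + (sE n₁ L₁ n₂ L₂ * pt n₂ j +
      ((G₂.eval (pt n₂ j ^ 2) - G₂.eval (pt n₂ j)) + (G₃.eval (pt n₂ j ^ 3) - G₃.eval (pt n₂ j)))).re := fun j _ => by
    rw [hE, add_assoc]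
  rw [Finset.sum_congr rfl e, Finset.sum_add_distrib, ← Complex.re_sum, Finset.sum_add_distrib, h, add_zero,
    ← Finset.mul_sum, Finset.sum_const, Finset.card_range, nsmul_eq_mul]
  have e2 : ∑ j ∈ Finset.range L₂, pt n₂ j = sm n₂ L₂ := rfl
  rw [e2, tE, sE]
  simp only [Complex.mul_re, Complex.mul_im, Complex.neg_re, Complex.neg_im, Complex.I_re, Complex.I_im, map_sub,
    map_mul, Complex.sub_re, Complex.sub_im, Complex.conj_re, Complex.conj_im, Complex.natCast_re, Complex.natCast_im,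
    Complex.conj_natCast]
  ring

theorem eval_van (S : Finset ℂ) (z : ℂ) : (van S).eval z = ∏ p ∈ S, (z - p) := by
  rw [van, Polynomial.eval_prod]
  simp

theorem van_natDegree (S : Finset ℂ) : (van S).natDegree ≤ S.card := by
  rw [van]
  refine (Polynomial.natDegree_prod_le _ _).trans ?_
  calc ∑ p ∈ S, (X - C p : ℂ[X]).natDegree ≤ ∑ p ∈ S, 1 := Finset.sum_le_sum fun p _ => by
        rw [Polynomial.natDegree_X_sub_C]
    _ = S.card := by simp

/-- Lower bound for the product of the distances. -/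
theorem van_lower (S : Finset ℂ) (hne : S.Nonempty) (κ : ℝ)
    (hκ : ∀ p ∈ S, κ ≤ ∏ p' ∈ S.erase p, (‖p - p'‖ / 2) ^ 2) (z : ℂ) :
    ∃ p ∈ S, κ * ‖z - p‖ ^ 2 ≤ ‖(van S).eval z‖ ^ 2 := by
  classical
  obtain ⟨p, hp, hmin⟩ := Finset.exists_min_image S (fun p => ‖z - p‖) hne
  refine ⟨p, hp, ?_⟩
  rw [eval_van, norm_prod, ← Finset.prod_pow, ← Finset.mul_prod_erase S _ hp, mul_comm]
  refine mul_le_mul_of_nonneg_left ((hκ p hp).trans ?_) (by positivity)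
  refine Finset.prod_le_prod (fun q _ => by positivity) fun q hq => ?_
  have h1 := hmin q (Finset.mem_of_mem_erase hq)
  have h2 : ‖p - q‖ ≤ ‖z - p‖ + ‖z - q‖ := by
    rw [← norm_neg (z - p)]
    calc ‖p - q‖ = ‖-(z - p) + (z - q)‖ := by ring_nf
      _ ≤ _ := norm_add_le _ _
  refine pow_le_pow_left₀ (by positivity) ?_ 2
  linarith

theorem TS.van (S : Finset ℂ) (hS : ∀ p ∈ S, ‖p‖ = 1) : TS (fun z => (Hex.van S).eval z) S.card (2 ^ S.card) := by
  have h := TS.prod S (fun p z => z + -p) 2 fun p hp => by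
    have h := TS.ident.add ((TS.const (-p)).mono (D' := 1) (by norm_num) (le_refl _))
    refine h.mono (le_refl _) ?_
    rw [norm_neg, hS p hp]
    norm_num
  refine h.congr fun z _ => ?_
  rw [eval_van]
  rfl

/-- The size of the error. -/
theorem num_bound : ((639 : ℕ) + 1 : ℝ) ^ 2 * (1 / 2 ^ 470 * (1 / 2 ^ 470 + 2 * 2 ^ 64) * 2 ^ 90 +
    (1 / 2 ^ 470 + (1 / 2 ^ 470 + 1 / 2 ^ 470 * 1))) ≤ 1 / 2 ^ 290 := by
  rw [show (2 : ℝ) ^ 470 = 2 ^ 235 * 2 ^ 235 by rw [← pow_add], show (2 : ℝ) ^ 290 = 2 ^ 145 * 2 ^ 145 by rw [← pow_add]]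
  norm_num

theorem num_bound₁ : 2 * ((1 : ℝ) / 2 ^ 290) < 1 / 2 ^ 240 := by
  rw [show (2 : ℝ) ^ 290 = 2 ^ 145 * 2 ^ 145 by rw [← pow_add]]
  norm_num

theorem num_bound₂ : 131 * ((1 : ℝ) / 2 ^ 290) < 1 / 2 ^ 240 * (1 / 2 ^ 13 / 2) ^ 2 := by
  rw [show (2 : ℝ) ^ 290 = 2 ^ 145 * 2 ^ 145 by rw [← pow_add]]
  norm_num

/-- A certificate gives a good function. -/
theorem good_of_cert {n₁ L₁ n₂ L₂ : ℕ} (hC : Cyc n₁ L₁ n₂ L₂) (h : Cert n₁ L₁ n₂ L₂) :
    ∃ G₂ G₃ : ℂ[X], Good (orb n₁ L₁ ∪ orb n₂ L₂) (hE n₁ L₁ n₂ L₂ G₂ G₃) := by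
  classical
  obtain ⟨q, G₂, G₃, F, e, t, s, hF1, hF2, ht, hs, he1, he2, hid, hq1, hq2, hq3, hsep, hprod⟩ := h
  refine ⟨G₂, G₃, ?_⟩
  set S : Finset ℂ := orb n₁ L₁ ∪ orb n₂ L₂ with hS
  have hnS : ∀ p ∈ S, ‖p‖ = 1 := fun p hp => by
    rcases Finset.mem_union.mp hp with hp | hp
    · exact norm_of_mem_orb hp
    · exact norm_of_mem_orb hp
  have hcard : S.card ≤ 64 := by
    refine (Finset.card_union_le _ _).trans ?_
    rw [hC.card₁, hC.card₂]
    exact hC.le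
  have hne : S.Nonempty := ⟨_, Finset.mem_union_left _ (pt_mem_orb hC.pos₁ hC.cyc₁ 0)⟩
  -- the three factors
  have hA : TS (fun z => (F - van S).eval z) 64 (1 / 2 ^ 470) := by
    refine (TS.poly (F - van S) (D := 64) ?_).mono (le_refl _) hF2
    refine (Polynomial.natDegree_sub_le _ _).trans (max_le (by omega) ((van_natDegree S).trans hcard))
  have hV : TS (fun z => (van S).eval z) 64 (2 ^ 64) := (TS.van S hnS).mono hcard
    (pow_le_pow_right₀ (by norm_num) hcard)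
  have hB : TS (fun z => (F - van S).eval z + 2 * (van S).eval z) 64 (1 / 2 ^ 470 + 2 * 2 ^ 64) := by
    refine hA.add ?_
    have := (TS.const 2).mul hV
    refine this.mono (by norm_num) (le_of_eq ?_)
    norm_num
  have hQ : TS (fun z => (((q.eval z).re : ℝ) : ℂ)) 511 (2 ^ 90) := ((TS.poly q hq1).mono (le_refl _) hq2).re
  have hE1 := (hA.mul hB.conj).mul hQ
  have hE2 : TS (fun z => e.eval z + (((tE n₁ L₁ n₂ L₂ - t : ℝ) : ℂ) + (sE n₁ L₁ n₂ L₂ - s) * z)) 639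
      (1 / 2 ^ 470 + (1 / 2 ^ 470 + 1 / 2 ^ 470 * 1)) := by
    refine ((TS.poly e he1).mono (by norm_num) he2).add (TS.add ?_ ?_)
    · refine (TS.const _).mono (by norm_num) ?_
      rw [Complex.norm_real, Real.norm_eq_abs, abs_sub_comm]
      exact ht
    · refine ((TS.const (sE n₁ L₁ n₂ L₂ - s)).mul TS.ident).mono (by norm_num) ?_
      rw [norm_sub_rev]
      gcongr
  have hJ := ((hE1.mono (D' := 639) (by norm_num) (le_refl _)).add hE2).cjet.mono num_bound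
  refine engine hC (r := 1 / 2 ^ 13) (K := 1 / 2 ^ 290) (γ := 1 / 2 ^ 240) (by norm_num) (by norm_num) ?_ _
    (fun z => ‖(van S).eval z‖ ^ 2 * (q.eval z).re) _ hJ ?_ ?_ ?_ (sum_hE₁ hC G₂ G₃) (sum_hE₂ hC G₂ G₃)
    num_bound₁ num_bound₂
  · intro p hp p' hp' hpp
    refine le_trans (le_of_eq ?_) (hsep p hp p' hp' hpp)
    norm_num
  · intro z hz
    have h1 := hid z hz
    have h2 : hE n₁ L₁ n₂ L₂ G₂ G₃ z = ‖F.eval z‖ ^ 2 * (q.eval z).re + (e.eval z).re + (tE n₁ L₁ n₂ L₂ - t) +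
        ((sE n₁ L₁ n₂ L₂ - s) * z).re := by
      rw [← h1, hE]
      simp only [Complex.add_re, sub_mul, Complex.sub_re]
      ring
    have h3 : ‖F.eval z‖ ^ 2 = ‖(van S).eval z‖ ^ 2 +
        ((F - van S).eval z * conj ((F - van S).eval z + 2 * (van S).eval z)).re := by
      rw [← Complex.normSq_eq_norm_sq, ← Complex.normSq_eq_norm_sq, Complex.normSq_apply, Complex.normSq_apply,
        Polynomial.eval_sub]
      simp only [Complex.mul_re, Complex.conj_re, Complex.conj_im, Complex.sub_re, Complex.sub_im, Complex.add_re,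
        Complex.add_im, Complex.mul_im, Complex.re_ofNat, Complex.im_ofNat]
      ring
    rw [h2, h3]
    simp only [Complex.add_re, Complex.re_mul_ofReal, Complex.ofReal_re]
    ring
  · intro z hz
    obtain ⟨p, hp, hp2⟩ := van_lower S hne (1 / 2 ^ 180) hprod z
    refine ⟨p, hp, ?_⟩
    have h4 := hq3 z hz
    calc 1 / 2 ^ 240 * ‖z - p‖ ^ 2 = (1 / 2 ^ 180 * ‖z - p‖ ^ 2) * (1 / 2 ^ 60) := by
          rw [show (1 : ℝ) / 2 ^ 240 = 1 / 2 ^ 180 * (1 / 2 ^ 60) by norm_num]; ring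
      _ ≤ ‖(van S).eval z‖ ^ 2 * (q.eval z).re := by gcongr
  · intro p hp
    have : (van S).eval p = 0 := by
      rw [eval_van]
      exact Finset.prod_eq_zero hp (sub_self p)
    show ‖(van S).eval p‖ ^ 2 * (q.eval p).re = 0
    rw [this]
    simp

end Pool.Agent.Hex
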