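import Pool.Agent.Hex.LstA

/-!
# Approximation of the cycles of roots of unity
-/

open Complex ComplexConjugate Polynomial

namespace Pool.Agent.Hex.Cr

/-- The list `ζ, ζ ^ 2, ζ ^ 4, …` of length `n`. -/
noncomputable def its (ζ : ℂ) : ℕ → List ℂ
  | 0 => []
  | n + 1 => ζ :: its (ζ ^ 2) n

/-- The list `Z` approximates the list `P` of points of the circle. -/
def Apx (Z : List GI) (P : List ℂ) : Prop :=
  List.Forall₂ (fun a p => ‖p‖ = 1 ∧ ‖toC 640 a - p‖ ≤ 1 / 2 ^ 570) Z P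

/-! ## RTP: location of roots of unity by their powers -/

private theorem RTP_aux (n : ℕ) (w : ℂ) (h : n * ‖w‖ ≤ 1 / 2) (m : ℕ) (hm : m ≤ n) :
    ‖(1 + w) ^ m - 1 - m * w‖ ≤ (m * ‖w‖) ^ 2 := by
  induction m with
  | zero => simp
  | succ m ih =>
    have ih' := ih (by omega)
    have e : (1 + w) ^ (m + 1) - 1 - ((m + 1 : ℕ) : ℂ) * w =
        ((1 + w) ^ m - 1 - m * w) * (1 + w) + m * w ^ 2 := by
      push_cast
      ring
    have hm' : (m : ℝ) ≤ n := by exact_mod_cast (by omega : m ≤ n)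
    have h0 : 0 ≤ ‖w‖ := norm_nonneg w
    have h1 : (m : ℝ) * ‖w‖ ≤ 1 / 2 := le_trans (mul_le_mul_of_nonneg_right hm' h0) h
    have h2 : ‖1 + w‖ ≤ 1 + ‖w‖ := by
      refine (norm_add_le _ _).trans (le_of_eq ?_)
      rw [norm_one]
    rw [e]
    refine (norm_add_le _ _).trans ?_
    rw [norm_mul, norm_mul, norm_pow, Complex.norm_natCast]
    have h3 : ‖(1 + w) ^ m - 1 - m * w‖ * ‖1 + w‖ ≤ (m * ‖w‖) ^ 2 * (1 + ‖w‖) :=
      mul_le_mul ih' h2 (norm_nonneg _) (sq_nonneg _)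
    have h4 : (m : ℝ) ^ 2 * ‖w‖ ^ 3 ≤ m * ‖w‖ ^ 2 * (1 / 2) := by
      have h5 : (m : ℝ) ^ 2 * ‖w‖ ^ 3 = m * ‖w‖ ^ 2 * (m * ‖w‖) := by ring
      rw [h5]
      exact mul_le_mul_of_nonneg_left h1 (by positivity)
    have h6 : (0 : ℝ) ≤ m * ‖w‖ ^ 2 := by positivity
    have h7 : (0 : ℝ) ≤ ‖w‖ ^ 2 := by positivity
    push_cast
    nlinarith

/-- Module RTP. Put `w = z / ζ - 1`, so `‖w‖ = ‖z - ζ‖`, `z ^ n = (1 + w) ^ n` and `n ‖w‖ ≤ 1 / 2`. Induction on `m ≤ n`: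
`‖(1 + w) ^ m - 1 - m w‖ ≤ (m ‖w‖) ^ 2`, since
`(1 + w) ^ (m + 1) - 1 - (m + 1) w = ((1 + w) ^ m - 1 - m w) (1 + w) + m w ^ 2` has norm at most
`m ^ 2 ‖w‖ ^ 2 (1 + ‖w‖) + m ‖w‖ ^ 2 ≤ (m + 1) ^ 2 ‖w‖ ^ 2` because `m ^ 2 ‖w‖ ≤ m / 2`. For `m = n`:
`n ‖w‖ ≤ ‖(1 + w) ^ n - 1‖ + (n ‖w‖) ^ 2 ≤ ‖z ^ n - 1‖ + n ‖w‖ / 2`. -/
theorem pow_loc (n : ℕ) (ζ z : ℂ) (hζ : ‖ζ‖ = 1) (hn : ζ ^ n = 1) (h : n * ‖z - ζ‖ ≤ 1 / 2) :
    n * ‖z - ζ‖ ≤ 2 * ‖z ^ n - 1‖ := by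
  have hζ0 : ζ ≠ 0 := by
    intro h0
    rw [h0, norm_zero] at hζ
    exact zero_ne_one hζ
  have hw : ‖z / ζ - 1‖ = ‖z - ζ‖ := by
    rw [div_sub_one hζ0, norm_div, hζ, div_one]
  have hz : z ^ n = (1 + (z / ζ - 1)) ^ n := by
    rw [add_sub_cancel, div_pow, hn, div_one]
  rw [← hw] at h ⊢
  rw [hz]
  generalize z / ζ - 1 = w at h ⊢
  have key := RTP_aux n w h n le_rfl
  have h1 : (n : ℝ) * ‖w‖ ≤ ‖(1 + w) ^ n - 1‖ + (n * ‖w‖) ^ 2 := by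
    have h2 : ‖(n : ℂ) * w‖ = n * ‖w‖ := by
      rw [norm_mul, Complex.norm_natCast]
    have h3 : (n : ℂ) * w = ((1 + w) ^ n - 1) - ((1 + w) ^ n - 1 - n * w) := by ring
    rw [← h2]
    conv_lhs => rw [h3]
    refine (norm_sub_le _ _).trans (add_le_add le_rfl ?_)
    rw [h2]
    exact key
  have h4 : (0 : ℝ) ≤ n * ‖w‖ := by positivity
  nlinarith

/-! ## RTW: the checks -/

/-- Module RTW. Induction on `n`; `s * (n + 1) = s + s * n`; `toC_mul`. -/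
theorem toC_pow (s : ℕ) (a : GI) (n : ℕ) : toC (s * n) (gpow a n) = toC s a ^ n := by
  induction n with
  | zero =>
    rw [gpow, Nat.mul_zero, pow_zero]
    unfold toC
    simp
  | succ n ih =>
    rw [gpow, Nat.mul_succ, Nat.add_comm, toC_mul, ih, pow_succ, mul_comm]

/-- `toC (640 * n) (gadd (gpow a n) (gneg (2 ^ (640 * n), 0))) = toC 640 a ^ n - 1`; `norm_toC_le`. -/
theorem powOK_le (a : GI) (n : ℕ) (hn : 0 < n) (h : powOK a n = true) :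
    ‖toC 640 a ^ n - 1‖ ≤ 1 / 2 ^ 630 := by
  have h1 : gnrm (gadd (gpow a n) (gneg (2 ^ (640 * n), 0))) ≤ 2 ^ (640 * n - 630) := Nat.le_of_ble_eq_true h
  have h2 : toC (640 * n) (gadd (gpow a n) (gneg (2 ^ (640 * n), 0))) = toC 640 a ^ n - 1 := by
    rw [toC_add, toC_neg, toC_pow]
    have h3 : toC (640 * n) ((2 ^ (640 * n), 0) : GI) = 1 := by
      unfold toC
      have h4 : (2 : ℂ) ^ (640 * n) ≠ 0 := pow_ne_zero _ two_ne_zero
      simp only [Int.cast_pow, Int.cast_ofNat, Int.cast_zero, zero_mul, add_zero]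
      exact div_self h4
    rw [h3, sub_eq_add_neg]
  rw [← h2]
  refine (norm_toC_le _ _).trans ?_
  have h5 : (gnrm (gadd (gpow a n) (gneg (2 ^ (640 * n), 0))) : ℝ) ≤ 2 ^ (640 * n - 630) := by
    exact_mod_cast h1
  refine (div_le_div_of_nonneg_right h5 (by positivity)).trans (le_of_eq ?_)
  rw [div_eq_div_iff (by positivity) (by positivity), ← pow_add, one_mul]
  congr 1
  omega

/-- The third condition of `cycOK`. -/
theorem rough_le (a : GI) (u v : ℤ) (w : ℕ)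
    (h : gnrm (gadd (10 ^ 6 * a.1, 10 ^ 6 * a.2) (gneg (u * 2 ^ 640, v * 2 ^ 640))) ≤ w * 2 ^ 640) :
    ‖toC 640 a - ((u : ℂ) + v * Complex.I) / 10 ^ 6‖ ≤ w / 10 ^ 6 := by
  have h1 : ((gnrm (gadd (10 ^ 6 * a.1, 10 ^ 6 * a.2) (gneg (u * 2 ^ 640, v * 2 ^ 640))) : ℕ) : ℝ) ≤
      w * 2 ^ 640 := by exact_mod_cast h
  have h2 : toC 640 (gadd (10 ^ 6 * a.1, 10 ^ 6 * a.2) (gneg (u * 2 ^ 640, v * 2 ^ 640))) =
      10 ^ 6 * (toC 640 a - ((u : ℂ) + v * Complex.I) / 10 ^ 6) := by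
    have h3 : toC 640 ((u * 2 ^ 640, v * 2 ^ 640) : GI) = (u : ℂ) + v * Complex.I := by
      have h4 : toC 640 (gshl 640 (u, v)) = toC 0 (u, v) := toC_shl 0 640 (u, v)
      have h5 : toC 0 (u, v) = (u : ℂ) + v * Complex.I := by
        unfold toC
        rw [pow_zero, div_one]
      rw [← h5, ← h4, gshl]
    have h6 : toC 640 ((10 ^ 6 * a.1, 10 ^ 6 * a.2) : GI) = 10 ^ 6 * toC 640 a := by
      unfold toC
      push_cast
      generalize (2 : ℂ) ^ 640 = A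
      ring
    rw [toC_add, toC_neg, h3, h6, mul_sub, mul_div_cancel₀ _ (pow_ne_zero 6 (by norm_num)),
      sub_eq_add_neg]
  have h5 := norm_toC_le 640 (gadd (10 ^ 6 * a.1, 10 ^ 6 * a.2) (gneg (u * 2 ^ 640, v * 2 ^ 640)))
  rw [h2, norm_mul] at h5
  have h6 : ‖(10 : ℂ) ^ 6‖ = 10 ^ 6 := by
    rw [norm_pow]
    norm_num
  rw [h6] at h5
  have h7 : ((gnrm (gadd (10 ^ 6 * a.1, 10 ^ 6 * a.2) (gneg (u * 2 ^ 640, v * 2 ^ 640))) : ℕ) : ℝ) /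
      2 ^ 640 ≤ w := by
    rw [div_le_iff₀ (by positivity)]
    exact h1
  rw [le_div_iff₀ (by norm_num : (0 : ℝ) < 10 ^ 6), mul_comm]
  exact h5.trans h7

/-- `toC 1280 (gadd (gmul a a) (gneg (gshl 640 b))) = toC 640 a ^ 2 - toC 640 b`, norm at most `2 ^ 642 / 2 ^ 1280`. -/
theorem sq_le (a b : GI) (h : gnrm (gadd (gmul a a) (gneg (gshl 640 b))) ≤ 2 ^ 642) :
    ‖toC 640 a ^ 2 - toC 640 b‖ ≤ 1 / 2 ^ 638 := by
  have h2 : toC 1280 (gadd (gmul a a) (gneg (gshl 640 b))) = toC 640 a ^ 2 - toC 640 b := by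
    rw [toC_add, toC_neg]
    have h3 : toC 1280 (gmul a a) = toC 640 a * toC 640 a := toC_mul 640 640 a a
    have h4 : toC 1280 (gshl 640 b) = toC 640 b := toC_shl 640 640 b
    rw [h3, h4]
    ring
  rw [← h2]
  refine (norm_toC_le _ _).trans ?_
  have h1 : ((gnrm (gadd (gmul a a) (gneg (gshl 640 b))) : ℕ) : ℝ) ≤ 2 ^ 642 := by exact_mod_cast h
  refine (div_le_div_of_nonneg_right h1 (by positivity)).trans (le_of_eq ?_)
  rw [div_eq_div_iff (by positivity) (by positivity), ← pow_add, one_mul]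

/-! ## RTC: the chain of squares -/

/-- Module RTC. Induction on `l` (generalizing everything). For `b :: l`: `‖toC 640 b - ζ ^ 2‖ ≤ 1 / 2 ^ 638 + (2 + δ) δ ≤ 3 δ`
(`sq_le`, `‖toC 640 a + ζ‖ ≤ 2 + δ`, `1 / 2 ^ 638 ≤ δ / 2`, `δ ≤ 1 / 2`), and the induction hypothesis is applied with
`3 * δ`; `δ * 3 ^ (l.length + 1) = 3 * δ * 3 ^ l.length`. -/
theorem apx_chain (l : List GI) : ∀ (a : GI) (ζ : ℂ) (δ : ℝ), ‖ζ‖ = 1 → 1 / 2 ^ 637 ≤ δ →
    δ * 3 ^ l.length ≤ 1 / 2 → ‖toC 640 a - ζ‖ ≤ δ → chain a l = true →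
    List.Forall₂ (fun b p => ‖p‖ = 1 ∧ ‖toC 640 b - p‖ ≤ δ * 3 ^ l.length) (a :: l) (its ζ (l.length + 1)) := by
  induction l with
  | nil =>
    intro a ζ δ hζ _ _ h _
    rw [List.length_nil, pow_zero, mul_one]
    exact List.Forall₂.cons ⟨hζ, h⟩ List.Forall₂.nil
  | cons b l ih =>
    intro a ζ δ hζ h1 h2 h hc
    rw [List.length_cons] at h2 ⊢
    rw [chain, Bool.and_eq_true] at hc
    have hδ : 0 ≤ δ := le_trans (by positivity) h1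
    have h3 : (1 : ℝ) ≤ 3 ^ (l.length + 1) := one_le_pow₀ (by norm_num)
    have h4 : δ ≤ δ * 3 ^ (l.length + 1) := le_mul_of_one_le_right hδ h3
    have h5 : δ ≤ 1 / 2 := h4.trans h2
    have h6 : ‖ζ ^ 2‖ = 1 := by rw [norm_pow, hζ, one_pow]
    have h7 : ‖toC 640 b - ζ ^ 2‖ ≤ 3 * δ := by
      have h8 := sq_le a b (Nat.le_of_ble_eq_true hc.1)
      have e : toC 640 b - ζ ^ 2 = (toC 640 a - ζ) * ((toC 640 a - ζ) + 2 * ζ) -
          (toC 640 a ^ 2 - toC 640 b) := by ring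
      have h9 : ‖(toC 640 a - ζ) + 2 * ζ‖ ≤ δ + 2 := by
        refine (norm_add_le _ _).trans (add_le_add h (le_of_eq ?_))
        rw [norm_mul, hζ, mul_one, Complex.norm_ofNat]
      have h10 : (1 : ℝ) / 2 ^ 638 ≤ δ / 2 := by
        have h11 : (1 : ℝ) / 2 ^ 638 = 1 / 2 ^ 637 / 2 := by
          rw [div_div, ← pow_succ]
        rw [h11]
        exact div_le_div_of_nonneg_right h1 (by norm_num)
      have h12 : ‖(toC 640 a - ζ) * ((toC 640 a - ζ) + 2 * ζ)‖ ≤ δ * (δ + 2) := by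
        rw [norm_mul]
        exact mul_le_mul h h9 (norm_nonneg _) hδ
      have h15 : ‖toC 640 a ^ 2 - toC 640 b‖ ≤ δ / 2 := h8.trans h10
      rw [e]
      refine (norm_sub_le _ _).trans ((add_le_add h12 h15).trans ?_)
      clear h8 h10
      have h16 : δ * (δ + 2) ≤ δ * (1 / 2 + 2) := mul_le_mul_of_nonneg_left (by linarith) hδ
      linarith
    have h13 : 3 * δ * 3 ^ l.length = δ * 3 ^ (l.length + 1) := by
      rw [pow_succ]
      ring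
    have h14 := ih b (ζ ^ 2) (3 * δ) h6 (h1.trans (le_mul_of_one_le_left hδ (by norm_num))) (by rw [h13]; exact h2) h7 hc.2
    rw [h13] at h14
    exact List.Forall₂.cons ⟨hζ, h.trans h4⟩ h14

/-! ## RTF: from the check to the approximation -/

/-- Module RTF. `rt n` is an `n`-th root of unity of norm one (`Complex.isPrimitiveRoot_exp`,
`Complex.norm_exp_ofReal_mul_I` or `norm_eq_one_of_pow_eq_one`). -/
theorem rt_pow (n : ℕ) (hn : 0 < n) : rt n ^ n = 1 := by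
  exact (Complex.isPrimitiveRoot_exp n hn.ne').pow_eq_one

theorem norm_rt (n : ℕ) (hn : 0 < n) : ‖rt n‖ = 1 := by
  exact Complex.norm_eq_one_of_pow_eq_one (rt_pow n hn) hn.ne'

/-- `Z = a :: l` with `chain a l`, `powOK a n` and the rough position. `‖toC 640 a - rt n‖ ≤ ρ + w / 10 ^ 6`, so by
`pow_loc` and `powOK_le` `n ‖toC 640 a - rt n‖ ≤ 2 / 2 ^ 630 ≤ n δ`; then `apx_chain` (with `δ * 3 ^ l.length ≤ 1 / 2 ^ 570`,
`l.length = Z.length - 1`) and monotonicity of `Forall₂` (`List.Forall₂.imp`). -/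
theorem apx_of_cyc (n : ℕ) (hn : 0 < n) (u v : ℤ) (w : ℕ) (Z : List GI) (h : cycOK n u v w Z = true) (ρ δ : ℝ)
    (hρ : ‖rt n - ((u : ℂ) + v * Complex.I) / 10 ^ 6‖ ≤ ρ) (hρ1 : n * (ρ + w / 10 ^ 6) ≤ 1 / 2)
    (hδ : 1 / 2 ^ 637 ≤ δ) (hδ1 : 2 / 2 ^ 630 ≤ n * δ) (hδ2 : δ * 3 ^ (Z.length - 1) ≤ 1 / 2 ^ 570) :
    Apx Z (its (rt n) Z.length) := by
  cases Z with
  | nil =>
    rw [cycOK] at h
    exact absurd h (by decide)
  | cons a l =>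
    rw [cycOK, Bool.and_eq_true, Bool.and_eq_true] at h
    obtain ⟨⟨hc, hp⟩, hr⟩ := h
    rw [List.length_cons, Nat.add_sub_cancel] at hδ2
    have h1 : ‖toC 640 a - rt n‖ ≤ ρ + w / 10 ^ 6 := by
      have e : toC 640 a - rt n = (toC 640 a - ((u : ℂ) + v * Complex.I) / 10 ^ 6) -
          (rt n - ((u : ℂ) + v * Complex.I) / 10 ^ 6) := by ring
      rw [e]
      refine (norm_sub_le _ _).trans ?_
      rw [add_comm ρ]
      exact add_le_add (rough_le a u v w (Nat.le_of_ble_eq_true hr)) hρ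
    have hn' : (0 : ℝ) < n := by exact_mod_cast hn
    have h2 : n * ‖toC 640 a - rt n‖ ≤ 1 / 2 :=
      (mul_le_mul_of_nonneg_left h1 hn'.le).trans hρ1
    have h3 := pow_loc n (rt n) (toC 640 a) (norm_rt n hn) (rt_pow n hn) h2
    have h4 := powOK_le a n hn hp
    have h5 : (n : ℝ) * ‖toC 640 a - rt n‖ ≤ n * δ := by
      refine h3.trans (le_trans ?_ hδ1)
      rw [div_eq_mul_one_div]
      exact mul_le_mul_of_nonneg_left h4 (by norm_num)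
    have h6 : ‖toC 640 a - rt n‖ ≤ δ := le_of_mul_le_mul_left h5 hn'
    have h7 : (1 : ℝ) / 2 ^ 570 ≤ 1 / 2 :=
      one_div_le_one_div_of_le (by norm_num) (le_self_pow₀ (by norm_num) (by norm_num))
    have h8 := apx_chain l a (rt n) δ (norm_rt n hn) hδ (hδ2.trans h7) h6 hc
    rw [Apx, List.length_cons]
    exact h8.imp fun _ _ hh => ⟨hh.1, hh.2.trans hδ2⟩

/-! ## RTE: rough positions of three roots of unity -/

private theorem RTE_eq (n : ℕ) : rt n = Complex.cos ((2 * Real.pi / n : ℝ) : ℂ) + Complex.sin ((2 * Real.pi / n : ℝ) : ℂ) * Complex.I := by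
  unfold rt
  rw [← Complex.exp_mul_I]
  congr 1
  push_cast
  ring

private theorem RTE_norm (θ : ℝ) (z : ℂ) (hz : z = Complex.cos (θ : ℂ) + Complex.sin (θ : ℂ) * Complex.I) (u v : ℤ) (ε₁ ε₂ : ℝ)
    (h1 : |Real.cos θ - u / 10 ^ 6| ≤ ε₁) (h2 : |Real.sin θ - v / 10 ^ 6| ≤ ε₂) :
    ‖z - ((u : ℂ) + (v : ℂ) * Complex.I) / 10 ^ 6‖ ≤ ε₁ + ε₂ := by
  have e : z - ((u : ℂ) + (v : ℂ) * Complex.I) / 10 ^ 6 =
      ((Real.cos θ - u / 10 ^ 6 : ℝ) : ℂ) + ((Real.sin θ - v / 10 ^ 6 : ℝ) : ℂ) * Complex.I := by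
    rw [hz]; push_cast; ring
  rw [e]
  refine (norm_add_le _ _).trans ?_
  rw [norm_mul, Complex.norm_I, mul_one, Complex.norm_real, Complex.norm_real, Real.norm_eq_abs, Real.norm_eq_abs]
  exact add_le_add h1 h2

/-- Module RTE. `rt 1 = exp (2 π I / 1) = 1`. -/
theorem rt_one : rt 1 = 1 := by
  unfold rt
  rw [Nat.cast_one, div_one, Complex.exp_two_pi_mul_I]

/-- `rt 431 = cos θ + i sin θ` with `θ = 2 π / 431` (`Complex.exp_mul_I` or `Complex.exp_re` / `exp_im`), `|θ - 0.0145781| ≤ 10 ^ -6`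
(`Real.pi_gt_d6`, `Real.pi_lt_d6`), `Real.cos_bound`, `Real.sin_bound` (for `|x| ≤ 1`). The norm of a complex number is at most
`|re| + |im|`. -/
theorem rt_431 : ‖rt 431 - (((999894 : ℤ) : ℂ) + ((14578 : ℤ) : ℂ) * Complex.I) / 10 ^ 6‖ ≤ 1 / 2000 := by
  have p1 := Real.pi_gt_d6
  have p2 := Real.pi_lt_d6
  have t1 : (0.014578 : ℝ) ≤ 2 * Real.pi / (431 : ℕ) := by
    rw [le_div_iff₀ (by norm_num)]; push_cast; nlinarith
  have t2 : 2 * Real.pi / (431 : ℕ) ≤ (0.014579 : ℝ) := by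
    rw [div_le_iff₀ (by norm_num)]; push_cast; nlinarith
  have hc := Real.cos_bound (x := 2 * Real.pi / (431 : ℕ)) (by rw [abs_le]; constructor <;> linarith)
  have hs := Real.sin_bound (x := 2 * Real.pi / (431 : ℕ)) (by rw [abs_le]; constructor <;> linarith)
  set θ : ℝ := 2 * Real.pi / (431 : ℕ) with hθ
  have ht0 : 0 ≤ θ := by linarith
  have h2a : (0.014578 : ℝ) ^ 2 ≤ θ ^ 2 := by gcongr
  have h2b : θ ^ 2 ≤ (0.014579 : ℝ) ^ 2 := by gcongr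
  have h3a : (0.014578 : ℝ) ^ 3 ≤ θ ^ 3 := by gcongr
  have h3b : θ ^ 3 ≤ (0.014579 : ℝ) ^ 3 := by gcongr
  have h4 : |θ| ^ 4 ≤ (0.014579 : ℝ) ^ 4 := by rw [abs_of_nonneg ht0]; gcongr
  have h5 : |θ| ^ 5 ≤ (0.014579 : ℝ) ^ 5 := by rw [abs_of_nonneg ht0]; gcongr
  rw [abs_le] at hc hs
  obtain ⟨hc1, hc2⟩ := hc
  obtain ⟨hs1, hs2⟩ := hs
  refine (RTE_norm θ (rt 431) (RTE_eq 431) _ _ (1 / 4000) (1 / 4000) ?_ ?_).trans (by norm_num)
  · rw [abs_le]; constructor <;> norm_num at * <;> linarith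
  · rw [abs_le]; constructor <;> norm_num at * <;> linarith

/-- `θ = 2 π / 23 = 0.27318…`; the same. -/
theorem rt_23 : ‖rt 23 - (((962917 : ℤ) : ℂ) + ((269797 : ℤ) : ℂ) * Complex.I) / 10 ^ 6‖ ≤ 1 / 100 := by
  have p1 := Real.pi_gt_d6
  have p2 := Real.pi_lt_d6
  have t1 : (0.27318 : ℝ) ≤ 2 * Real.pi / (23 : ℕ) := by
    rw [le_div_iff₀ (by norm_num)]; push_cast; nlinarith
  have t2 : 2 * Real.pi / (23 : ℕ) ≤ (0.27319 : ℝ) := by
    rw [div_le_iff₀ (by norm_num)]; push_cast; nlinarith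
  have hc := Real.cos_bound (x := 2 * Real.pi / (23 : ℕ)) (by rw [abs_le]; constructor <;> linarith)
  have hs := Real.sin_bound (x := 2 * Real.pi / (23 : ℕ)) (by rw [abs_le]; constructor <;> linarith)
  set θ : ℝ := 2 * Real.pi / (23 : ℕ) with hθ
  have ht0 : 0 ≤ θ := by linarith
  have h2a : (0.27318 : ℝ) ^ 2 ≤ θ ^ 2 := by gcongr
  have h2b : θ ^ 2 ≤ (0.27319 : ℝ) ^ 2 := by gcongr
  have h3a : (0.27318 : ℝ) ^ 3 ≤ θ ^ 3 := by gcongr
  have h3b : θ ^ 3 ≤ (0.27319 : ℝ) ^ 3 := by gcongr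
  have h4 : |θ| ^ 4 ≤ (0.27319 : ℝ) ^ 4 := by rw [abs_of_nonneg ht0]; gcongr
  have h5 : |θ| ^ 5 ≤ (0.27319 : ℝ) ^ 5 := by rw [abs_of_nonneg ht0]; gcongr
  rw [abs_le] at hc hs
  obtain ⟨hc1, hc2⟩ := hc
  obtain ⟨hs1, hs2⟩ := hs
  refine (RTE_norm θ (rt 23) (RTE_eq 23) _ _ (1 / 200) (1 / 200) ?_ ?_).trans (by norm_num)
  · rw [abs_le]; constructor <;> norm_num at * <;> linarith
  · rw [abs_le]; constructor <;> norm_num at * <;> linarith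

/-- `θ = 2 π / 5`: `rt 5 = (cos (π / 5) + i sin (π / 5)) ^ 2`, `cos θ = 2 cos ^ 2 (π / 5) - 1` with `cos (π / 5) = (1 + √5) / 4`
(`Real.cos_pi_div_five`), `sin θ = √(1 - cos ^ 2 θ) > 0` (or bounds for `cos (π / 5)`, `sin (π / 5)` by
`Real.cos_bound`, `Real.sin_bound` and squaring). -/
theorem rt_5 : ‖rt 5 - (((309017 : ℤ) : ℂ) + ((951057 : ℤ) : ℂ) * Complex.I) / 10 ^ 6‖ ≤ 1 / 20 := by
  have h5 : Real.cos (2 * Real.pi / (5 : ℕ)) = (√5 - 1) / 4 := by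
    have e : 2 * Real.pi / ((5 : ℕ) : ℝ) = 2 * (Real.pi / 5) := by push_cast; ring
    rw [e, Real.cos_two_mul, Real.cos_pi_div_five]
    have := Real.sq_sqrt (show (0 : ℝ) ≤ 5 by norm_num)
    nlinarith
  have s1 : (2.236 : ℝ) ≤ √5 := by
    rw [show (2.236 : ℝ) = √(2.236 ^ 2) by rw [Real.sqrt_sq (by norm_num)]]
    exact Real.sqrt_le_sqrt (by norm_num)
  have s2 : √5 ≤ (2.237 : ℝ) := by
    rw [show (2.237 : ℝ) = √(2.237 ^ 2) by rw [Real.sqrt_sq (by norm_num)]]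
    exact Real.sqrt_le_sqrt (by norm_num)
  have hsin : 0 ≤ Real.sin (2 * Real.pi / (5 : ℕ)) := by
    apply Real.sin_nonneg_of_nonneg_of_le_pi
    · positivity
    · push_cast
      linarith [Real.pi_pos]
  have hsq := Real.sin_sq_add_cos_sq (2 * Real.pi / (5 : ℕ))
  set θ : ℝ := 2 * Real.pi / (5 : ℕ) with hθ
  have c1 : (0.309 : ℝ) ≤ Real.cos θ := by rw [h5]; linarith
  have c2 : Real.cos θ ≤ (0.31 : ℝ) := by rw [h5]; linarith
  refine (RTE_norm θ (rt 5) (RTE_eq 5) _ _ (1 / 40) (1 / 40) ?_ ?_).trans (by norm_num)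
  · rw [abs_le]; constructor <;> norm_num at * <;> linarith
  · have e1 : (0.94 : ℝ) ≤ Real.sin θ := by nlinarith
    have e2 : Real.sin θ ≤ (0.96 : ℝ) := by nlinarith
    rw [abs_le]; constructor <;> norm_num at * <;> linarith

end Pool.Agent.Hex.Cr
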