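import Pool.Agent.Hex.DatZ
import Pool.Agent.Hex.Root

/-!
# The approximations of the four cycles
-/

open Complex ComplexConjugate

set_option exponentiation.threshold 4000

namespace Pool.Agent.Hex.Cr

theorem kZ1 : cycOK 1 1000000 0 2 Z1 = true := by decide +kernel

theorem kZ5 : cycOK 5 309017 951057 2 Z5 = true := by decide +kernel

theorem kZ23 : cycOK 23 962917 269797 2 Z23 = true := by decide +kernel

theorem kZ431 : cycOK 431 999894 14578 2 Z431 = true := by decide +kernel

theorem lZ1 : Z1.length = 1 := by decide +kernel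

theorem lZ5 : Z5.length = 4 := by decide +kernel

theorem lZ23 : Z23.length = 11 := by decide +kernel

theorem lZ431 : Z431.length = 43 := by decide +kernel

theorem kV431 : roughOK (gsum Z431) 43 164193 189566 20 = true := by decide +kernel

theorem kV23 : roughOK (gsum Z23) 11 (-45455) 217992 10 = true := by decide +kernel

theorem apx_1 : Apx Z1 (its (rt 1) 1) := by
  have h := apx_of_cyc 1 (by norm_num) 1000000 0 2 Z1 kZ1 0 (1 / 2 ^ 629)
    (by rw [rt_one]; norm_num) (by norm_num) (by norm_num) (by norm_num)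
    (by rw [lZ1]; norm_num)
  rwa [lZ1] at h

theorem apx_5 : Apx Z5 (its (rt 5) 4) := by
  have h := apx_of_cyc 5 (by norm_num) 309017 951057 2 Z5 kZ5 (1 / 20) (1 / 2 ^ 631)
    rt_5 (by norm_num) (by norm_num) (by norm_num) (by rw [lZ5]; norm_num)
  rwa [lZ5] at h

theorem apx_23 : Apx Z23 (its (rt 23) 11) := by
  have h := apx_of_cyc 23 (by norm_num) 962917 269797 2 Z23 kZ23 (1 / 100) (1 / 2 ^ 633)
    rt_23 (by norm_num) (by norm_num) (by norm_num) (by rw [lZ23]; norm_num)
  rwa [lZ23] at h

theorem apx_431 : Apx Z431 (its (rt 431) 43) := by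
  have h := apx_of_cyc 431 (by norm_num) 999894 14578 2 Z431 kZ431 (1 / 2000) (1 / 2 ^ 637)
    rt_431 (by norm_num) (by norm_num) (by norm_num) (by rw [lZ431]; norm_num)
  rwa [lZ431] at h

end Pool.Agent.Hex.Cr
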