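import Pool.Agent.Hex.Root

/-!
# The arithmetic of the cycles
-/

open Complex ComplexConjugate Polynomial

namespace Pool.Agent.Hex.Cr

/-! ## CYA: the number of points -/

/-- Module CYA. `rt n` is a primitive `n`-th root of unity (`Complex.isPrimitiveRoot_exp n hn`), so `rt n ^ a = rt n ^ b` iff
`a ≡ b` modulo `n` (`IsPrimitiveRoot.pow_inj` with `pow_mod_orderOf`, or `IsPrimitiveRoot.zpow_eq_one_iff_dvd`). -/
theorem rt_pow_eq (n : ℕ) (hn : 0 < n) (a b : ℕ) : rt n ^ a = rt n ^ b ↔ a % n = b % n := by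
  have h : IsPrimitiveRoot (rt n) n := Complex.isPrimitiveRoot_exp n hn.ne'
  have ho : orderOf (rt n) = n := h.eq_orderOf.symm
  have h1 : ∀ c : ℕ, rt n ^ c = rt n ^ (c % n) := by
    intro c
    have h2 := pow_mod_orderOf (rt n) c
    rw [ho] at h2
    exact h2.symm
  constructor
  · intro h2
    rw [h1 a, h1 b] at h2
    exact h.pow_inj (Nat.mod_lt _ hn) (Nat.mod_lt _ hn) h2
  · intro h2
    rw [h1 a, h1 b, h2]

/-- `Finset.card_image_of_injOn`: `pt n i = pt n j` gives `2 ^ i % n = 2 ^ j % n`, so `i = j` by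
`List.inj_on_of_nodup_map`. -/
theorem card_orb (n L : ℕ) (hn : 0 < n) (h : ((List.range L).map fun j => 2 ^ j % n).Nodup) :
    (orb n L).card = L := by
  have h1 : Set.InjOn (pt n) (Finset.range L : Set ℕ) := by
    intro i hi j hj hij
    have h2 := (rt_pow_eq n hn _ _).1 hij
    exact List.inj_on_of_nodup_map h (List.mem_range.2 (Finset.mem_range.1 hi))
      (List.mem_range.2 (Finset.mem_range.1 hj)) h2
  rw [orb, Finset.card_image_of_injOn h1, Finset.card_range]

theorem pt_eq (n i j : ℕ) (hn : 0 < n) (h : 2 ^ i % n = 2 ^ j % n) : pt n i = pt n j := by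
  exact (rt_pow_eq n hn _ _).2 h

/-! ## CYB: disjoint cycles -/

/-- Module CYB. A common point `x` satisfies `x ^ n = 1 = x ^ m`, hence `x = 1` (`orderOf_dvd_of_pow_eq_one`,
`Nat.Coprime`), but `x = rt m ^ 2 ^ j` with `2 ^ j % m ≠ 0`, so `x ≠ 1` by `rt_pow_eq m _ _ 0`. -/
theorem orb_disj (n m L K : ℕ) (hn : 0 < n) (hm : 0 < m) (hc : Nat.Coprime n m)
    (h : ∀ j < K, 2 ^ j % m ≠ 0) : Disjoint (orb n L) (orb m K) := by
  rw [Finset.disjoint_left]
  intro x hx hx'
  obtain ⟨i, -, rfl⟩ := Finset.mem_image.1 hx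
  obtain ⟨j, hj, hij⟩ := Finset.mem_image.1 hx'
  have hr : ∀ r : ℕ, 0 < r → ∀ l, pt r l ^ r = 1 := by
    intro r hr l
    have h1 : IsPrimitiveRoot (rt r) r := Complex.isPrimitiveRoot_exp r hr.ne'
    rw [pt, ← pow_mul, mul_comm, pow_mul, h1.pow_eq_one, one_pow]
  have h1 : orderOf (pt n i) ∣ n := orderOf_dvd_of_pow_eq_one (hr n hn i)
  have h2 : orderOf (pt n i) ∣ m := by
    apply orderOf_dvd_of_pow_eq_one
    rw [← hij]
    exact hr m hm j
  have h3 : orderOf (pt n i) = 1 := Nat.eq_one_of_dvd_coprimes hc h1 h2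
  rw [orderOf_eq_one_iff] at h3
  rw [h3] at hij
  have h4 : rt m ^ 2 ^ j = rt m ^ 0 := by
    rw [pow_zero]
    exact hij
  have h5 := (rt_pow_eq m hm _ _).1 h4
  rw [Nat.zero_mod] at h5
  exact h j (Finset.mem_range.1 hj) h5

/-! ## CYD: the three pairs -/

private theorem CYD_one (n L : ℕ) (hn : 0 < n) (h : 2 ^ L % n = 1 % n) : pt n L = rt n := by
  have h1 := (rt_pow_eq n hn (2 ^ L) 1).2 h
  rw [pow_one] at h1
  exact h1

private theorem CYD_cub (n a : ℕ) (hn : 0 < n) (h : 3 % n = 2 ^ a % n) : rt n ^ 3 = pt n a :=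
  (rt_pow_eq n hn 3 (2 ^ a)).2 h

/-- Module CYD. `card_orb`, `orb_disj`, `rt_pow_eq`, `rt_one`; all arithmetic by `decide` / `norm_num`
(`2 ^ 43 % 431 = 1`, `3 = 2 ^ A % 431` with the `A` you find, `2 ^ 11 % 23 = 1`, `2 ^ 8 % 23 = 3`, `2 ^ 4 % 5 = 1`,
`2 ^ 3 % 5 = 3`). -/
theorem cyc_1 : Cyc 1 1 431 43 := by
  refine ⟨by norm_num, by norm_num, card_orb 1 1 (by norm_num) (by decide),
    card_orb 431 43 (by norm_num) (by decide), by norm_num, orb_disj 1 431 1 43 (by norm_num) (by norm_num)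
    (by norm_num) (by decide), ?_, CYD_one 431 43 (by norm_num) (by norm_num), ⟨0, ?_⟩,
    ⟨13, CYD_cub 431 13 (by norm_num) (by norm_num)⟩⟩
  · exact CYD_one 1 1 (by norm_num) (by norm_num)
  · exact CYD_cub 1 0 (by norm_num) (by norm_num)

theorem cyc_2 : Cyc 431 43 23 11 := by
  exact ⟨by norm_num, by norm_num, card_orb 431 43 (by norm_num) (by decide),
    card_orb 23 11 (by norm_num) (by decide), by norm_num, orb_disj 431 23 43 11 (by norm_num) (by norm_num)
    (by norm_num) (by decide), CYD_one 431 43 (by norm_num) (by norm_num),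
    CYD_one 23 11 (by norm_num) (by norm_num),
    ⟨13, CYD_cub 431 13 (by norm_num) (by norm_num)⟩, ⟨8, CYD_cub 23 8 (by norm_num) (by norm_num)⟩⟩

theorem cyc_3 : Cyc 23 11 5 4 := by
  exact ⟨by norm_num, by norm_num, card_orb 23 11 (by norm_num) (by decide),
    card_orb 5 4 (by norm_num) (by decide), by norm_num, orb_disj 23 5 11 4 (by norm_num) (by norm_num)
    (by norm_num) (by decide), CYD_one 23 11 (by norm_num) (by norm_num),
    CYD_one 5 4 (by norm_num) (by norm_num),
    ⟨8, CYD_cub 23 8 (by norm_num) (by norm_num)⟩, ⟨3, CYD_cub 5 3 (by norm_num) (by norm_num)⟩⟩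

/-! ## CYI: the lists and the finite sets -/

private theorem CYI_its (ζ : ℂ) (L : ℕ) : its ζ L = (List.range L).map (fun j => ζ ^ 2 ^ j) := by
  induction L generalizing ζ with
  | zero => rfl
  | succ L ih =>
    rw [its, ih, List.range_succ_eq_map, List.map_cons, List.map_map, pow_zero, pow_one]
    congr 1
    apply List.map_congr_left
    intro j _
    show (ζ ^ 2) ^ 2 ^ j = ζ ^ 2 ^ (j + 1)
    rw [← pow_mul, pow_succ' 2 j]

/-- Module CYI. -/
theorem its_eq (n L : ℕ) : its (rt n) L = (List.range L).map (pt n) := by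
  rw [CYI_its]
  rfl

theorem its_length (ζ : ℂ) (L : ℕ) : (its ζ L).length = L := by
  rw [CYI_its, List.length_map, List.length_range]

theorem its_toFinset (n L : ℕ) : (its (rt n) L).toFinset = orb n L := by
  ext x
  rw [its_eq, List.mem_toFinset, List.mem_map, orb, Finset.mem_image]
  simp only [List.mem_range, Finset.mem_range]

theorem its_sum (n L : ℕ) : (its (rt n) L).sum = sm n L := by
  rw [its_eq, sm]
  induction L with
  | zero => simp
  | succ L ih =>
    rw [List.range_succ, List.map_append, List.sum_append, ih, Finset.sum_range_succ, List.map_singleton,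
      List.sum_singleton]

end Pool.Agent.Hex.Cr
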