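import Pool.Agent.Hex.Root

/-!
# Products of linear factors
-/

open Complex ComplexConjugate Polynomial

set_option exponentiation.threshold 4000

namespace Pool.Agent.Hex.Cr

/-! ## PRA: products of close factors -/

/-- Module PRA. Each factor has norm `l1 ≤ 1 + ‖p‖ = 2 ≤ 3`; `l1_lin_mul_le`. -/
theorem l1_prod_le (P : List ℂ) (h : ∀ p ∈ P, ‖p‖ ≤ 2) :
    l1 (P.map fun p => (X - C p : ℂ[X])).prod ≤ 3 ^ P.length := by
  induction P with
  | nil => rw [List.map_nil, List.prod_nil, List.length_nil, pow_zero, ← C_1, l1_C, norm_one]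
  | cons p P ih =>
    rw [List.map_cons, List.prod_cons, List.length_cons, pow_succ']
    refine (l1_lin_mul_le _ _).trans ?_
    refine mul_le_mul ?_ (ih fun q hq => h q (List.mem_cons_of_mem _ hq)) (l1_nonneg _)
      (by norm_num)
    linarith [h p List.mem_cons_self]

/-- Induction on `Forall₂`: `(X - a) A - (X - p) B = (X - a) (A - B) + C (p - a) * B`, so
`l1 ≤ 3 l1 (A - B) + (1 / 2 ^ 570) 3 ^ n ≤ (n + 1) 3 ^ (n + 1) / 2 ^ 570` (`‖toC 640 a‖ ≤ 2`; `l1_lin_mul_le`, `l1_C_mul`,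
`l1_prod_le`). -/
theorem l1_prod_sub (Z : List GI) (P : List ℂ) (h : Apx Z P) :
    l1 ((Z.map fun a => (X - C (toC 640 a) : ℂ[X])).prod - (P.map fun p => (X - C p : ℂ[X])).prod) ≤
      Z.length * 3 ^ Z.length * (1 / 2 ^ 570) := by
  unfold Apx at h
  obtain ⟨ε, hε⟩ : ∃ ε : ℝ, ε = 1 / 2 ^ 570 := ⟨_, rfl⟩
  have hε0 : 0 ≤ ε := by rw [hε]; positivity
  have hε1 : ε ≤ 1 := by
    rw [hε]
    exact div_le_one_of_le₀ (one_le_pow₀ (by norm_num)) (by positivity)
  rw [← hε] at h ⊢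
  induction h with
  | nil =>
    rw [List.map_nil, List.map_nil, sub_self, l1_zero, List.length_nil]
    simp
  | @cons a p Z P hap hZP ih =>
    obtain ⟨hp, ha⟩ := hap
    have hl : P.length = Z.length := (List.Forall₂.length_eq hZP).symm
    have hP : ∀ q ∈ P, ‖q‖ ≤ 2 := by
      intro q hq
      obtain ⟨i, hi, rfl⟩ := List.getElem_of_mem hq
      have h1 := (List.forall₂_iff_get.1 hZP).2 i (by omega) hi
      have h2 : ‖P[i]‖ = 1 := h1.1
      rw [h2]
      norm_num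
    have hB := l1_prod_le P hP
    rw [hl] at hB
    have ha2 : 1 + ‖toC 640 a‖ ≤ 3 := by
      have h1 : ‖toC 640 a‖ ≤ ‖toC 640 a - p‖ + ‖p‖ := by
        have h2 := norm_add_le (toC 640 a - p) p
        rwa [sub_add_cancel] at h2
      linarith
    rw [List.map_cons, List.map_cons, List.prod_cons, List.prod_cons, List.length_cons]
    obtain ⟨A, hA⟩ : ∃ A : ℂ[X], A = (Z.map fun a => (X - C (toC 640 a) : ℂ[X])).prod := ⟨_, rfl⟩
    obtain ⟨B, hB'⟩ : ∃ B : ℂ[X], B = (P.map fun p => (X - C p : ℂ[X])).prod := ⟨_, rfl⟩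
    rw [← hA, ← hB'] at ih ⊢
    rw [← hB'] at hB
    have h3 : (X - C (toC 640 a)) * A - (X - C p) * B =
        (X - C (toC 640 a)) * (A - B) + C (p - toC 640 a) * B := by
      rw [C_sub]
      ring
    rw [h3]
    refine (l1_add_le _ _).trans ?_
    have h4 : l1 ((X - C (toC 640 a)) * (A - B)) ≤ 3 * (Z.length * 3 ^ Z.length * ε) :=
      (l1_lin_mul_le _ _).trans (mul_le_mul ha2 ih (l1_nonneg _) (by norm_num))
    have h5 : l1 (C (p - toC 640 a) * B) ≤ ε * 3 ^ Z.length := by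
      rw [l1_C_mul, norm_sub_rev]
      exact mul_le_mul ha hB (l1_nonneg _) hε0
    have h6 : 0 ≤ ε * 3 ^ Z.length := mul_nonneg hε0 (by positivity)
    push_cast
    rw [pow_succ]
    nlinarith

/-! ## PRB: the coefficients of the product -/

private theorem PRB_div (a b : ℕ) (x : ℝ) (h : b ≤ a) (hx : x ≤ 2 ^ (a - b)) :
    x / 2 ^ a ≤ 1 / 2 ^ b := by
  rw [div_le_div_iff₀ (pow_pos two_pos a) (pow_pos two_pos b), one_mul]
  have h1 : (2 : ℝ) ^ a = 2 ^ (a - b) * 2 ^ b := by rw [← pow_add, Nat.sub_add_cancel h]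
  rw [h1]
  exact mul_le_mul_of_nonneg_right hx (pow_pos two_pos b).le

private theorem PRB_zero (s : ℕ) : toC s (0, 0) = 0 := by
  unfold toC
  simp

/-- Module PRB. Induction on `Z`, with `640 * (l.length + 1) = 640 + 640 * l.length`: `pol_add`, `pol_sc 640`, `toC_neg`,
`pol_shl (640 * l.length) 640` (rewrite the sum in the other order). -/
theorem pol_roots (Z : List GI) :
    pol (640 * Z.length) (rootsL Z) = (Z.map fun a => (X - C (toC 640 a) : ℂ[X])).prod := by
  induction Z with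
  | nil =>
    rw [rootsL, List.map_nil, List.prod_nil, List.length_nil, pol, pol]
    unfold toC
    simp
  | cons z l ih =>
    have h1 : 640 * (z :: l).length = 640 + 640 * l.length := by
      rw [List.length_cons]
      ring
    rw [h1, rootsL, pol_add, pol_sc, List.map_cons, List.prod_cons, ← ih, toC_neg, pol, PRB_zero,
      add_comm 640 (640 * l.length), pol_shl, C_neg, C_0]
    ring

/-- `pol_shl 640 (640 * (Z.length - 1))`, `pol_neg`, `pol_add`, `l1_pol`, `l1_neg`; `natDegree_pol`. -/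
theorem chkF_le (Z F : List GI) (h : chkF Z F = true) :
    l1 (pol 640 F - (Z.map fun a => (X - C (toC 640 a) : ℂ[X])).prod) ≤ 1 / 2 ^ 500 ∧
      (pol 640 F).natDegree ≤ 63 := by
  unfold chkF at h
  rw [Bool.and_eq_true, Bool.and_eq_true] at h
  obtain ⟨⟨h1, h2⟩, h3⟩ := h
  have h1' : 0 < Z.length := by
    rw [Nat.blt_eq] at h1
    exact h1
  have h2' : F.length ≤ 64 := Nat.le_of_ble_eq_true h2
  have h3' := Nat.le_of_ble_eq_true h3
  refine ⟨?_, ?_⟩
  · obtain ⟨n, hn⟩ : ∃ n, Z.length = n + 1 := ⟨Z.length - 1, by omega⟩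
    have h4 : 640 * Z.length = 640 + 640 * (Z.length - 1) := by omega
    have h5 := l1_pol (640 * Z.length) (ladd (rootsL Z) (lneg (lshl (640 * (Z.length - 1)) F)))
    rw [pol_add, pol_neg, pol_roots] at h5
    have h6 : pol (640 * Z.length) (lshl (640 * (Z.length - 1)) F) = pol 640 F := by
      conv_lhs => rw [h4]
      exact pol_shl 640 (640 * (Z.length - 1)) F
    rw [h6] at h5
    rw [← l1_neg, neg_sub, sub_eq_add_neg]
    refine h5.trans (PRB_div _ _ _ (by omega) ?_)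
    exact_mod_cast h3'
  · refine (natDegree_pol 640 F).trans ?_
    omega

/-! ## PRC: the polynomial of the cycles -/

private theorem PRC_num :
    (1 : ℝ) / 2 ^ 500 + 54 * 3 ^ 54 * (1 / 2 ^ 570) ≤ 1 / 2 ^ 470 := by
  have h1 : ∀ a b : ℕ, (1 : ℝ) / 2 ^ (a + b) = 1 / 2 ^ a * (1 / 2 ^ b) := by
    intro a b
    rw [pow_add, one_div_mul_one_div]
  have h2 : (0 : ℝ) < 1 / 2 ^ 470 := one_div_pos.2 (pow_pos two_pos _)
  have h3 := h1 470 30
  have h4 := h1 470 100
  obtain ⟨ε, hε⟩ : ∃ ε : ℝ, ε = 1 / 2 ^ 470 := ⟨_, rfl⟩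
  rw [← hε] at h2 h3 h4 ⊢
  have h5 : (1 : ℝ) / 2 ^ 500 = ε * (1 / 2 ^ 30) := h3
  have h6 : (1 : ℝ) / 2 ^ 570 = ε * (1 / 2 ^ 100) := h4
  rw [h5, h6]
  norm_num
  nlinarith

/-- Module PRC. `van P.toFinset = (P.map fun p => X - C p).prod` (`List.prod_toFinset` for a list without duplicates); triangle
inequality with `chkF_le` and `l1_prod_sub`; `54 * 3 ^ 54 / 2 ^ 570 + 1 / 2 ^ 500 ≤ 1 / 2 ^ 470`
(`Z.length * 3 ^ Z.length ≤ 54 * 3 ^ 54` by monotonicity). -/
theorem van_le (Z F : List GI) (P : List ℂ) (hP : P.Nodup) (h : Apx Z P) (hZ : Z.length ≤ 54) (hF : chkF Z F = true) :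
    l1 (pol 640 F - van P.toFinset) ≤ 1 / 2 ^ 470 := by
  have h1 : van P.toFinset = (P.map fun p => (X - C p : ℂ[X])).prod := by
    unfold van
    exact List.prod_toFinset _ hP
  rw [h1]
  have h2 := (chkF_le Z F hF).1
  have h3 := l1_prod_sub Z P h
  have h4 := l1_add_le (pol 640 F - (Z.map fun a => (X - C (toC 640 a) : ℂ[X])).prod)
    ((Z.map fun a => (X - C (toC 640 a) : ℂ[X])).prod - (P.map fun p => (X - C p : ℂ[X])).prod)
  rw [sub_add_sub_cancel] at h4
  have h5 : (Z.length : ℝ) * 3 ^ Z.length ≤ 54 * 3 ^ 54 := by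
    refine mul_le_mul ?_ ?_ (by positivity) (by norm_num)
    · exact_mod_cast hZ
    · exact pow_le_pow_right₀ (by norm_num) hZ
  have h6 : (Z.length : ℝ) * 3 ^ Z.length * (1 / 2 ^ 570) ≤ 54 * 3 ^ 54 * (1 / 2 ^ 570) :=
    mul_le_mul_of_nonneg_right h5 (by positivity)
  have h7 := PRC_num
  linarith

end Pool.Agent.Hex.Cr
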