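import Pool.Agent.Hex.Root

/-!
# Distances of the points of the cycles
-/

open Complex ComplexConjugate Polynomial

namespace Pool.Agent.Hex.Cr

/-! ## SPA: separation -/

/-- Module SPA. `toC_re`, `toC_im`, `Complex.sq_norm`, `Complex.normSq_apply`; `Nat.cast_natAbs`, `sq_abs`. -/
theorem norm_sq_sub (a b : GI) : ‖toC 640 a - toC 640 b‖ ^ 2 = (gdist a b : ℝ) / 2 ^ 1280 := by
  have h1 : (gdist a b : ℝ) = ((a.1 : ℝ) - b.1) ^ 2 + ((a.2 : ℝ) - b.2) ^ 2 := by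
    unfold gdist
    rw [Nat.cast_add, Nat.cast_pow, Nat.cast_pow, Nat.cast_natAbs, Nat.cast_natAbs, Int.cast_abs,
      Int.cast_abs, sq_abs, sq_abs, Int.cast_sub, Int.cast_sub]
  have h2 : (2 : ℝ) ^ 1280 = (2 ^ 640) ^ 2 := by rw [← pow_mul]
  rw [Complex.sq_norm, Complex.normSq_apply, Complex.sub_re, Complex.sub_im, toC_re, toC_re, toC_im,
    toC_im, h1, h2]
  generalize (2 : ℝ) ^ 640 = c
  ring

private theorem SPA_mem {R : GI → ℂ → Prop} {Z : List GI} {P : List ℂ} (h : List.Forall₂ R Z P) :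
    ∀ p ∈ P, ∃ a ∈ Z, R a p := by
  induction h with
  | nil => intro p hp; exact absurd hp List.not_mem_nil
  | @cons a q l P h1 h2 ih =>
    intro p hp
    rcases List.mem_cons.1 hp with rfl | hp
    · exact ⟨a, List.mem_cons_self, h1⟩
    · obtain ⟨b, hb, hb'⟩ := ih p hp
      exact ⟨b, List.mem_cons_of_mem _ hb, hb'⟩

private theorem SPA_pair (a b : GI) (p p' : ℂ) (ha : ‖toC 640 a - p‖ ≤ 1 / 2 ^ 570)
    (hb : ‖toC 640 b - p'‖ ≤ 1 / 2 ^ 570) (h : 2 ^ 1260 ≤ gdist a b) :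
    1 / 2 ^ 11 ≤ ‖p - p'‖ := by
  have h0 : (2 : ℝ) ^ 1260 ≤ (gdist a b : ℝ) := by
    have h1 : ((2 ^ 1260 : ℕ) : ℝ) ≤ (gdist a b : ℝ) := Nat.cast_le.2 h
    rwa [Nat.cast_pow, Nat.cast_ofNat] at h1
  have h1 : (1 / 2 ^ 10 : ℝ) ^ 2 ≤ ‖toC 640 a - toC 640 b‖ ^ 2 := by
    rw [norm_sq_sub, div_pow, one_pow, ← pow_mul, div_le_div_iff₀ (by positivity) (by positivity),
      one_mul]
    refine le_trans (le_of_eq ?_) (mul_le_mul_of_nonneg_right h0 (by positivity))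
    rw [← pow_add]
  have h2 : (1 / 2 ^ 10 : ℝ) ≤ ‖toC 640 a - toC 640 b‖ :=
    (sq_le_sq₀ (by positivity) (norm_nonneg _)).1 h1
  have h3 : toC 640 a - toC 640 b = (toC 640 a - p) - (toC 640 b - p') + (p - p') := by ring
  have h4 : ‖toC 640 a - toC 640 b‖ ≤ ‖toC 640 a - p‖ + ‖toC 640 b - p'‖ + ‖p - p'‖ := by
    rw [h3]
    exact (norm_add_le _ _).trans (add_le_add (norm_sub_le _ _) le_rfl)
  have h5 : (1 / 2 ^ 570 : ℝ) ≤ 1 / 2 ^ 12 :=
    one_div_le_one_div_of_le (by positivity) (pow_le_pow_right₀ one_le_two (by norm_num))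
  have h6 := ha.trans h5
  have h7 := hb.trans h5
  have h8 : (1 / 2 ^ 10 : ℝ) = 1 / 2 ^ 12 + 1 / 2 ^ 12 + 1 / 2 ^ 11 := by norm_num
  clear ha hb h5 h3 h0 h1
  linarith

/-- Induction on `Forall₂` for `sepOK` (`List.all_eq_true`): for `b ∈ l` and its partner `p'` (`Forall₂` gives for every
`p' ∈ P` a `b ∈ Z` with the relation): `‖toC 640 a - toC 640 b‖ ≥ 2 ^ (-10)`, so `‖p - p'‖ ≥ 2 ^ (-10) - 2 / 2 ^ 570`. -/
theorem sep_pairwise (Z : List GI) (P : List ℂ) (h : Apx Z P) (hs : sepOK Z = true) :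
    P.Pairwise (fun p p' => 1 / 2 ^ 11 ≤ ‖p - p'‖) := by
  unfold Apx at h
  induction h with
  | nil => exact List.Pairwise.nil
  | @cons a p l P h1 h2 ih =>
    rw [sepOK, Bool.and_eq_true, List.all_eq_true] at hs
    refine List.Pairwise.cons (fun p' hp' => ?_) (ih hs.2)
    obtain ⟨b, hb, hb'⟩ := SPA_mem h2 p' hp'
    exact SPA_pair a b p p' h1.2 hb'.2 (Nat.le_of_ble_eq_true (hs.1 b hb))

theorem sep_nodup (Z : List GI) (P : List ℂ) (h : Apx Z P) (hs : sepOK Z = true) : P.Nodup := by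
  refine List.Pairwise.imp ?_ (sep_pairwise Z P h hs)
  rintro p p' h1 rfl
  rw [sub_self, norm_zero] at h1
  exact absurd h1 (not_le.2 (by positivity))

/-- `List.Pairwise.forall` or `List.Pairwise.forall_of_forall` for the symmetric relation. -/
theorem sep_ne (Z : List GI) (P : List ℂ) (h : Apx Z P) (hs : sepOK Z = true) (p : ℂ) (hp : p ∈ P) (p' : ℂ)
    (hp' : p' ∈ P) (hne : p ≠ p') : 1 / 2 ^ 11 ≤ ‖p - p'‖ := by
  have hsym : Std.Symm (fun p p' : ℂ => (1 / 2 ^ 11 : ℝ) ≤ ‖p - p'‖) := ⟨fun x y hxy => by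
    have hxy' : (1 / 2 ^ 11 : ℝ) ≤ ‖x - y‖ := hxy
    show (1 / 2 ^ 11 : ℝ) ≤ ‖y - x‖
    rwa [norm_sub_rev]⟩
  exact (sep_pairwise Z P h hs).forall hp hp' hne

/-! ## SPB: one factor -/

private theorem SPB_alg (D d η γ δ : ℝ) (hd : 0 ≤ d) (hη : 2 * η ≤ D * γ)
    (hγ : 0 ≤ γ) (hγ1 : γ ≤ 1) (hδ : 3 * γ ≤ δ) (hδ1 : δ ≤ 1) (h : d ≤ D + 2 * η) :
    d ^ 2 / 4 * (1 - δ) ≤ (D / 2) ^ 2 := by
  have h1 : d ≤ D * (1 + γ) := by linarith
  have h2 : d ^ 2 ≤ (D * (1 + γ)) ^ 2 := pow_le_pow_left₀ hd h1 2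
  have h3 : (1 + γ) ^ 2 * (1 - δ) ≤ 1 := by
    have h4 : (1 + γ) ^ 2 ≤ 1 + 3 * γ := by nlinarith
    have h5 : (1 + γ) ^ 2 * (1 - δ) ≤ (1 + 3 * γ) * (1 - δ) :=
      mul_le_mul_of_nonneg_right h4 (by linarith)
    refine h5.trans ?_
    nlinarith [mul_nonneg hγ (by linarith : (0 : ℝ) ≤ δ)]
  have h6 : d ^ 2 * (1 - δ) ≤ (D * (1 + γ)) ^ 2 * (1 - δ) :=
    mul_le_mul_of_nonneg_right h2 (by linarith)
  have h7 : (D * (1 + γ)) ^ 2 * (1 - δ) ≤ D ^ 2 := by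
    rw [mul_pow, mul_assoc]
    exact mul_le_of_le_one_right (sq_nonneg _) h3
  have h8 : d ^ 2 / 4 * (1 - δ) = (d ^ 2 * (1 - δ)) / 4 := by ring
  have h9 : (D / 2) ^ 2 = D ^ 2 / 4 := by ring
  rw [h8, h9]
  linarith

private theorem SPB_le {x : ℝ} (m n : ℕ) (hx : x ≤ 1 / 2 ^ m) (h : n ≤ m) : x ≤ 1 / 2 ^ n :=
  hx.trans (one_div_le_one_div_of_le (by positivity) (pow_le_pow_right₀ one_le_two h))

/-- Module SPB. If `p' = p`: the right side is `1`; the left side is at most `1` for `gdist a b = 0`, and otherwise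
`gdist a b / 2 ^ 1282 = ‖toC a - toC b‖ ^ 2 / 4 ≤ (2 / 2 ^ 570) ^ 2 / 4 ≤ 1`. If `p' ≠ p`: put `D = ‖p - p'‖ ≥ 2 ^ (-11)`,
`η = 1 / 2 ^ 570`; `‖toC a - toC b‖ ≥ D - 2 η > 0`, so `gdist a b ≠ 0`, and
`‖toC a - toC b‖ ≤ D + 2 η ≤ D (1 + 1 / 2 ^ 558)`; `(1 + 1 / 2 ^ 558) ^ 2 (1 - 1 / 2 ^ 500) ≤ 1`. -/
theorem factor_le (a b : GI) (p p' : ℂ) (ha : ‖toC 640 a - p‖ ≤ 1 / 2 ^ 570) (hb : ‖toC 640 b - p'‖ ≤ 1 / 2 ^ 570)
    (hne : p ≠ p' → 1 / 2 ^ 11 ≤ ‖p - p'‖) :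
    ((if gdist a b = 0 then 2 ^ 1282 else gdist a b : ℕ) : ℝ) / 2 ^ 1282 * (1 - 1 / 2 ^ 500) ≤
      if p' = p then 1 else (‖p - p'‖ / 2) ^ 2 := by
  have hd0 : (0 : ℝ) ≤ 1 / 2 ^ 500 := by positivity
  have hd1 : (1 / 2 ^ 500 : ℝ) ≤ 1 := by
    rw [div_le_one (by positivity)]
    exact one_le_pow₀ one_le_two
  have hg : (gdist a b : ℝ) / 2 ^ 1282 = ‖toC 640 a - toC 640 b‖ ^ 2 / 4 := by
    have e1 : (2 : ℝ) ^ 1282 = 2 ^ 1280 * 4 := by
      rw [pow_add 2 1280 2]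
      norm_num
    rw [norm_sq_sub, e1, div_div]
  have h3 : toC 640 a - toC 640 b = (toC 640 a - p) - (toC 640 b - p') + (p - p') := by ring
  have h4 : ‖toC 640 a - toC 640 b‖ ≤ ‖p - p'‖ + 2 * (1 / 2 ^ 570) := by
    have h5 : ‖toC 640 a - toC 640 b‖ ≤ ‖toC 640 a - p‖ + ‖toC 640 b - p'‖ + ‖p - p'‖ := by
      rw [h3]
      exact (norm_add_le _ _).trans (add_le_add (norm_sub_le _ _) le_rfl)
    refine h5.trans ?_
    rw [add_comm ‖p - p'‖, two_mul]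
    exact add_le_add (add_le_add ha hb) le_rfl
  have hη : (2 : ℝ) * (1 / 2 ^ 570) ≤ 1 := by
    rw [mul_one_div, div_le_one (by positivity)]
    exact le_self_pow₀ one_le_two (by norm_num)
  by_cases hpp : p' = p
  · rw [if_pos hpp]
    by_cases hz : gdist a b = 0
    · rw [if_pos hz, Nat.cast_pow, Nat.cast_ofNat, div_self (pow_ne_zero _ two_ne_zero), one_mul]
      exact sub_le_self _ hd0
    · rw [if_neg hz, hg]
      rw [hpp, sub_self, norm_zero, zero_add] at h4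
      have h5 : ‖toC 640 a - toC 640 b‖ ≤ 1 := h4.trans hη
      have h6 : ‖toC 640 a - toC 640 b‖ ^ 2 ≤ 1 := pow_le_one₀ (norm_nonneg _) h5
      have h7 : ‖toC 640 a - toC 640 b‖ ^ 2 / 4 ≤ 1 := by linarith
      exact mul_le_one₀ h7 (sub_nonneg.2 hd1) (sub_le_self _ hd0)
  · rw [if_neg hpp]
    have hD := hne (Ne.symm hpp)
    have hz : gdist a b ≠ 0 := by
      intro hz
      have h5 : ‖toC 640 a - toC 640 b‖ ^ 2 = 0 := by
        rw [norm_sq_sub, hz, Nat.cast_zero, zero_div]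
      have h6 : toC 640 a - toC 640 b = 0 := norm_eq_zero.1 (pow_eq_zero_iff two_ne_zero |>.1 h5)
      have h7 : p - p' = (toC 640 b - p') - (toC 640 a - p) := by
        rw [h3] at h6
        linear_combination h6
      have h8 : ‖p - p'‖ ≤ 1 / 2 ^ 12 + 1 / 2 ^ 12 - 1 / 2 ^ 13 := by
        rw [h7]
        refine (norm_sub_le _ _).trans ?_
        have i1 := SPB_le 570 13 ha (by norm_num)
        have i2 := SPB_le 570 13 hb (by norm_num)
        refine (add_le_add i2 i1).trans ?_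
        norm_num
      have h9 := hD.trans h8
      norm_num at h9
    rw [if_neg hz, hg]
    refine SPB_alg ‖p - p'‖ ‖toC 640 a - toC 640 b‖ (1 / 2 ^ 570) (1 / 2 ^ 558) (1 / 2 ^ 500)
      (norm_nonneg _) ?_ (by positivity) ?_ ?_ hd1 h4
    · have e1 : (2 : ℝ) * (1 / 2 ^ 570) = 1 / 2 ^ 11 * (1 / 2 ^ 558) := by
        rw [mul_one_div, one_div_mul_one_div, ← pow_add,
          div_eq_div_iff (pow_ne_zero _ two_ne_zero) (pow_ne_zero _ two_ne_zero), one_mul,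
          ← pow_succ']
      rw [e1]
      exact mul_le_mul_of_nonneg_right hD (by positivity)
    · rw [div_le_one (by positivity)]
      exact one_le_pow₀ one_le_two
    · rw [mul_one_div, div_le_div_iff₀ (by positivity) (by positivity), one_mul]
      calc (3 : ℝ) * 2 ^ 500 ≤ 2 ^ 2 * 2 ^ 500 :=
            mul_le_mul_of_nonneg_right (by norm_num) (by positivity)
        _ = 2 ^ 502 := by rw [← pow_add]
        _ ≤ 2 ^ 558 := pow_le_pow_right₀ one_le_two (by norm_num)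

/-! ## SPC: the product -/

/-- Module SPC. Induction on `Forall₂ Z P`: for every `a, p` with `‖toC 640 a - p‖ ≤ 1 / 2 ^ 570` and separation of `p`
from the members of `P`:
`(pdist a Z) / 2 ^ (1282 Z.length) * (1 - 1 / 2 ^ 500) ^ Z.length ≤ (P.map fun p' => if p' = p then 1 else …).prod`
by `factor_le` (all factors nonnegative). -/
theorem pdist_le (Z : List GI) (P : List ℂ) (h : Apx Z P) (a : GI) (p : ℂ) (ha : ‖toC 640 a - p‖ ≤ 1 / 2 ^ 570)
    (hne : ∀ p' ∈ P, p ≠ p' → 1 / 2 ^ 11 ≤ ‖p - p'‖) :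
    (pdist a Z : ℝ) / 2 ^ (1282 * Z.length) * (1 - 1 / 2 ^ 500) ^ Z.length ≤
      (P.map fun p' => if p' = p then (1 : ℝ) else (‖p - p'‖ / 2) ^ 2).prod := by
  unfold Apx at h
  have hd1 : (1 / 2 ^ 500 : ℝ) ≤ 1 := by
    rw [div_le_one (by positivity)]
    exact one_le_pow₀ one_le_two
  have hd2 : (0 : ℝ) ≤ 1 - 1 / 2 ^ 500 := sub_nonneg.2 hd1
  induction h with
  | nil =>
    rw [pdist, List.length_nil, List.map_nil, List.prod_nil, mul_zero, pow_zero, pow_zero,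
      Nat.cast_one, div_one, one_mul]
  | @cons b q l P h1 h2 ih =>
    have e1 : ∀ x y u v c : ℝ, x * y / (u * v) * (c * c ^ l.length) =
        x / v * c * (y / u * c ^ l.length) := fun x y u v c => by
      rw [mul_comm u v, mul_div_mul_comm]
      ring
    rw [pdist, List.length_cons, List.map_cons, List.prod_cons, Nat.cast_mul, Nat.mul_add,
      Nat.mul_one, pow_add, pow_succ' (1 - 1 / 2 ^ 500 : ℝ), e1]
    refine mul_le_mul (factor_le a b p q ha h1.2 (hne q List.mem_cons_self))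
      (ih fun p' hp' => hne p' (List.mem_cons_of_mem _ hp')) ?_ ?_
    · exact mul_nonneg (div_nonneg (Nat.cast_nonneg _) (by positivity)) (pow_nonneg hd2 _)
    · split_ifs
      · exact zero_le_one
      · exact sq_nonneg _

/-- `∏ p' ∈ P.toFinset.erase p, f p' = (P.map fun p' => if p' = p then 1 else f p').prod` for a list without duplicates
containing `p` (`List.prod_toFinset`, `Finset.prod_erase` / `Finset.mul_prod_erase`), and `pdist_le` with the partner `a` of `p`;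
`pdist a Z ≥ 2 ^ (1282 n - 170)` from `prodOK`, `(1 - 1 / 2 ^ 500) ^ n ≥ 1 - n / 2 ^ 500 ≥ 1 / 2`
(`one_add_mul_le_pow`), `n = Z.length ≤ 64`, `n ≥ 1`. -/
theorem prod_ge (Z : List GI) (P : List ℂ) (h : Apx Z P) (hZ : Z.length ≤ 64) (hs : sepOK Z = true)
    (hp : prodOK Z = true) (p : ℂ) (hpP : p ∈ P.toFinset) :
    1 / 2 ^ 180 ≤ ∏ p' ∈ P.toFinset.erase p, (‖p - p'‖ / 2) ^ 2 := by
  have hpl : p ∈ P := List.mem_toFinset.1 hpP
  obtain ⟨a, haZ, ha⟩ := SPA_mem h p hpl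
  have hn : 1 ≤ Z.length := List.length_pos_of_mem haZ
  have h1 : ∏ p' ∈ P.toFinset.erase p, (‖p - p'‖ / 2) ^ 2 =
      (P.map fun p' => if p' = p then (1 : ℝ) else (‖p - p'‖ / 2) ^ 2).prod := by
    rw [← List.prod_toFinset _ (sep_nodup Z P h hs), ← Finset.mul_prod_erase _ _ hpP, if_pos rfl,
      one_mul]
    exact Finset.prod_congr rfl fun x hx => by rw [if_neg (Finset.ne_of_mem_erase hx)]
  rw [h1]
  refine le_trans ?_ (pdist_le Z P h a p ha.2 fun p' hp' hne => sep_ne Z P h hs p hpl p' hp' hne)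
  rw [prodOK, List.all_eq_true] at hp
  have h2 : 2 ^ (1282 * Z.length - 170) ≤ pdist a Z := Nat.le_of_ble_eq_true (hp a haZ)
  have h3 : (2 : ℝ) ^ (1282 * Z.length - 170) ≤ (pdist a Z : ℝ) := by
    have h4 : ((2 ^ (1282 * Z.length - 170) : ℕ) : ℝ) ≤ (pdist a Z : ℝ) := Nat.cast_le.2 h2
    rwa [Nat.cast_pow, Nat.cast_ofNat] at h4
  have h5 : (1 / 2 ^ 170 : ℝ) ≤ (pdist a Z : ℝ) / 2 ^ (1282 * Z.length) := by
    rw [div_le_div_iff₀ (by positivity) (by positivity), one_mul]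
    refine le_trans (le_of_eq ?_) (mul_le_mul_of_nonneg_right h3 (by positivity))
    rw [← pow_add]
    congr 1
    omega
  have h6 : (1 / 2 : ℝ) ≤ (1 - 1 / 2 ^ 500) ^ Z.length := by
    have h7 : (1 / 2 ^ 500 : ℝ) ≤ 1 / 2 ^ 7 :=
      one_div_le_one_div_of_le (by positivity) (pow_le_pow_right₀ one_le_two (by norm_num))
    have h8 : (1 - 1 / 2 ^ 7 : ℝ) ≤ 1 - 1 / 2 ^ 500 := sub_le_sub_left h7 1
    refine le_trans ?_ (pow_le_pow_left₀ (by norm_num) h8 _)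
    have h9 := one_add_mul_le_pow (a := (-(1 / 2 ^ 7) : ℝ)) (by norm_num) Z.length
    rw [← sub_eq_add_neg] at h9
    refine le_trans ?_ h9
    have h10 : (Z.length : ℝ) ≤ 64 := by exact_mod_cast hZ
    linarith
  have h7 : (1 / 2 ^ 180 : ℝ) ≤ 1 / 2 ^ 170 * (1 / 2) := by norm_num
  exact h7.trans (mul_le_mul h5 h6 (by norm_num) (by positivity))

end Pool.Agent.Hex.Cr
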