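import Pool.Agent.Hex.Chk
import Pool.Agent.Hex.Cyc
import Pool.Agent.Hex.Prd
import Pool.Agent.Hex.Sep

/-!
# The certificate from the checks
-/

open Complex ComplexConjugate Polynomial

namespace Pool.Agent.Hex.Cr

/-! ## ASM -/

/-- Module ASM. Take `q, G₂, G₃, F, e := pol 640 q, pol 640 G, pol 640 K, pol 640 F, pol 1920 (eL …)` and
`t, s` the numbers of `pol_line`. `P = its (rt n₁) L₁ ++ its (rt n₂) L₂`, `Apx (Z₁ ++ Z₂) P` (`List.rel_append` or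
`List.Forall₂` append), `P.toFinset = orb n₁ L₁ ∪ orb n₂ L₂` (`List.toFinset_append`, `its_toFinset`), lengths by
`List.Forall₂.length_eq`, `its_length`; `chkF_le`, `van_le` (with `sep_nodup`), `line_t`, `line_s` with `its_sum`
(unfold `tE`, `sE`), `chkA_id`, `chkA_bd`, `chkQ_pos`, `sep_ne` (`1 / 2 ^ 12 ≤ 1 / 2 ^ 11`), `prod_ge`. -/
theorem cert_of (n₁ L₁ n₂ L₂ : ℕ) (Z₁ Z₂ F q G K R : List GI) (h₁ : Apx Z₁ (its (rt n₁) L₁))
    (h₂ : Apx Z₂ (its (rt n₂) L₂)) (hl : L₁ + L₂ ≤ 54) (hF : chkF (Z₁ ++ Z₂) F = true)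
    (hS : sepOK (Z₁ ++ Z₂) = true) (hP : prodOK (Z₁ ++ Z₂) = true) (hA : chkA Z₁ Z₂ F q G K = true)
    (hQ : chkQ q R = true) : Cert n₁ L₁ n₂ L₂ := by
  have len₁ : Z₁.length = L₁ := by rw [h₁.length_eq, its_length]
  have len₂ : Z₂.length = L₂ := by rw [h₂.length_eq, its_length]
  have hZ : Apx (Z₁ ++ Z₂) (its (rt n₁) L₁ ++ its (rt n₂) L₂) := List.rel_append h₁ h₂
  have hlen : (Z₁ ++ Z₂).length ≤ 54 := by rw [List.length_append, len₁, len₂]; exact hl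
  have hset : (its (rt n₁) L₁ ++ its (rt n₂) L₂).toFinset = orb n₁ L₁ ∪ orb n₂ L₂ := by
    rw [List.toFinset_append, its_toFinset, its_toFinset]
  obtain ⟨b1, b2, b3, b4⟩ := chkA_bd Z₁ Z₂ F q G K hA
  refine ⟨pol 640 q, pol 640 G, pol 640 K, pol 640 F, pol 1920 (eL Z₁ Z₂ F q G K),
    -(conj (toC 640 (gsum Z₂)) * toC 640 (gsum Z₁)).im,
    -Complex.I * conj ((Z₁.length : ℂ) * toC 640 (gsum Z₂) - (Z₂.length : ℂ) * toC 640 (gsum Z₁)),
    (chkF_le _ _ hF).2, ?_, ?_, ?_, b3, b4, fun z hz => chkA_id Z₁ Z₂ F q G K hA z hz, b1, b2,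
    fun z hz => chkQ_pos q R hQ z hz, ?_, ?_⟩
  · rw [← hset]
    exact van_le _ F _ (sep_nodup _ _ hZ hS) hZ hlen hF
  · have := line_t Z₁ Z₂ _ _ h₁ h₂ (by omega) (by omega)
    rw [its_sum, its_sum] at this
    exact this
  · have := line_s Z₁ Z₂ _ _ h₁ h₂ (by omega) (by omega)
    rw [its_sum, its_sum, len₁, len₂] at this
    rw [len₁, len₂]
    exact this
  · intro p hp p' hp' hne
    rw [← hset, List.mem_toFinset] at hp hp'
    have := sep_ne _ _ hZ hS p hp p' hp' hne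
    refine le_trans ?_ this
    norm_num
  · intro p hp
    rw [← hset] at hp ⊢
    exact prod_ge _ _ hZ (by omega) hS hP p hp

/-! ## VTX: rough values of the means -/

/-- Module VTX. `vtx n L = sm n L / L`, `sm n L = (its (rt n) L).sum` (`its_sum`), `sum_sub` and the check
(`roughOK a n u v w` says `gnrm (10 ^ 6 a - n (u + v i) 2 ^ 640) ≤ w 2 ^ 640`, so
`‖toC 640 a - n (u + v i) / 10 ^ 6‖ ≤ w / 10 ^ 6`). -/
theorem vtx_rough (n L : ℕ) (Z : List GI) (u v : ℤ) (w : ℕ) (hL : 0 < L) (h : Apx Z (its (rt n) L))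
    (hr : roughOK (gsum Z) L u v w = true) (hw : w ≤ 9 * L) :
    ‖vtx n L - ((u : ℂ) + v * Complex.I) / 10 ^ 6‖ ≤ 1 / 10 ^ 5 := by
  have hlen : Z.length = L := by rw [h.length_eq, its_length]
  have h1 := sum_sub Z (its (rt n) L) h
  rw [its_sum, hlen] at h1
  have h2 := rough_le (gsum Z) (L * u) (L * v) w (Nat.le_of_ble_eq_true hr)
  have hL' : (0 : ℝ) < L := by exact_mod_cast hL
  have hL0 : (L : ℂ) ≠ 0 := by exact_mod_cast hL.ne'
  have e : vtx n L - ((u : ℂ) + v * Complex.I) / 10 ^ 6 =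
      ((toC 640 (gsum Z) - (((L * u : ℤ) : ℂ) + ((L * v : ℤ) : ℂ) * Complex.I) / 10 ^ 6) -
        (toC 640 (gsum Z) - sm n L)) / L := by
    rw [vtx, eq_div_iff hL0, sub_mul, div_mul_cancel₀ _ hL0]
    push_cast
    ring
  have hw' : (w : ℝ) ≤ 9 * L := by exact_mod_cast hw
  rw [e, norm_div, Complex.norm_natCast, div_le_iff₀ hL']
  refine (norm_sub_le _ _).trans ((add_le_add h2 h1).trans ?_)
  have h3 : (1 : ℝ) / 2 ^ 570 ≤ 1 / 2 ^ 20 :=
    one_div_le_one_div_of_le (by norm_num) (pow_le_pow_right₀ (by norm_num) (by norm_num))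
  have h4 : (L : ℝ) * (1 / 2 ^ 570) ≤ L * (1 / 2 ^ 20) := mul_le_mul_of_nonneg_left h3 hL'.le
  have h5 : (w : ℝ) / 10 ^ 6 ≤ 9 * L / 10 ^ 6 := div_le_div_of_nonneg_right hw' (by norm_num)
  refine (add_le_add h5 h4).trans ?_
  have h6 : (1 : ℝ) / 2 ^ 20 ≤ 1 / 10 ^ 6 := by norm_num
  have h7 : (L : ℝ) * (1 / 2 ^ 20) ≤ L * (1 / 10 ^ 6) := mul_le_mul_of_nonneg_left h6 hL'.le
  linarith

end Pool.Agent.Hex.Cr
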