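import Pool.Agent.Hex.DatZ
import Pool.Agent.Hex.Dat1

/-!
# Kernel checks of the side 1 - 431
-/

namespace Pool.Agent.Hex.Cr

theorem kF1 : chkF (Z1 ++ Z431) F1 = true := by decide +kernel

theorem kS1 : sepOK (Z1 ++ Z431) = true := by decide +kernel

theorem kP1 : prodOK (Z1 ++ Z431) = true := by decide +kernel

theorem kA1 : chkA Z1 Z431 F1 q1 g1 k1 = true := by decide +kernel

theorem kQ1 : chkQ q1 R1 = true := by decide +kernel

end Pool.Agent.Hex.Cr
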