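import Pool.Agent.Hex.DatZ
import Pool.Agent.Hex.Dat2

/-!
# Kernel checks of the side 431 - 23
-/

namespace Pool.Agent.Hex.Cr

theorem kF2 : chkF (Z431 ++ Z23) F2 = true := by decide +kernel

theorem kS2 : sepOK (Z431 ++ Z23) = true := by decide +kernel

theorem kP2 : prodOK (Z431 ++ Z23) = true := by decide +kernel

theorem kA2 : chkA Z431 Z23 F2 q2 g2 k2 = true := by decide +kernel

theorem kQ2 : chkQ q2 R2 = true := by decide +kernel

end Pool.Agent.Hex.Cr
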