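import Pool.Agent.Hex.DatZ
import Pool.Agent.Hex.Dat3

/-!
# Kernel checks of the side 23 - 5
-/

namespace Pool.Agent.Hex.Cr

theorem kF3 : chkF (Z23 ++ Z5) F3 = true := by decide +kernel

theorem kS3 : sepOK (Z23 ++ Z5) = true := by decide +kernel

theorem kP3 : prodOK (Z23 ++ Z5) = true := by decide +kernel

theorem kA3 : chkA Z23 Z5 F3 q3 g3 k3 = true := by decide +kernel

theorem kQ3 : chkQ q3 R3 = true := by decide +kernel

end Pool.Agent.Hex.Cr
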