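import Pool.Agent.Hex.AnH
import Pool.Agent.Hex.Asm
import Pool.Agent.Hex.Appr
import Pool.Agent.Hex.K1
import Pool.Agent.Hex.K2
import Pool.Agent.Hex.K3

/-!
# The three certificates and the rough values of the vertices
-/

open Complex ComplexConjugate

namespace Pool.Agent.Hex

open Cr

theorem cert_1 : Cert 1 1 431 43 :=
  cert_of 1 1 431 43 Z1 Z431 F1 q1 g1 k1 R1 apx_1 apx_431 (by norm_num) kF1 kS1 kP1 kA1 kQ1

theorem cert_2 : Cert 431 43 23 11 :=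
  cert_of 431 43 23 11 Z431 Z23 F2 q2 g2 k2 R2 apx_431 apx_23 (by norm_num) kF2 kS2 kP2 kA2 kQ2

theorem cert_3 : Cert 23 11 5 4 :=
  cert_of 23 11 5 4 Z23 Z5 F3 q3 g3 k3 R3 apx_23 apx_5 (by norm_num) kF3 kS3 kP3 kA3 kQ3

theorem vtx_431 : ‖vtx 431 43 - (⟨0.164193, 0.189566⟩ : ℂ)‖ ≤ 1 / 10 ^ 5 := by
  have h := vtx_rough 431 43 Z431 164193 189566 20 (by norm_num) apx_431 kV431 (by norm_num)
  have e : ((164193 : ℤ) + (189566 : ℤ) * Complex.I : ℂ) / 10 ^ 6 = ⟨0.164193, 0.189566⟩ := by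
    apply Complex.ext <;> simp <;> norm_num
  rwa [e] at h

theorem vtx_23 : ‖vtx 23 11 - (⟨-0.045455, 0.217992⟩ : ℂ)‖ ≤ 1 / 10 ^ 5 := by
  have h := vtx_rough 23 11 Z23 (-45455) 217992 10 (by norm_num) apx_23 kV23 (by norm_num)
  have e : ((-45455 : ℤ) + (217992 : ℤ) * Complex.I : ℂ) / 10 ^ 6 = ⟨-0.045455, 0.217992⟩ := by
    apply Complex.ext <;> simp <;> norm_num
  rwa [e] at h

end Pool.Agent.Hex
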