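import Pool.Agent.Hex.Pack
import Pool.Agent.Hex.Root

/-!
# The checks of the certificate
-/

open Complex ComplexConjugate Polynomial

namespace Pool.Agent.Hex.Cr

/-! ## CKL: the line -/

/-- Module CKL. `toC 640 (gadd a x) = toC 640 a + toC 640 x`, induction on `Forall₂`. -/
theorem sum_sub (Z : List GI) (P : List ℂ) (h : Apx Z P) :
    ‖toC 640 (gsum Z) - P.sum‖ ≤ Z.length * (1 / 2 ^ 570) := by
  unfold Apx at h
  induction h with
  | nil =>
    rw [gsum, List.sum_nil, List.length_nil, Nat.cast_zero, zero_mul, sub_zero]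
    unfold toC
    simp
  | @cons a p l P h1 h2 ih =>
    rw [gsum, toC_add, List.sum_cons, List.length_cons, Nat.cast_add, Nat.cast_one, add_mul,
      one_mul, add_sub_add_comm]
    refine (norm_add_le _ _).trans ?_
    rw [add_comm ‖toC 640 a - p‖]
    exact add_le_add ih h1.2

theorem sum_le (Z : List GI) (P : List ℂ) (h : Apx Z P) : ‖P.sum‖ ≤ Z.length := by
  unfold Apx at h
  induction h with
  | nil => rw [List.sum_nil, norm_zero]; exact Nat.cast_nonneg _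
  | @cons a p l P h1 h2 ih =>
    rw [List.sum_cons, List.length_cons, Nat.cast_add, Nat.cast_one, add_comm (l.length : ℝ)]
    exact (norm_add_le _ _).trans (add_le_add h1.1.le ih)

private theorem CKL_nat (n : ℕ) : toC 0 ((n : ℤ), 0) = n := by
  unfold toC
  simp

private theorem CKL_I : toC 0 (0, -1) = -Complex.I := by
  unfold toC
  simp

/-- `pol 1920 [a, b] = C (toC 1920 a) + X * (C (toC 1920 b) + X * 0)`; the first entry: `toC_shl 1280 640` and
`toC 1280 (x, 0)` is the real number `x / 2 ^ 1280`, `(gmul (gconj b) a).2 / 2 ^ 1280 = (toC 1280 (gmul (gconj b) a)).im`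
(`toC_im`, `toC_mul 640 640`, `toC_conj`); the second: `toC_shl 640 1280`, `toC_mul 0 640` with
`toC 0 (0, -1) = -I`, `toC 0 (n, 0) = n`. -/
theorem pol_line (Z₁ Z₂ : List GI) :
    pol 1920 (lineL Z₁ Z₂) =
      C (((-(conj (toC 640 (gsum Z₂)) * toC 640 (gsum Z₁)).im : ℝ)) : ℂ) +
        X * C (-Complex.I * conj ((Z₁.length : ℂ) * toC 640 (gsum Z₂) - (Z₂.length : ℂ) * toC 640 (gsum Z₁))) := by
  have e1 : ∀ a : GI, toC 1920 (gshl 640 a) = toC 1280 a := fun a => toC_shl 1280 640 a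
  have e2 : ∀ a : GI, toC 1920 (gshl 1280 a) = toC 640 a := fun a => toC_shl 640 1280 a
  have e3 : ∀ a b : GI, toC 1280 (gmul a b) = toC 640 a * toC 640 b := fun a b => toC_mul 640 640 a b
  have e4 : ∀ a b : GI, toC 640 (gmul a b) = toC 0 a * toC 640 b := fun a b => by
    have := toC_mul 0 640 a b
    rwa [Nat.zero_add] at this
  have e5 : toC 1280 (-(gmul (gconj (gsum Z₂)) (gsum Z₁)).2, 0) =
      ((-(conj (toC 640 (gsum Z₂)) * toC 640 (gsum Z₁)).im : ℝ) : ℂ) := by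
    rw [← toC_conj, ← e3, toC_im]
    apply Complex.ext
    · rw [toC_re, Complex.ofReal_re, Int.cast_neg, neg_div]
    · rw [toC_im, Complex.ofReal_im, Int.cast_zero, zero_div]
  unfold lineL
  rw [pol, pol, pol, e1, e2, e5, e4, CKL_I, toC_conj, toC_add, toC_neg, e4, e4, CKL_nat, CKL_nat,
    mul_zero, add_zero, ← sub_eq_add_neg]

private theorem CKL_small (x : ℝ) (hx : x ≤ 2 ^ 14) : x * (1 / 2 ^ 570) ≤ 1 / 2 ^ 470 := by
  have h1 : x * (1 / 2 ^ 570) ≤ 2 ^ 14 * (1 / 2 ^ 570) :=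
    mul_le_mul_of_nonneg_right hx (by positivity)
  refine h1.trans ?_
  rw [mul_one_div, div_le_div_iff₀ (by positivity) (by positivity), one_mul, ← pow_add]
  exact pow_le_pow_right₀ one_le_two (by norm_num)

private theorem CKL_d (Z : List GI) (P : List ℂ) (h : Apx Z P) (l : Z.length ≤ 64) :
    ‖toC 640 (gsum Z) - P.sum‖ ≤ 64 * (1 / 2 ^ 570) ∧ ‖P.sum‖ ≤ 64 ∧
      ‖toC 640 (gsum Z)‖ ≤ 65 := by
  have hl : (Z.length : ℝ) ≤ 64 := by exact_mod_cast l
  have h1 : ‖toC 640 (gsum Z) - P.sum‖ ≤ 64 * (1 / 2 ^ 570) :=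
    (sum_sub Z P h).trans (mul_le_mul_of_nonneg_right hl (by positivity))
  have h2 : ‖P.sum‖ ≤ 64 := (sum_le Z P h).trans hl
  have h3 : (64 : ℝ) * (1 / 2 ^ 570) ≤ 1 :=
    (CKL_small 64 (by norm_num)).trans (by
      rw [div_le_one (by positivity)]
      exact one_le_pow₀ one_le_two)
  refine ⟨h1, h2, ?_⟩
  have h4 : toC 640 (gsum Z) = (toC 640 (gsum Z) - P.sum) + P.sum := by ring
  rw [h4]
  exact (norm_add_le _ _).trans ((add_le_add (h1.trans h3) h2).trans (by norm_num))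

/-- `|Im (conj B' A' - conj B A)| ≤ ‖B' - B‖ ‖A'‖ + ‖B‖ ‖A' - A‖` with `‖A‖, ‖B‖ ≤ 64`, differences at most
`64 / 2 ^ 570` (`sum_sub`, `sum_le`). -/
theorem line_t (Z₁ Z₂ : List GI) (P₁ P₂ : List ℂ) (h₁ : Apx Z₁ P₁) (h₂ : Apx Z₂ P₂) (l₁ : Z₁.length ≤ 64)
    (l₂ : Z₂.length ≤ 64) :
    |(-(conj (toC 640 (gsum Z₂)) * toC 640 (gsum Z₁)).im) - (-(conj P₂.sum * P₁.sum).im)| ≤ 1 / 2 ^ 470 := by
  obtain ⟨d1, b1, c1⟩ := CKL_d Z₁ P₁ h₁ l₁
  obtain ⟨d2, b2, c2⟩ := CKL_d Z₂ P₂ h₂ l₂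
  set A' := toC 640 (gsum Z₁)
  set B' := toC 640 (gsum Z₂)
  have e1 : -(conj B' * A').im - -(conj P₂.sum * P₁.sum).im =
      -(conj (B' - P₂.sum) * A' + conj P₂.sum * (A' - P₁.sum)).im := by
    have e2 : conj (B' - P₂.sum) * A' + conj P₂.sum * (A' - P₁.sum) =
        conj B' * A' - conj P₂.sum * P₁.sum := by
      rw [map_sub]
      ring
    rw [e2, Complex.sub_im]
    ring
  rw [e1, abs_neg]
  refine (Complex.abs_im_le_norm _).trans ((norm_add_le _ _).trans ?_)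
  rw [norm_mul, norm_mul, Complex.norm_conj, Complex.norm_conj]
  have f1 : ‖B' - P₂.sum‖ * ‖A'‖ ≤ 64 * (1 / 2 ^ 570) * 65 :=
    mul_le_mul d2 c1 (norm_nonneg _) (by positivity)
  have f2 : ‖P₂.sum‖ * ‖A' - P₁.sum‖ ≤ 64 * (64 * (1 / 2 ^ 570)) :=
    mul_le_mul b2 d1 (norm_nonneg _) (by norm_num)
  refine (add_le_add f1 f2).trans ?_
  have f3 : ∀ x : ℝ, 64 * x * 65 + 64 * (64 * x) = 8256 * x := fun x => by ring
  rw [f3]
  exact CKL_small 8256 (by norm_num)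

theorem line_s (Z₁ Z₂ : List GI) (P₁ P₂ : List ℂ) (h₁ : Apx Z₁ P₁) (h₂ : Apx Z₂ P₂) (l₁ : Z₁.length ≤ 64)
    (l₂ : Z₂.length ≤ 64) :
    ‖(-Complex.I * conj ((Z₁.length : ℂ) * toC 640 (gsum Z₂) - (Z₂.length : ℂ) * toC 640 (gsum Z₁))) -
      (-Complex.I * conj ((Z₁.length : ℂ) * P₂.sum - (Z₂.length : ℂ) * P₁.sum))‖ ≤ 1 / 2 ^ 470 := by
  obtain ⟨d1, b1, c1⟩ := CKL_d Z₁ P₁ h₁ l₁
  obtain ⟨d2, b2, c2⟩ := CKL_d Z₂ P₂ h₂ l₂
  have hl1 : (Z₁.length : ℝ) ≤ 64 := by exact_mod_cast l₁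
  have hl2 : (Z₂.length : ℝ) ≤ 64 := by exact_mod_cast l₂
  set A' := toC 640 (gsum Z₁)
  set B' := toC 640 (gsum Z₂)
  rw [← mul_sub, ← map_sub, norm_mul, norm_neg, Complex.norm_I, one_mul, Complex.norm_conj]
  have e1 : (Z₁.length : ℂ) * B' - (Z₂.length : ℂ) * A' -
      ((Z₁.length : ℂ) * P₂.sum - (Z₂.length : ℂ) * P₁.sum) =
      (Z₁.length : ℂ) * (B' - P₂.sum) - (Z₂.length : ℂ) * (A' - P₁.sum) := by ring
  rw [e1]
  refine (norm_sub_le _ _).trans ?_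
  rw [norm_mul, norm_mul, Complex.norm_natCast, Complex.norm_natCast]
  have f1 : (Z₁.length : ℝ) * ‖B' - P₂.sum‖ ≤ 64 * (64 * (1 / 2 ^ 570)) :=
    mul_le_mul hl1 d2 (norm_nonneg _) (by norm_num)
  have f2 : (Z₂.length : ℝ) * ‖A' - P₁.sum‖ ≤ 64 * (64 * (1 / 2 ^ 570)) :=
    mul_le_mul hl2 d1 (norm_nonneg _) (by norm_num)
  refine (add_le_add f1 f2).trans ?_
  have f3 : ∀ x : ℝ, 64 * (64 * x) + 64 * (64 * x) = 8192 * x := fun x => by ring
  rw [f3]
  exact CKL_small 8192 (by norm_num)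

/-! ## CKM: squares of absolute values -/

private theorem CKM_norm (z : ℂ) (hz : ‖z‖ = 1) : z * conj z = 1 := by
  rw [Complex.mul_conj, Complex.normSq_eq_norm_sq, hz]
  simp

private theorem CKM_len (l : List GI) : (lstar l).length = l.length := by
  rw [lstar, List.length_reverse, List.length_map]

/-- Module CKM. For `‖z‖ = 1`: `z * (pol s (lstar F)).eval z = z ^ F.length * conj (F(z))` (`eval_star`), hence
`conj z ^ (F.length - 1) * (pol s F).eval z * (pol s (lstar F)).eval z = ‖F(z)‖ ^ 2` (multiply by `z * conj z = 1`;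
`F.length - 1 + 1 = F.length`). -/
theorem star_norm (s : ℕ) (F : List GI) (hF : 0 < F.length) (z : ℂ) (hz : ‖z‖ = 1) :
    conj z ^ (F.length - 1) * ((pol s F).eval z * (pol s (lstar F)).eval z) = ((‖(pol s F).eval z‖ ^ 2 : ℝ) : ℂ) := by
  have h1 := CKM_norm z hz
  have h2 := eval_star s F z hz
  obtain ⟨n, hn⟩ : ∃ n, F.length = n + 1 := ⟨F.length - 1, by omega⟩
  rw [hn] at h2 ⊢
  rw [Nat.add_sub_cancel, ← Complex.normSq_eq_norm_sq, ← Complex.mul_conj]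
  set f := (pol s F).eval z
  set g := (pol s (lstar F)).eval z
  have h3 : conj z ^ n * (f * g) = (z * conj z) * (conj z ^ n * (f * g)) := by rw [h1, one_mul]
  rw [h3]
  have h4 : z * conj z * (conj z ^ n * (f * g)) = conj z ^ (n + 1) * f * (z * g) := by ring
  rw [h4, h2]
  have h5 : conj z ^ (n + 1) * f * (z ^ (n + 1) * conj f) = (z * conj z) ^ (n + 1) * (f * conj f) := by
    rw [mul_pow]
    ring
  rw [h5, h1, one_pow, one_mul]

/-- `pol_mul`, `re_fold` (the product list has length `F.length + (lstar F).length - 1 ≥ F.length - 1`: `length_mul`,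
`lstar` has the length of `F`), `star_norm`. -/
theorem re_fold_norm (s : ℕ) (F : List GI) (hF : 0 < F.length) (z : ℂ) (hz : ‖z‖ = 1) :
    ((pol (s + s) (lfold (F.length - 1) (lmul F (lstar F)))).eval z).re = ‖(pol s F).eval z‖ ^ 2 := by
  have hl : F.length - 1 ≤ (lmul F (lstar F)).length := by
    rw [length_mul F (lstar F) hF (by rwa [CKM_len]), CKM_len]
    omega
  rw [re_fold _ _ _ z hz hl, pol_mul, eval_mul, star_norm s F hF z hz, Complex.ofReal_re]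

/-- The same with a further factor `q`: `Re (‖F(z)‖ ^ 2 q(z)) = ‖F(z)‖ ^ 2 Re q(z)`. -/
theorem re_fold_mul (s t : ℕ) (F q : List GI) (hF : 0 < F.length) (hq : 0 < q.length) (z : ℂ) (hz : ‖z‖ = 1) :
    ((pol (s + s + t) (lfold (F.length - 1) (lmul (lmul F (lstar F)) q))).eval z).re =
      ‖(pol s F).eval z‖ ^ 2 * ((pol t q).eval z).re := by
  have hm : (lmul F (lstar F)).length = F.length + F.length - 1 := by
    rw [length_mul F (lstar F) hF (by rwa [CKM_len]), CKM_len]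
  have hl : F.length - 1 ≤ (lmul (lmul F (lstar F)) q).length := by
    rw [length_mul (lmul F (lstar F)) q (by omega) hq, hm]
    omega
  rw [re_fold _ _ _ z hz hl, pol_mul, pol_mul, eval_mul, eval_mul, ← mul_assoc,
    star_norm s F hF z hz, Complex.re_ofReal_mul]

/-! ## CKA: the identity -/

private theorem CKA_cond (Z₁ Z₂ F q G K : List GI) (h : chkA Z₁ Z₂ F q G K = true) :
    fOK 2304 F (lstar F) = true ∧ fOK 2304 (fmul 2304 F (lstar F)) q = true ∧ q.length ≤ 512 ∧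
      lnrm q ≤ 2 ^ 730 ∧ (eL Z₁ Z₂ F q G K).length ≤ 512 ∧ lnrm (eL Z₁ Z₂ F q G K) ≤ 2 ^ 1440 := by
  unfold chkA at h
  simp only [Bool.and_eq_true] at h
  obtain ⟨⟨⟨⟨⟨h1, h2⟩, h3⟩, h4⟩, h5⟩, h6⟩ := h
  exact ⟨h1, h2, Nat.le_of_ble_eq_true h3, Nat.le_of_ble_eq_true h4, Nat.le_of_ble_eq_true h5,
    Nat.le_of_ble_eq_true h6⟩

/-- Module CKA. By `fmul_eq` (twice; the conditions are in `chkA`) the list `eL` is
`ladd (ladd line (lshl 1280 (dL G K))) (lneg (lfold (F.length - 1) (lmul (lmul F (lstar F)) q)))`; `pol 1920` of it by `pol_add`,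
`pol_neg`, `pol_line`, `pol_shl 640 1280`, `eval_exp` with `r = 1, 2`; real parts and `re_fold_mul 640 640`. -/
theorem chkA_id (Z₁ Z₂ F q G K : List GI) (h : chkA Z₁ Z₂ F q G K = true) (z : ℂ) (hz : ‖z‖ = 1) :
    (-(conj (toC 640 (gsum Z₂)) * toC 640 (gsum Z₁)).im) +
      ((-Complex.I * conj ((Z₁.length : ℂ) * toC 640 (gsum Z₂) - (Z₂.length : ℂ) * toC 640 (gsum Z₁))) * z +
        ((pol 640 G).eval (z ^ 2) - (pol 640 G).eval z) + ((pol 640 K).eval (z ^ 3) - (pol 640 K).eval z)).re =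
      ‖(pol 640 F).eval z‖ ^ 2 * ((pol 640 q).eval z).re + ((pol 1920 (eL Z₁ Z₂ F q G K)).eval z).re := by
  obtain ⟨h1, h2, -⟩ := CKA_cond Z₁ Z₂ F q G K h
  have hF := (fOK_length _ _ _ h1).1
  have hq := (fOK_length _ _ _ h2).2
  have e1 : pol 1920 (lshl 1280 (dL G K)) = pol 640 (dL G K) := pol_shl 640 1280 _
  have e2 : ((pol 1920 (lfold (F.length - 1) (fmul 2304 (fmul 2304 F (lstar F)) q))).eval z).re =
      ‖(pol 640 F).eval z‖ ^ 2 * ((pol 640 q).eval z).re := by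
    rw [fmul_eq _ _ _ h2, fmul_eq _ _ _ h1]
    exact re_fold_mul 640 640 F q hF hq z hz
  have e3 : (pol 640 (dL G K)).eval z = ((pol 640 G).eval (z ^ 2) - (pol 640 G).eval z) +
      ((pol 640 K).eval (z ^ 3) - (pol 640 K).eval z) := by
    unfold dL
    rw [pol_add, pol_add, pol_add, pol_neg, pol_neg, eval_add, eval_add, eval_add, eval_neg, eval_neg,
      eval_exp, eval_exp, ← sub_eq_add_neg, ← sub_eq_add_neg]
  set T : ℝ := -(conj (toC 640 (gsum Z₂)) * toC 640 (gsum Z₁)).im with hT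
  set S : ℂ := -Complex.I * conj ((Z₁.length : ℂ) * toC 640 (gsum Z₂) - (Z₂.length : ℂ) * toC 640 (gsum Z₁)) with hS
  have e4 : pol 1920 (eL Z₁ Z₂ F q G K) = C (T : ℂ) + X * C S + pol 640 (dL G K) +
      -pol 1920 (lfold (F.length - 1) (fmul 2304 (fmul 2304 F (lstar F)) q)) := by
    unfold eL
    rw [pol_add, pol_add, pol_neg, e1, pol_line]
  rw [e4, eval_add, eval_add, eval_neg, e3, eval_add, eval_C, eval_mul, eval_X, eval_C]
  simp only [Complex.add_re, Complex.neg_re, Complex.ofReal_re, e2]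
  rw [mul_comm z S]
  ring

/-- `natDegree_pol`, `l1_pol`, and the conditions in `chkA`. -/
theorem chkA_bd (Z₁ Z₂ F q G K : List GI) (h : chkA Z₁ Z₂ F q G K = true) :
    (pol 640 q).natDegree ≤ 511 ∧ l1 (pol 640 q) ≤ 2 ^ 90 ∧ (pol 1920 (eL Z₁ Z₂ F q G K)).natDegree ≤ 511 ∧
      l1 (pol 1920 (eL Z₁ Z₂ F q G K)) ≤ 1 / 2 ^ 470 := by
  obtain ⟨-, -, h3, h4, h5, h6⟩ := CKA_cond Z₁ Z₂ F q G K h
  refine ⟨(natDegree_pol _ _).trans (by omega), (l1_pol _ _).trans ?_,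
    (natDegree_pol _ _).trans (by omega), (l1_pol _ _).trans ?_⟩
  · have h7 : (lnrm q : ℝ) ≤ 2 ^ 730 := by exact_mod_cast h4
    rw [div_le_iff₀ (by positivity), ← pow_add]
    exact h7
  · have h7 : (lnrm (eL Z₁ Z₂ F q G K) : ℝ) ≤ 2 ^ 1440 := by exact_mod_cast h6
    rw [div_le_div_iff₀ (by positivity) (by positivity), one_mul]
    refine (mul_le_mul_of_nonneg_right h7 (by positivity)).trans ?_
    rw [← pow_add]
    exact pow_le_pow_right₀ one_le_two (by norm_num)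

/-! ## CKQ: positivity -/

/-- Module CKQ. For `l = a :: k` with `2 ^ 836 + lnrm k ≤ a.1`: `Re l(z) ≥ Re (toC 896 a) - ‖k(z)‖`, `‖k(z)‖ ≤ lnrm k / 2 ^ 896`
(`norm_eval_le`, `l1_pol`). -/
theorem headOK_pos (l : List GI) (h : headOK l = true) (z : ℂ) (hz : ‖z‖ = 1) :
    1 / 2 ^ 60 ≤ ((pol 896 l).eval z).re := by
  cases l with
  | nil => exact absurd h Bool.false_ne_true
  | cons a k =>
    have h1 : (2 ^ 836 + lnrm k : ℤ) ≤ a.1 := of_decide_eq_true h
    have h2 : (2 : ℝ) ^ 836 + (lnrm k : ℝ) ≤ (a.1 : ℝ) := by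
      have h3 : (((2 : ℤ) ^ 836 + (lnrm k : ℤ) : ℤ) : ℝ) ≤ (a.1 : ℝ) := Int.cast_le.2 h1
      rwa [Int.cast_add, Int.cast_pow, Int.cast_ofNat, Int.cast_natCast] at h3
    have h3 : ‖(pol 896 k).eval z‖ ≤ (lnrm k : ℝ) / 2 ^ 896 :=
      (norm_eval_le _ z hz.le).trans (l1_pol 896 k)
    have h4 : -‖(pol 896 k).eval z‖ ≤ (z * (pol 896 k).eval z).re := by
      have h5 := Complex.abs_re_le_norm (z * (pol 896 k).eval z)
      rw [norm_mul, hz, one_mul] at h5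
      exact (abs_le.1 h5).1
    rw [pol, eval_add, eval_C, eval_mul, eval_X, Complex.add_re, toC_re]
    have hp : (0 : ℝ) < 2 ^ 896 := pow_pos two_pos _
    have h6 : ((2 : ℝ) ^ 836 + (lnrm k : ℝ)) / 2 ^ 896 ≤ (a.1 : ℝ) / 2 ^ 896 :=
      div_le_div_of_nonneg_right h2 hp.le
    have h7 : (2 : ℝ) ^ 836 / 2 ^ 896 = 1 / 2 ^ 60 := by
      rw [div_eq_div_iff hp.ne' (pow_ne_zero _ two_ne_zero), one_mul, ← pow_add]
    rw [add_div, h7] at h6
    have h8 : -((lnrm k : ℝ) / 2 ^ 896) ≤ (z * (pol 896 k).eval z).re := (neg_le_neg h3).trans h4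
    have h9 := add_le_add h6 h8
    rwa [add_neg_cancel_right] at h9

/-- `pol 896 (rL q R) = pol 640 q - pol 256 (lfold (R.length - 1) (lmul R (lstar R)))` (`fmul_eq`, `pol_shl 640 256`,
`pol_shl 256 640`), whose real part at `z` is `Re q(z) - ‖R(z)‖ ^ 2` (`re_fold_norm 128`). -/
theorem chkQ_pos (q R : List GI) (h : chkQ q R = true) (z : ℂ) (hz : ‖z‖ = 1) :
    1 / 2 ^ 60 ≤ ((pol 640 q).eval z).re := by
  unfold chkQ at h
  rw [Bool.and_eq_true] at h
  obtain ⟨h1, h2⟩ := h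
  have hR := (fOK_length _ _ _ h1).1
  have h3 := headOK_pos _ h2 z hz
  have e1 : pol 896 (lshl 256 q) = pol 640 q := pol_shl 640 256 q
  have e2 : pol 896 (lshl 640 (lfold (R.length - 1) (fmul 512 R (lstar R)))) =
      pol 256 (lfold (R.length - 1) (fmul 512 R (lstar R))) := pol_shl 256 640 _
  have e3 : ((pol 256 (lfold (R.length - 1) (fmul 512 R (lstar R)))).eval z).re =
      ‖(pol 128 R).eval z‖ ^ 2 := by
    rw [fmul_eq _ _ _ h1]
    exact re_fold_norm 128 R hR z hz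
  unfold rL at h3
  rw [pol_add, pol_neg, e1, e2, eval_add, eval_neg, Complex.add_re, Complex.neg_re, e3] at h3
  exact h3.trans (by
    rw [← sub_eq_add_neg]
    exact sub_le_self _ (sq_nonneg _))

end Pool.Agent.Hex.Cr
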