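import Mathlib

/-!
# The values of one Fourier coefficient at `× 2, × 3` invariant measures: definitions
-/

open MeasureTheory Complex ComplexConjugate Polynomial

namespace Pool.Agent.Hex

/-- Probability measures on `ℝ/ℤ` preserved by `x ↦ 2 x` and `x ↦ 3 x`. -/
def Inv (μ : Measure (AddCircle (1 : ℝ))) : Prop :=
  IsProbabilityMeasure μ ∧ MeasurePreserving (fun x : AddCircle (1 : ℝ) => (2 : ℕ) • x) μ μ ∧
    MeasurePreserving (fun x : AddCircle (1 : ℝ) => (3 : ℕ) • x) μ μ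

/-- The Fourier coefficient `∫ e(n x) dμ(x)`. -/
noncomputable def coef (μ : Measure (AddCircle (1 : ℝ))) (n : ℤ) : ℂ := ∫ x, fourier n x ∂μ

/-- `e(1/n)`. -/
noncomputable def rt (n : ℕ) : ℂ := Complex.exp (2 * Real.pi * Complex.I / n)

/-- `e(2 ^ j / n)`. -/
noncomputable def pt (n j : ℕ) : ℂ := rt n ^ 2 ^ j

/-- The points `e(2 ^ j / n)`, `j < L`. -/
noncomputable def orb (n L : ℕ) : Finset ℂ := (Finset.range L).image (pt n)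

/-- The sum of the points `e(2 ^ j / n)`, `j < L`. -/
noncomputable def sm (n L : ℕ) : ℂ := ∑ j ∈ Finset.range L, pt n j

/-- The mean of the points `e(2 ^ j / n)`, `j < L`. -/
noncomputable def vtx (n L : ℕ) : ℂ := sm n L / L

/-- The side of the hexagon from `vtx n₁ L₁` to `vtx n₂ L₂`, with its rigidity. -/
def EdgeT (n₁ L₁ n₂ L₂ : ℕ) : Prop :=
  ∀ μ : Measure (AddCircle (1 : ℝ)), Inv μ →
    0 ≤ (conj (vtx n₂ L₂ - vtx n₁ L₁) * (coef μ 1 - vtx n₁ L₁)).im ∧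
    ((conj (vtx n₂ L₂ - vtx n₁ L₁) * (coef μ 1 - vtx n₁ L₁)).im = 0 →
      μ {x | (fourier 1 x : ℂ) ∉ orb n₁ L₁ ∪ orb n₂ L₂} = 0)

/-- The data of the final assembly: the three upper sides and rough values of the vertices. -/
structure Inputs : Prop where
  e1 : EdgeT 1 1 431 43
  e2 : EdgeT 431 43 23 11
  e3 : EdgeT 23 11 5 4
  v431 : ‖vtx 431 43 - (⟨0.164193, 0.189566⟩ : ℂ)‖ ≤ 1 / 10 ^ 5
  v23 : ‖vtx 23 11 - (⟨-0.045455, 0.217992⟩ : ℂ)‖ ≤ 1 / 10 ^ 5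

/-- The hexagon. -/
noncomputable def hexagon : Set ℂ :=
  convexHull ℝ {1, vtx 431 43, vtx 23 11, -1 / 4, conj (vtx 23 11), conj (vtx 431 43)}

/-! ## The exact line -/

/-- The constant coefficient of the line through the two vertices, times `L₁ L₂`. -/
noncomputable def tE (n₁ L₁ n₂ L₂ : ℕ) : ℝ := -(conj (sm n₂ L₂) * sm n₁ L₁).im

/-- The linear coefficient of the line through the two vertices, times `L₁ L₂`. -/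
noncomputable def sE (n₁ L₁ n₂ L₂ : ℕ) : ℂ := -Complex.I * conj ((L₁ : ℂ) * sm n₂ L₂ - (L₂ : ℂ) * sm n₁ L₁)

/-- The function of the side: exact line plus `G₂(z²) - G₂(z) + G₃(z³) - G₃(z)`. -/
noncomputable def hE (n₁ L₁ n₂ L₂ : ℕ) (G₂ G₃ : ℂ[X]) (z : ℂ) : ℝ :=
  tE n₁ L₁ n₂ L₂ + (sE n₁ L₁ n₂ L₂ * z + (G₂.eval (z ^ 2) - G₂.eval z) + (G₃.eval (z ^ 3) - G₃.eval z)).re

/-! ## Jets -/

/-- `f` is bounded by `K` on the unit circle and has first order expansions in `sin (arg (z / p))` at all points `p`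
of the circle, with derivative at most `K` and remainder at most `K ‖z - p‖ ^ 2`. -/
def CJet (f : ℂ → ℂ) (K : ℝ) : Prop :=
  (∀ z, ‖z‖ = 1 → ‖f z‖ ≤ K) ∧ ∀ p, ‖p‖ = 1 → ∃ d : ℂ, ‖d‖ ≤ K ∧
    ∀ z, ‖z‖ = 1 → ‖f z - f p - d * (((z * conj p).im : ℝ) : ℂ)‖ ≤ K * ‖z - p‖ ^ 2

/-- `h` is nonnegative on the circle up to a bounded coboundary for `z ↦ z ^ 2`, with zeros in `S`. -/
def Good (S : Finset ℂ) (h : ℂ → ℝ) : Prop :=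
  ∃ u : ℂ → ℝ, Measurable u ∧ (∃ C, ∀ z, ‖z‖ = 1 → |u z| ≤ C) ∧
    (∀ z, ‖z‖ = 1 → 0 ≤ h z + u z - u (z ^ 2)) ∧
    (∀ z, ‖z‖ = 1 → h z + u z - u (z ^ 2) = 0 → z ∈ S)

/-! ## Certificates -/

/-- The sum of the absolute values of the coefficients. -/
noncomputable def l1 (A : ℂ[X]) : ℝ := A.sum fun _ a => ‖a‖

/-- The monic polynomial with zeros in `S`. -/
noncomputable def van (S : Finset ℂ) : ℂ[X] := ∏ p ∈ S, (X - C p)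

/-- The arithmetic of the two cycles: `S = orb n₁ L₁ ∪ orb n₂ L₂`. -/
structure Cyc (n₁ L₁ n₂ L₂ : ℕ) : Prop where
  pos₁ : 0 < L₁
  pos₂ : 0 < L₂
  card₁ : (orb n₁ L₁).card = L₁
  card₂ : (orb n₂ L₂).card = L₂
  le : L₁ + L₂ ≤ 64
  disj : Disjoint (orb n₁ L₁) (orb n₂ L₂)
  cyc₁ : pt n₁ L₁ = rt n₁
  cyc₂ : pt n₂ L₂ = rt n₂
  /-- multiplication by three permutes each cycle -/
  cub₁ : ∃ a, rt n₁ ^ 3 = pt n₁ a
  cub₂ : ∃ a, rt n₂ ^ 3 = pt n₂ a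

/-- The numerical certificate of a side. -/
def Cert (n₁ L₁ n₂ L₂ : ℕ) : Prop :=
  ∃ (q G₂ G₃ F e : ℂ[X]) (t : ℝ) (s : ℂ),
    F.natDegree ≤ 63 ∧ l1 (F - van (orb n₁ L₁ ∪ orb n₂ L₂)) ≤ 1 / 2 ^ 470 ∧
    |t - tE n₁ L₁ n₂ L₂| ≤ 1 / 2 ^ 470 ∧ ‖s - sE n₁ L₁ n₂ L₂‖ ≤ 1 / 2 ^ 470 ∧
    e.natDegree ≤ 511 ∧ l1 e ≤ 1 / 2 ^ 470 ∧
    (∀ z : ℂ, ‖z‖ = 1 →
      t + (s * z + (G₂.eval (z ^ 2) - G₂.eval z) + (G₃.eval (z ^ 3) - G₃.eval z)).re =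
        ‖F.eval z‖ ^ 2 * (q.eval z).re + (e.eval z).re) ∧
    q.natDegree ≤ 511 ∧ l1 q ≤ 2 ^ 90 ∧
    (∀ z : ℂ, ‖z‖ = 1 → 1 / 2 ^ 60 ≤ (q.eval z).re) ∧
    (∀ p ∈ orb n₁ L₁ ∪ orb n₂ L₂, ∀ p' ∈ orb n₁ L₁ ∪ orb n₂ L₂, p ≠ p' → 1 / 2 ^ 12 ≤ ‖p - p'‖) ∧
    (∀ p ∈ orb n₁ L₁ ∪ orb n₂ L₂,
      1 / 2 ^ 180 ≤ ∏ p' ∈ (orb n₁ L₁ ∪ orb n₂ L₂).erase p, (‖p - p'‖ / 2) ^ 2)

end Pool.Agent.Hex
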