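import Pool.Agent.Hex.JetH

/-!
# The engine: from jets to a bounded coboundary
-/

open MeasureTheory Complex ComplexConjugate Polynomial

namespace Pool.Agent.Hex

theorem norm_rt (n : ℕ) : ‖rt n‖ = 1 := by
  rw [rt, Complex.norm_exp]
  have : (2 * (Real.pi : ℂ) * I / n).re = 0 := by
    rw [show (2 * (Real.pi : ℂ) * I / n) = ((2 * Real.pi / n : ℝ) : ℂ) * I by push_cast; ring]
    simp
  rw [this, Real.exp_zero]

theorem norm_pt (n j : ℕ) : ‖pt n j‖ = 1 := by
  rw [pt, norm_pow, norm_rt, one_pow]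

theorem pt_zero (n : ℕ) : pt n 0 = rt n := by simp [pt]

theorem pt_succ (n j : ℕ) : pt n (j + 1) = pt n j ^ 2 := by
  rw [pt, pt, pow_succ 2 j, pow_mul]

theorem pt_add (n i j : ℕ) : pt n (i + j) = pt n i ^ 2 ^ j := by
  rw [pt, pt, pow_add, pow_mul]

theorem pt_periodic {n L : ℕ} (h : pt n L = rt n) : Function.Periodic (pt n) L := by
  intro j
  rw [add_comm, pt_add, h]
  rfl

theorem norm_of_mem_orb {n L : ℕ} {p : ℂ} (h : p ∈ orb n L) : ‖p‖ = 1 := by
  obtain ⟨j, _, rfl⟩ := Finset.mem_image.mp h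
  exact norm_pt n j

theorem pt_mem_orb {n L : ℕ} (hL : 0 < L) (h : pt n L = rt n) (j : ℕ) : pt n j ∈ orb n L := by
  rw [← (pt_periodic h).map_mod_nat j]
  exact Finset.mem_image_of_mem _ (Finset.mem_range.mpr (Nat.mod_lt _ hL))

theorem pt_injOn {n L : ℕ} (hc : (orb n L).card = L) : Set.InjOn (pt n) (Finset.range L) := by
  apply Finset.injOn_of_card_image_eq
  rw [Finset.card_range]
  exact hc

/-- A periodic sequence is a function of the point. -/
theorem exists_fun {n L : ℕ} (hL : 0 < L) (hc : (orb n L).card = L) (h : pt n L = rt n) (c : ℕ → ℝ)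
    (hp : Function.Periodic c L) : ∃ g : ℂ → ℝ, ∀ j, g (pt n j) = c j := by
  classical
  refine ⟨fun p => if hp : ∃ j < L, pt n j = p then c hp.choose else 0, fun j => ?_⟩
  have hex : ∃ i < L, pt n i = pt n j := ⟨j % L, Nat.mod_lt _ hL, (pt_periodic h).map_mod_nat j⟩
  show (if hp : ∃ i < L, pt n i = pt n j then c hp.choose else 0) = c j
  rw [dif_pos hex]
  have h1 := hex.choose_spec
  have h2 : hex.choose = j % L := by
    apply pt_injOn hc
    · simpa using h1.1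
    · simpa using Nat.mod_lt _ hL
    · rw [h1.2, (pt_periodic h).map_mod_nat j]
  rw [h2, hp.map_mod_nat]

/-- The data of the coboundary on one cycle. -/
theorem cycle_data {n L : ℕ} (hL : 0 < L) (hL' : L ≤ 64) (hc : (orb n L).card = L) (h : pt n L = rt n) {K : ℝ}
    (x d : ℂ → ℝ) (hx : ∀ p ∈ orb n L, |x p| ≤ K) (hd : ∀ p ∈ orb n L, |d p| ≤ K)
    (hs : ∑ j ∈ Finset.range L, x (pt n j) = 0) :
    ∃ a b : ℂ → ℝ, ∀ p ∈ orb n L, p ^ 2 ∈ orb n L ∧ a (p ^ 2) - a p = x p ∧ 2 * b (p ^ 2) - b p = d p ∧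
      |a p| ≤ 63 * K ∧ |b p| ≤ K := by
  have hper := pt_periodic h
  have hK : 0 ≤ K := (abs_nonneg _).trans (hx _ (pt_mem_orb hL h 0))
  have hxp : Function.Periodic (fun j => x (pt n j)) L := fun j => by
    show x (pt n (j + L)) = x (pt n j)
    rw [hper j]
  have hdp : ∀ j, d (pt n (j + L)) = d (pt n j) := fun j => by rw [hper j]
  have hxK : ∀ j, |x (pt n j)| ≤ K := fun j => hx _ (pt_mem_orb hL h j)
  have hdK : ∀ j, |d (pt n j)| ≤ K := fun j => hd _ (pt_mem_orb hL h j)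
  -- first sequence
  set α : ℕ → ℝ := fun j => ∑ i ∈ Finset.range j, x (pt n i) with hα
  have hαp : Function.Periodic α L := by
    intro j
    show ∑ i ∈ Finset.range (j + L), x (pt n i) = ∑ i ∈ Finset.range j, x (pt n i)
    rw [add_comm j L, Finset.sum_range_add, hs, zero_add]
    refine Finset.sum_congr rfl fun i _ => ?_
    rw [add_comm L i]
    exact hxp i
  have hαs : ∀ j, α (j + 1) - α j = x (pt n j) := fun j => by
    show ∑ i ∈ Finset.range (j + 1), x (pt n i) - ∑ i ∈ Finset.range j, x (pt n i) = _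
    rw [Finset.sum_range_succ]
    ring
  have hαK : ∀ j, |α j| ≤ 63 * K := fun j => by
    rw [← hαp.map_mod_nat j]
    have hlt : j % L < L := Nat.mod_lt _ hL
    have h63 : ((j % L : ℕ) : ℝ) ≤ 63 := by
      have : j % L ≤ 63 := by omega
      exact_mod_cast this
    calc |α (j % L)| ≤ ∑ i ∈ Finset.range (j % L), |x (pt n i)| := Finset.abs_sum_le_sum_abs _ _
      _ ≤ ∑ i ∈ Finset.range (j % L), K := Finset.sum_le_sum fun i _ => hxK i
      _ = (j % L : ℕ) * K := by rw [Finset.sum_const, Finset.card_range, nsmul_eq_mul]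
      _ ≤ 63 * K := by gcongr
  -- second sequence
  have h2L : (1 : ℝ) < 2 ^ L := one_lt_pow₀ (by norm_num) hL.ne'
  set β0 : ℝ := (∑ i ∈ Finset.range L, 2 ^ i * d (pt n i)) / (2 ^ L - 1) with hβ0
  set β : ℕ → ℝ := fun j => (β0 + ∑ i ∈ Finset.range j, 2 ^ i * d (pt n i)) / 2 ^ j with hβ
  have hβs : ∀ j, 2 * β (j + 1) - β j = d (pt n j) := fun j => by
    show 2 * ((β0 + ∑ i ∈ Finset.range (j + 1), 2 ^ i * d (pt n i)) / 2 ^ (j + 1)) -
      (β0 + ∑ i ∈ Finset.range j, 2 ^ i * d (pt n i)) / 2 ^ j = _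
    rw [Finset.sum_range_succ]
    field_simp
    ring
  have hβL : β L = β 0 := by
    have hne : (2 : ℝ) ^ L - 1 ≠ 0 := by linarith
    have h3 : ∑ i ∈ Finset.range L, 2 ^ i * d (pt n i) = β0 * (2 ^ L - 1) := by
      rw [hβ0]; field_simp
    show (β0 + ∑ i ∈ Finset.range L, 2 ^ i * d (pt n i)) / 2 ^ L = (β0 + ∑ i ∈ Finset.range 0, 2 ^ i * d (pt n i)) / 2 ^ 0
    rw [h3, Finset.sum_range_zero]
    field_simp
    ring
  have hβp : Function.Periodic β L := by
    intro j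
    induction j with
    | zero => rw [zero_add]; exact hβL
    | succ j ih =>
      have e1 := hβs (j + L)
      have e2 := hβs j
      rw [hdp, ih] at e1
      have e3 : j + 1 + L = j + L + 1 := by ring
      rw [e3]
      linarith
  have hβ0K : |β 0| ≤ K := by
    have e : β 0 = β0 := by
      show (β0 + ∑ i ∈ Finset.range 0, 2 ^ i * d (pt n i)) / 2 ^ 0 = β0
      simp
    rw [e, hβ0, abs_div, abs_of_pos (show (0 : ℝ) < 2 ^ L - 1 by linarith), div_le_iff₀ (by linarith)]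
    have hg : ∑ i ∈ Finset.range L, (2 : ℝ) ^ i = 2 ^ L - 1 := by
      rw [geom_sum_eq (by norm_num)]
      norm_num
    calc |∑ i ∈ Finset.range L, 2 ^ i * d (pt n i)| ≤ ∑ i ∈ Finset.range L, |2 ^ i * d (pt n i)| :=
          Finset.abs_sum_le_sum_abs _ _
      _ ≤ ∑ i ∈ Finset.range L, 2 ^ i * K := by
          refine Finset.sum_le_sum fun i _ => ?_
          rw [abs_mul, abs_of_pos (show (0 : ℝ) < 2 ^ i by positivity)]
          exact mul_le_mul_of_nonneg_left (hdK i) (by positivity)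
      _ = _ := by rw [← Finset.sum_mul, hg]; ring
  have hβK : ∀ j, |β j| ≤ K := fun j => by
    induction j with
    | zero => exact hβ0K
    | succ j ih =>
      have e := hβs j
      have e1 : β (j + 1) = (β j + d (pt n j)) / 2 := by linarith
      rw [e1, abs_div, abs_of_pos (show (0 : ℝ) < 2 by norm_num), div_le_iff₀ (by norm_num)]
      exact (abs_add_le _ _).trans (by linarith [hdK j])
  obtain ⟨a, ha⟩ := exists_fun hL hc h α hαp
  obtain ⟨b, hb⟩ := exists_fun hL hc h β hβp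
  refine ⟨a, b, fun p hp => ?_⟩
  obtain ⟨j, _, rfl⟩ := Finset.mem_image.mp hp
  rw [← pt_succ, ha, ha, hb, hb]
  exact ⟨pt_mem_orb hL h _, hαs j, hβs j, hαK j, hβK j⟩

/-- The data of the coboundary on both cycles. -/
theorem both_data {n₁ L₁ n₂ L₂ : ℕ} (hC : Cyc n₁ L₁ n₂ L₂) {K : ℝ} (x d : ℂ → ℝ)
    (hx : ∀ p ∈ orb n₁ L₁ ∪ orb n₂ L₂, |x p| ≤ K) (hd : ∀ p ∈ orb n₁ L₁ ∪ orb n₂ L₂, |d p| ≤ K)
    (h1 : ∑ j ∈ Finset.range L₁, x (pt n₁ j) = 0) (h2 : ∑ j ∈ Finset.range L₂, x (pt n₂ j) = 0) :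
    ∃ a b : ℂ → ℝ, ∀ p ∈ orb n₁ L₁ ∪ orb n₂ L₂, p ^ 2 ∈ orb n₁ L₁ ∪ orb n₂ L₂ ∧ a (p ^ 2) - a p = x p ∧
      2 * b (p ^ 2) - b p = d p ∧ |a p| ≤ 63 * K ∧ |b p| ≤ K := by
  classical
  have hl := hC.le
  obtain ⟨a₁, b₁, H₁⟩ := cycle_data hC.pos₁ (by omega) hC.card₁ hC.cyc₁ x d
    (fun p hp => hx p (Finset.mem_union_left _ hp)) (fun p hp => hd p (Finset.mem_union_left _ hp)) h1
  obtain ⟨a₂, b₂, H₂⟩ := cycle_data hC.pos₂ (by omega) hC.card₂ hC.cyc₂ x d
    (fun p hp => hx p (Finset.mem_union_right _ hp)) (fun p hp => hd p (Finset.mem_union_right _ hp)) h2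
  have hdis : ∀ p, p ∈ orb n₂ L₂ → p ∉ orb n₁ L₁ := fun p h2 h1 => Finset.disjoint_left.mp hC.disj h1 h2
  refine ⟨fun p => if p ∈ orb n₁ L₁ then a₁ p else a₂ p, fun p => if p ∈ orb n₁ L₁ then b₁ p else b₂ p,
    fun p hp => ?_⟩
  rcases Finset.mem_union.mp hp with hp | hp
  · obtain ⟨k1, k2, k3, k4, k5⟩ := H₁ p hp
    simp only [if_pos hp, if_pos k1]
    exact ⟨Finset.mem_union_left _ k1, k2, k3, k4, k5⟩
  · obtain ⟨k1, k2, k3, k4, k5⟩ := H₂ p hp
    simp only [if_neg (hdis _ hp), if_neg (hdis _ k1)]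
    exact ⟨Finset.mem_union_right _ k1, k2, k3, k4, k5⟩

/-- ENGINE. -/
theorem engine {n₁ L₁ n₂ L₂ : ℕ} (hC : Cyc n₁ L₁ n₂ L₂) {r K γ : ℝ} (hr : 0 < r) (hr1 : r ≤ 1)
    (hsep : ∀ p ∈ orb n₁ L₁ ∪ orb n₂ L₂, ∀ q ∈ orb n₁ L₁ ∪ orb n₂ L₂, p ≠ q → 2 * r ≤ ‖p - q‖)
    (h M : ℂ → ℝ) (E : ℂ → ℂ) (hE : CJet E K) (hh : ∀ z, ‖z‖ = 1 → h z = M z + (E z).re)
    (hM : ∀ z, ‖z‖ = 1 → ∃ p ∈ orb n₁ L₁ ∪ orb n₂ L₂, γ * ‖z - p‖ ^ 2 ≤ M z)
    (hM0 : ∀ p ∈ orb n₁ L₁ ∪ orb n₂ L₂, M p = 0)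
    (h1 : ∑ j ∈ Finset.range L₁, h (pt n₁ j) = 0) (h2 : ∑ j ∈ Finset.range L₂, h (pt n₂ j) = 0)
    (hγ1 : 2 * K < γ) (hγ2 : 131 * K < γ * (r / 2) ^ 2) :
    Good (orb n₁ L₁ ∪ orb n₂ L₂) h := by
  classical
  set S : Finset ℂ := orb n₁ L₁ ∪ orb n₂ L₂ with hS
  have hnS : ∀ p ∈ S, ‖p‖ = 1 := fun p hp => by
    rcases Finset.mem_union.mp hp with hp | hp
    · exact norm_of_mem_orb hp
    · exact norm_of_mem_orb hp
  have hK : 0 ≤ K := (norm_nonneg _).trans (hE.1 1 (by simp))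
  have hγ : 0 < γ := by linarith
  -- derivatives
  have hD : ∀ p, ∃ d : ℂ, ‖p‖ = 1 → ‖d‖ ≤ K ∧
      ∀ z, ‖z‖ = 1 → ‖E z - E p - d * (((z * conj p).im : ℝ) : ℂ)‖ ≤ K * ‖z - p‖ ^ 2 := by
    intro p
    by_cases hp : ‖p‖ = 1
    · obtain ⟨d, hd⟩ := hE.2 p hp
      exact ⟨d, fun _ => hd⟩
    · exact ⟨0, fun h => absurd h hp⟩
  choose D hD using hD
  have hhS : ∀ p ∈ S, h p = (E p).re := fun p hp => by rw [hh p (hnS p hp), hM0 p hp, zero_add]
  obtain ⟨a, b, hab⟩ := both_data hC (K := K) h (fun p => (D p).re)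
    (fun p hp => by rw [hhS p hp]; exact (Complex.abs_re_le_norm _).trans (hE.1 p (hnS p hp)))
    (fun p hp => (Complex.abs_re_le_norm _).trans (hD p (hnS p hp)).1) h1 h2
  set u : ℂ → ℝ := fun z => ∑ p ∈ S, if ‖z - p‖ < r then a p + b p * (z * conj p).im else 0 with hu
  -- value near a point
  have hun : ∀ z, ∀ p ∈ S, ‖z - p‖ < r → u z = a p + b p * (z * conj p).im := by
    intro z p hp hzp
    show ∑ p ∈ S, (if ‖z - p‖ < r then a p + b p * (z * conj p).im else 0) = _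
    rw [Finset.sum_eq_single_of_mem p hp, if_pos hzp]
    intro q hq hqp
    rw [if_neg]
    intro hzq
    have h3 := hsep p hp q hq hqp.symm
    have h4 : ‖p - q‖ ≤ ‖z - p‖ + ‖z - q‖ := by
      rw [← norm_neg (z - p)]
      calc ‖p - q‖ = ‖-(z - p) + (z - q)‖ := by ring_nf
        _ ≤ _ := norm_add_le _ _
    linarith
  have him : ∀ z p : ℂ, ‖z‖ = 1 → ‖p‖ = 1 → |(z * conj p).im| ≤ ‖z - p‖ := by
    intro z p hz hp
    have hpp : p * conj p = 1 := by
      rw [Complex.mul_conj, Complex.normSq_eq_norm_sq, hp]; simp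
    have h5 : ‖z * conj p - 1‖ = ‖z - p‖ := by
      rw [← hpp, ← sub_mul, norm_mul, Complex.norm_conj, hp, mul_one]
    rw [← h5]
    exact abs_im_le_sub_one _
  have hub : ∀ z, ‖z‖ = 1 → |u z| ≤ 64 * K := by
    intro z hz
    by_cases hex : ∃ p ∈ S, ‖z - p‖ < r
    · obtain ⟨p, hp, hzp⟩ := hex
      rw [hun z p hp hzp]
      obtain ⟨-, -, -, k4, k5⟩ := hab p hp
      have h6 := him z p hz (hnS p hp)
      have h7 : |b p * (z * conj p).im| ≤ K * 1 := by
        rw [abs_mul]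
        exact mul_le_mul k5 (by linarith) (abs_nonneg _) hK
      exact (abs_add_le _ _).trans (by linarith)
    · push Not at hex
      have : u z = 0 := by
        show ∑ p ∈ S, (if ‖z - p‖ < r then a p + b p * (z * conj p).im else 0) = 0
        refine Finset.sum_eq_zero fun p hp => ?_
        rw [if_neg (not_lt.mpr (hex p hp))]
      rw [this, abs_zero]
      positivity
  -- key inequality
  have key : ∀ z, ‖z‖ = 1 → 0 < h z + u z - u (z ^ 2) ∨ (z ∈ S ∧ 0 ≤ h z + u z - u (z ^ 2)) := by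
    intro z hz
    by_cases hex : ∃ p ∈ S, ‖z - p‖ < r / 2
    · obtain ⟨p, hp, hzp⟩ := hex
      have hpn := hnS p hp
      obtain ⟨k1, k2, k3, k4, k5⟩ := hab p hp
      obtain ⟨hd1, hd2⟩ := hD p hpn
      have hu1 := hun z p hp (by linarith)
      have hz2 : ‖z ^ 2 - p ^ 2‖ < r := by
        have e : z ^ 2 - p ^ 2 = (z - p) * (z + p) := by ring
        rw [e, norm_mul]
        have : ‖z + p‖ ≤ 2 := (norm_add_le _ _).trans (by linarith)
        calc ‖z - p‖ * ‖z + p‖ ≤ ‖z - p‖ * 2 := by gcongr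
          _ < r := by linarith
      have hu2 := hun (z ^ 2) (p ^ 2) k1 hz2
      set w : ℂ := z * conj p with hw
      have hw1 : ‖w‖ = 1 := by rw [hw, norm_mul, Complex.norm_conj, hz, hpn, one_mul]
      have hpp : p * conj p = 1 := by
        rw [Complex.mul_conj, Complex.normSq_eq_norm_sq, hpn]; simp
      have hwn : ‖w - 1‖ = ‖z - p‖ := by
        rw [← hpp, hw, ← sub_mul, norm_mul, Complex.norm_conj, hpn, mul_one]
      have hre : w.re = 1 - ‖z - p‖ ^ 2 / 2 := by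
        have := norm_sub_one_sq hw1
        rw [hwn] at this
        linarith
      have him2 : (z ^ 2 * conj (p ^ 2)).im = 2 * w.im - w.im * ‖z - p‖ ^ 2 := by
        have e : z ^ 2 * conj (p ^ 2) = w ^ 2 := by rw [hw, map_pow]; ring
        rw [e, pow_two, Complex.mul_im, hre]
        ring
      have hEz := hd2 z hz
      have hEr : |(E z).re - (E p).re - (D p).re * w.im| ≤ K * ‖z - p‖ ^ 2 := by
        have h8 := Complex.abs_re_le_norm (E z - E p - D p * ((w.im : ℝ) : ℂ))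
        simp only [sub_re, Complex.re_mul_ofReal] at h8
        exact h8.trans hEz
      obtain ⟨q, hq, hMq⟩ := hM z hz
      have hMp : γ * ‖z - p‖ ^ 2 ≤ M z := by
        by_cases hqp : q = p
        · rw [← hqp]; exact hMq
        · have h9 := hsep p hp q hq (Ne.symm hqp)
          have h10 : ‖p - q‖ ≤ ‖z - p‖ + ‖z - q‖ := by
            rw [← norm_neg (z - p)]
            calc ‖p - q‖ = ‖-(z - p) + (z - q)‖ := by ring_nf
              _ ≤ _ := norm_add_le _ _
          have h11 : ‖z - p‖ ≤ ‖z - q‖ := by linarith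
          refine le_trans ?_ hMq
          gcongr
      have hbz : |b (p ^ 2) * (w.im * ‖z - p‖ ^ 2)| ≤ K * ‖z - p‖ ^ 2 := by
        obtain ⟨-, -, -, -, k6⟩ := hab (p ^ 2) k1
        have h12 : |w.im| ≤ 1 := (Complex.abs_im_le_norm w).trans_eq hw1
        rw [abs_mul, abs_mul, abs_of_nonneg (sq_nonneg ‖z - p‖)]
        calc |b (p ^ 2)| * (|w.im| * ‖z - p‖ ^ 2) ≤ K * (1 * ‖z - p‖ ^ 2) := by gcongr
          _ = _ := by ring
      have e : h z + u z - u (z ^ 2) = M z + ((E z).re - (E p).re - (D p).re * w.im) +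
          b (p ^ 2) * (w.im * ‖z - p‖ ^ 2) := by
        rw [hu1, hu2, him2, hh z hz]
        rw [hhS p hp] at k2
        have k2' : a (p ^ 2) = a p + (E p).re := by linarith
        have k3' : 2 * b (p ^ 2) = b p + (D p).re := by linarith
        rw [k2']
        have : b (p ^ 2) * (2 * w.im - w.im * ‖z - p‖ ^ 2) =
            (b p + (D p).re) * w.im - b (p ^ 2) * (w.im * ‖z - p‖ ^ 2) := by rw [← k3']; ring
        rw [this]
        ring
      have h13 := (abs_le.mp hEr).1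
      have h14 := (abs_le.mp hbz).1
      have h15 : (γ - 2 * K) * ‖z - p‖ ^ 2 ≤ h z + u z - u (z ^ 2) := by
        rw [e]; linarith
      by_cases hzeq : z = p
      · right
        refine ⟨hzeq ▸ hp, le_trans ?_ h15⟩
        have : 0 < γ - 2 * K := by linarith
        positivity
      · left
        have h16 : 0 < ‖z - p‖ := norm_pos_iff.mpr (sub_ne_zero.mpr hzeq)
        have : 0 < γ - 2 * K := by linarith
        have h17 : 0 < (γ - 2 * K) * ‖z - p‖ ^ 2 := by positivity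
        linarith
    · left
      push Not at hex
      obtain ⟨q, hq, hMq⟩ := hM z hz
      have h18 := hex q hq
      have h19 : γ * (r / 2) ^ 2 ≤ M z := by
        refine le_trans ?_ hMq
        have : (r / 2) ^ 2 ≤ ‖z - q‖ ^ 2 := pow_le_pow_left₀ (by positivity) h18 2
        gcongr
      have h20 := (abs_le.mp ((Complex.abs_re_le_norm _).trans (hE.1 z hz))).1
      have h21 := (abs_le.mp (hub z hz)).1
      have h22 := (abs_le.mp (hub (z ^ 2) (by rw [norm_pow, hz, one_pow]))).2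
      rw [hh z hz]
      linarith
  refine ⟨u, ?_, ⟨64 * K, hub⟩, fun z hz => ?_, fun z hz h0 => ?_⟩
  · refine Finset.measurable_fun_sum _ fun p _ => ?_
    refine Measurable.ite ?_ ?_ measurable_const
    · exact measurableSet_lt (by fun_prop) measurable_const
    · have : Continuous fun z : ℂ => a p + b p * (z * conj p).im := by fun_prop
      exact this.measurable
  · rcases key z hz with h | h
    · exact h.le
    · exact h.2
  · rcases key z hz with h | h
    · exact absurd h0 h.ne'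
    · exact h.1

end Pool.Agent.Hex
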