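import Pool.Agent.Hex.Defs

/-!
# The geometry of the hexagon
-/

open MeasureTheory Complex ComplexConjugate Polynomial

namespace Pool.Agent.Hex

/-- The left half plane of the oriented line from `P` to `Q`. -/
noncomputable def lft (P Q w : ℂ) : ℝ := (conj (Q - P) * (w - P)).im

theorem geo_tri {S : Set ℂ} (hS : Convex ℝ S) {P Q w : ℂ} (h0 : (0 : ℂ) ∈ S) (hP : P ∈ S)
    (hQ : Q ∈ S) (hPQ : 0 < (conj P * Q).im) (h1 : 0 ≤ (conj P * w).im)
    (h2 : 0 ≤ (conj w * Q).im) (h3 : 0 ≤ lft P Q w) : w ∈ S := by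
  unfold lft at h3
  set c : ℝ := (conj P * Q).im with hc
  set α : ℝ := (conj w * Q).im with hα
  set β : ℝ := (conj P * w).im with hβ
  have hc0 : c ≠ 0 := hPQ.ne'
  have e3 : (conj (Q - P) * (w - P)).im = c - α - β := by
    rw [hc, hα, hβ]
    simp only [mul_im, conj_re, conj_im, sub_re, sub_im]
    ring
  rw [e3] at h3
  have hw : (c : ℂ) * w = α * P + β * Q := by
    apply Complex.ext
    · simp only [hc, hα, hβ, mul_im, mul_re, conj_re, conj_im, add_re, ofReal_re, ofReal_im]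
      ring
    · simp only [hc, hα, hβ, mul_im, conj_re, conj_im, add_im, ofReal_re, ofReal_im]
      ring
  rcases eq_or_lt_of_le (add_nonneg h2 h1) with hs | hs
  · have hα0 : α = 0 := le_antisymm (by linarith) h2
    have hβ0 : β = 0 := le_antisymm (by linarith) h1
    rw [hα0, hβ0] at hw
    have : w = 0 := by
      have h : (c : ℂ) * w = 0 := by rw [hw]; simp
      rcases mul_eq_zero.mp h with h | h
      · exact absurd (by exact_mod_cast h) hc0
      · exact h
    rw [this]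
    exact h0
  · have hs0 : α + β ≠ 0 := hs.ne'
    have hp : (α / (α + β)) • P + (β / (α + β)) • Q ∈ S :=
      hS hP hQ (by positivity) (by positivity) (by field_simp)
    have ht : ((α + β) / c) ∈ Set.Icc (0 : ℝ) 1 :=
      ⟨by positivity, (div_le_one hPQ).mpr (by linarith)⟩
    have hq := hS.smul_mem_of_zero_mem h0 hp ht
    have he : ((α + β) / c) • ((α / (α + β)) • P + (β / (α + β)) • Q) = w := by
      have hcc : (c : ℂ) ≠ 0 := by exact_mod_cast hc0
      have hss : ((α : ℂ) + β) ≠ 0 := by exact_mod_cast hs0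
      simp only [Complex.real_smul]
      push_cast
      have : w = ((α : ℂ) * P + β * Q) / c := by
        rw [← hw]
        field_simp
      rw [this]
      field_simp
    rw [he] at hq
    exact hq

theorem geo_quarter : conj (-1 / 4 : ℂ) = -1 / 4 := by
  have : (-1 / 4 : ℂ) = ((-1 / 4 : ℝ) : ℂ) := by push_cast; ring
  rw [this, Complex.conj_ofReal]

theorem geo_conj {w : ℂ} (hw : w ∈ hexagon) : conj w ∈ hexagon := by
  have hconv : Convex ℝ {w : ℂ | conj w ∈ hexagon} := by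
    intro x hx y hy a b ha hb hab
    have := (convex_convexHull ℝ _ : Convex ℝ hexagon) hx hy ha hb hab
    simp only [Set.mem_ofPred_eq, Complex.real_smul, map_add, map_mul, Complex.conj_ofReal] at this ⊢
    exact this
  have hsub : hexagon ⊆ {w : ℂ | conj w ∈ hexagon} := by
    refine convexHull_min ?_ hconv
    intro x hx
    refine subset_convexHull ℝ _ ?_
    simp only [Set.mem_insert_iff, Set.mem_singleton_iff] at hx ⊢
    rcases hx with h | h | h | h | h | h
    · left; rw [h]; simp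
    · right; right; right; right; right; rw [h]
    · right; right; right; right; left; rw [h]
    · right; right; right; left; rw [h]; exact geo_quarter
    · right; right; left; rw [h]; simp
    · right; left; rw [h]; simp
  exact hsub hw

theorem geo_zero : (0 : ℂ) ∈ hexagon := by
  have h1 : (1 : ℂ) ∈ hexagon := subset_convexHull ℝ _ (by simp)
  have h4 : (-1 / 4 : ℂ) ∈ hexagon := subset_convexHull ℝ _ (by simp)
  have := (convex_convexHull ℝ _ : Convex ℝ hexagon) h1 h4 (a := 1 / 5) (b := 4 / 5) (by norm_num)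
    (by norm_num) (by norm_num)
  have he : (1 / 5 : ℝ) • (1 : ℂ) + (4 / 5 : ℝ) • (-1 / 4 : ℂ) = 0 := by
    simp only [Complex.real_smul]
    push_cast
    norm_num
  rwa [he] at this

theorem geo_up {w : ℂ} (v431 : ‖vtx 431 43 - (⟨0.164193, 0.189566⟩ : ℂ)‖ ≤ 1 / 10 ^ 5)
    (v23 : ‖vtx 23 11 - (⟨-0.045455, 0.217992⟩ : ℂ)‖ ≤ 1 / 10 ^ 5) (hy : 0 ≤ w.im)
    (h1 : 0 ≤ lft 1 (vtx 431 43) w) (h2 : 0 ≤ lft (vtx 431 43) (vtx 23 11) w)
    (h3 : 0 ≤ lft (vtx 23 11) (-1 / 4) w) : w ∈ hexagon := by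
  have hconv : Convex ℝ hexagon := convex_convexHull ℝ _
  have m1 : (1 : ℂ) ∈ hexagon := subset_convexHull ℝ _ (by simp)
  have mB : vtx 431 43 ∈ hexagon := subset_convexHull ℝ _ (by simp)
  have mC : vtx 23 11 ∈ hexagon := subset_convexHull ℝ _ (by simp)
  have mD : (-1 / 4 : ℂ) ∈ hexagon := subset_convexHull ℝ _ (by simp)
  have hBr := (abs_re_le_norm _).trans v431
  have hBi := (abs_im_le_norm _).trans v431
  have hCr := (abs_re_le_norm _).trans v23
  have hCi := (abs_im_le_norm _).trans v23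
  rw [abs_le] at hBr hBi hCr hCi
  simp only [sub_re, sub_im] at hBr hBi hCr hCi
  generalize vtx 431 43 = B at *
  generalize vtx 23 11 = Z at *
  have hD : (conj w * (-1 / 4 : ℂ)).im = w.im / 4 := by
    have : (-1 / 4 : ℂ) = ((-1 / 4 : ℝ) : ℂ) := by push_cast; ring
    rw [this]
    simp only [mul_im, conj_re, conj_im, ofReal_re, ofReal_im]
    ring
  have hCD : (conj Z * (-1 / 4 : ℂ)).im = Z.im / 4 := by
    have : (-1 / 4 : ℂ) = ((-1 / 4 : ℝ) : ℂ) := by push_cast; ring
    rw [this]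
    simp only [mul_im, conj_re, conj_im, ofReal_re, ofReal_im]
    ring
  have hAB : (conj (1 : ℂ) * B).im = B.im := by simp
  have hAw : (conj (1 : ℂ) * w).im = w.im := by simp
  have hBC : 0 < (conj B * Z).im := by
    simp only [mul_im, conj_re, conj_im]
    nlinarith
  have hneg : ∀ u v : ℂ, (conj u * v).im = -(conj v * u).im := by
    intro u v
    simp only [mul_im, conj_re, conj_im]
    ring
  rcases le_total 0 (conj B * w).im with hB | hB
  · rcases le_total 0 (conj Z * w).im with hC | hC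
    · refine geo_tri hconv geo_zero mC mD ?_ hC ?_ h3
      · rw [hCD]
        linarith
      · rw [hD]
        linarith
    · refine geo_tri hconv geo_zero mB mC hBC hB ?_ h2
      rw [hneg]
      linarith
  · refine geo_tri hconv geo_zero m1 mB ?_ ?_ ?_ h1
    · rw [hAB]
      linarith
    · rw [hAw]
      exact hy
    · rw [hneg]
      linarith

theorem geo_mem {w : ℂ} (v431 : ‖vtx 431 43 - (⟨0.164193, 0.189566⟩ : ℂ)‖ ≤ 1 / 10 ^ 5)
    (v23 : ‖vtx 23 11 - (⟨-0.045455, 0.217992⟩ : ℂ)‖ ≤ 1 / 10 ^ 5)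
    (h1 : 0 ≤ lft 1 (vtx 431 43) w) (h2 : 0 ≤ lft (vtx 431 43) (vtx 23 11) w)
    (h3 : 0 ≤ lft (vtx 23 11) (-1 / 4) w)
    (h4 : 0 ≤ lft 1 (vtx 431 43) (conj w)) (h5 : 0 ≤ lft (vtx 431 43) (vtx 23 11) (conj w))
    (h6 : 0 ≤ lft (vtx 23 11) (-1 / 4) (conj w)) : w ∈ hexagon := by
  rcases le_total 0 w.im with hy | hy
  · exact geo_up v431 v23 hy h1 h2 h3
  · have := geo_conj (geo_up (w := conj w) v431 v23 (by rw [conj_im]; linarith) h4 h5 h6)
    rwa [Complex.conj_conj] at this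

theorem geo_cont (P Q : ℂ) : Continuous (lft P Q) := by
  unfold lft
  exact Complex.continuous_im.comp (continuous_const.mul (continuous_id.sub continuous_const))

theorem geo_int {w : ℂ} (v431 : ‖vtx 431 43 - (⟨0.164193, 0.189566⟩ : ℂ)‖ ≤ 1 / 10 ^ 5)
    (v23 : ‖vtx 23 11 - (⟨-0.045455, 0.217992⟩ : ℂ)‖ ≤ 1 / 10 ^ 5)
    (h1 : 0 < lft 1 (vtx 431 43) w) (h2 : 0 < lft (vtx 431 43) (vtx 23 11) w)
    (h3 : 0 < lft (vtx 23 11) (-1 / 4) w)
    (h4 : 0 < lft 1 (vtx 431 43) (conj w)) (h5 : 0 < lft (vtx 431 43) (vtx 23 11) (conj w))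
    (h6 : 0 < lft (vtx 23 11) (-1 / 4) (conj w)) : w ∈ interior hexagon := by
  rw [mem_interior]
  refine ⟨{w | 0 < lft 1 (vtx 431 43) w ∧ 0 < lft (vtx 431 43) (vtx 23 11) w ∧
    0 < lft (vtx 23 11) (-1 / 4) w ∧ 0 < lft 1 (vtx 431 43) (conj w) ∧
    0 < lft (vtx 431 43) (vtx 23 11) (conj w) ∧ 0 < lft (vtx 23 11) (-1 / 4) (conj w)},
    ?_, ?_, ⟨h1, h2, h3, h4, h5, h6⟩⟩
  · rintro x ⟨a1, a2, a3, a4, a5, a6⟩
    exact geo_mem v431 v23 a1.le a2.le a3.le a4.le a5.le a6.le
  · have o : ∀ P Q : ℂ, IsOpen {w | 0 < lft P Q w} := fun P Q =>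
      isOpen_lt continuous_const (geo_cont P Q)
    have o' : ∀ P Q : ℂ, IsOpen {w | 0 < lft P Q (conj w)} := fun P Q =>
      isOpen_lt continuous_const ((geo_cont P Q).comp Complex.continuous_conj)
    exact (o _ _).inter ((o _ _).inter ((o _ _).inter ((o' _ _).inter ((o' _ _).inter (o' _ _)))))

end Pool.Agent.Hex
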