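import Pool.Agent.Hex.MeaH
import Pool.Agent.Hex.GeoH

/-!
# The final assembly: the set of values, and the frontier
-/

open MeasureTheory Complex ComplexConjugate Polynomial

namespace Pool.Agent.Hex

/-! ## Push forward -/

theorem fin_fourier (n k : ℤ) (x : AddCircle (1 : ℝ)) :
    (fourier k (n • x) : ℂ) = fourier (n * k) x := by
  rw [fourier_apply, fourier_apply, smul_smul, mul_comm]

theorem fin_push {μ : Measure (AddCircle (1 : ℝ))} (h : Inv μ) (n : ℤ) :
    Inv (μ.map fun x => n • x) := by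
  obtain ⟨h1, h2, h3⟩ := h
  have hm : Measurable fun x : AddCircle (1 : ℝ) => n • x := (continuous_zsmul n).measurable
  have key : ∀ c : ℕ, MeasurePreserving (fun x : AddCircle (1 : ℝ) => c • x) μ μ →
      MeasurePreserving (fun x : AddCircle (1 : ℝ) => c • x) (μ.map fun x => n • x)
        (μ.map fun x => n • x) := by
    intro c hc
    refine ⟨hc.measurable, ?_⟩
    rw [Measure.map_map hc.measurable hm]
    have : ((fun x : AddCircle (1 : ℝ) => c • x) ∘ fun x => n • x) =
        (fun x => n • x) ∘ fun x => c • x := by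
      funext x
      simp only [Function.comp]
      rw [smul_comm]
    rw [this, ← Measure.map_map hm hc.measurable, hc.map_eq]
  exact ⟨Measure.isProbabilityMeasure_map hm.aemeasurable, key 2 h2, key 3 h3⟩

theorem fin_push_coef (μ : Measure (AddCircle (1 : ℝ))) (n k : ℤ) :
    coef (μ.map fun x => n • x) k = coef μ (n * k) := by
  unfold coef
  have hm : Measurable fun x : AddCircle (1 : ℝ) => n • x := (continuous_zsmul n).measurable
  rw [integral_map hm.aemeasurable (fourier k).continuous.aestronglyMeasurable]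
  simp only [fin_fourier]

theorem fin_conj (μ : Measure (AddCircle (1 : ℝ))) (n : ℤ) : coef μ (-n) = conj (coef μ n) := by
  unfold coef
  rw [← integral_conj]
  simp only [fourier_neg]

theorem fin_mul (μ : Measure (AddCircle (1 : ℝ))) {c : ℕ}
    (hc : MeasurePreserving (fun x : AddCircle (1 : ℝ) => c • x) μ μ) (n : ℤ) :
    coef μ (c * n) = coef μ n := by
  unfold coef
  rw [← mea_int_comp hc (fun x => (fourier n x : ℂ)) (fourier n).continuous.aestronglyMeasurable]
  congr 1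
  funext x
  rw [← natCast_zsmul, fin_fourier]

/-! ## The kernel of a multiplication and its cosets -/

/-- The kernel of multiplication by `k`. -/
noncomputable def ker (k : ℕ) (hk : 0 < k) : Finset (AddCircle (1 : ℝ)) :=
  (AddCircle.finite_torsion (1 : ℝ) hk).toFinset

theorem fin_ker {k : ℕ} {hk : 0 < k} {x : AddCircle (1 : ℝ)} : x ∈ ker k hk ↔ k • x = 0 := by
  unfold ker
  rw [Set.Finite.mem_toFinset]
  rfl

theorem fin_ker_card {k : ℕ} {hk : 0 < k} : 0 < (ker k hk).card :=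
  Finset.card_pos.mpr ⟨0, fin_ker.mpr (smul_zero k)⟩

theorem fin_sum_add {k : ℕ} {hk : 0 < k} {M : Type*} [AddCommMonoid M]
    (f : AddCircle (1 : ℝ) → M) {t : AddCircle (1 : ℝ)} (ht : k • t = 0) :
    ∑ s ∈ ker k hk, f (t + s) = ∑ s ∈ ker k hk, f s := by
  refine Finset.sum_nbij' (fun s => t + s) (fun s => -t + s) ?_ ?_ ?_ ?_ ?_
  · intro s hs
    rw [fin_ker] at hs ⊢
    rw [smul_add, ht, hs, add_zero]
  · intro s hs
    rw [fin_ker] at hs ⊢
    rw [smul_add, smul_neg, ht, hs, neg_zero, add_zero]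
  · intro s _
    simp
  · intro s _
    simp
  · intro s _
    rfl

theorem fin_coprime {k c : ℕ} (hc : Nat.Coprime c k) {x : AddCircle (1 : ℝ)} (h1 : k • x = 0)
    (h2 : c • x = 0) : x = 0 := by
  have h := Nat.isCoprime_iff_coprime.mpr hc
  obtain ⟨a, b, hab⟩ := h
  have : (1 : ℤ) • x = 0 := by
    rw [← hab, add_smul, mul_smul, mul_smul, natCast_zsmul, natCast_zsmul, h1, h2, smul_zero,
      smul_zero, add_zero]
  rwa [one_zsmul] at this

theorem fin_sum_mul {k : ℕ} {hk : 0 < k} {M : Type*} [AddCommMonoid M]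
    (f : AddCircle (1 : ℝ) → M) {c : ℕ} (hc : Nat.Coprime c k) :
    ∑ s ∈ ker k hk, f (c • s) = ∑ s ∈ ker k hk, f s := by
  classical
  have hinj : Set.InjOn (fun s : AddCircle (1 : ℝ) => c • s) (ker k hk : Set (AddCircle (1 : ℝ))) := by
    intro x hx y hy hxy
    have hx' := fin_ker.mp (Finset.mem_coe.mp hx)
    have hy' := fin_ker.mp (Finset.mem_coe.mp hy)
    have : x - y = 0 := by
      refine fin_coprime hc (by rw [smul_sub, hx', hy', sub_zero]) ?_
      rw [smul_sub]
      exact sub_eq_zero.mpr hxy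
    exact sub_eq_zero.mp this
  have himg : (ker k hk).image (fun s => c • s) = ker k hk := by
    refine Finset.eq_of_subset_of_card_le ?_ ?_
    · intro y hy
      obtain ⟨x, hx, rfl⟩ := Finset.mem_image.mp hy
      rw [fin_ker] at hx ⊢
      rw [smul_comm, hx, smul_zero]
    · rw [Finset.card_image_of_injOn hinj]
  conv_rhs => rw [← himg]
  rw [Finset.sum_image hinj]

/-- The counting measure of the coset `y + ker k`. -/
noncomputable def cst (k : ℕ) (hk : 0 < k) (y : AddCircle (1 : ℝ)) : Measure (AddCircle (1 : ℝ)) :=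
  ∑ t ∈ ker k hk, Measure.dirac (y + t)

theorem fin_cst_add {k : ℕ} {hk : 0 < k} {y t : AddCircle (1 : ℝ)} (ht : k • t = 0) :
    cst k hk (y + t) = cst k hk y := by
  unfold cst
  rw [← fin_sum_add (fun s => Measure.dirac (y + s)) ht]
  simp only [add_assoc]

theorem fin_cst_map {k : ℕ} {hk : 0 < k} {y : AddCircle (1 : ℝ)} {c : ℕ} (hc : Nat.Coprime c k) :
    (cst k hk y).map (fun x => c • x) = cst k hk (c • y) := by
  have hm : Measurable fun x : AddCircle (1 : ℝ) => c • x := (continuous_nsmul c).measurable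
  unfold cst
  rw [Measure.map_finset_sum hm.aemeasurable,
    ← fin_sum_mul (fun s => Measure.dirac (c • y + s)) hc]
  refine Finset.sum_congr rfl fun t _ => ?_
  rw [Measure.map_dirac' hm, smul_add]

theorem fin_shift {M : Type*} [AddCommMonoid M] (f : ℕ → M) (L : ℕ) (hf : ∀ j, f (j + L) = f j)
    (a : ℕ) : ∑ j ∈ Finset.range L, f (j + a) = ∑ j ∈ Finset.range L, f j := by
  induction a with
  | zero => rfl
  | succ a ih =>
    rw [← ih]
    rcases Nat.eq_zero_or_pos L with h0 | h0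
    · rw [h0]
      simp
    · obtain ⟨l, rfl⟩ : ∃ l, L = l + 1 := ⟨L - 1, by omega⟩
      rw [Finset.sum_range_succ, Finset.sum_range_succ' (fun j => f (j + a))]
      have h1 : f (l + (a + 1)) = f (0 + a) := by
        rw [← hf (0 + a)]
        congr 1
        omega
      rw [h1]
      congr 1
      refine Finset.sum_congr rfl fun j _ => ?_
      congr 1
      omega

theorem fin_exists (k : ℕ) (hk : 0 < k) (h2 : Nat.Coprime 2 k) (h3 : Nat.Coprime 3 k)
    (m L a b c : ℕ) (hm : 0 < m) (hL : 0 < L) (hp : 2 ^ L = 1 + m * b) (ha : 2 ^ a = 3 + m * c) :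
    ∃ μ : Measure (AddCircle (1 : ℝ)), Inv μ ∧ coef μ k = vtx m L := by
  set y₀ : AddCircle (1 : ℝ) := ((1 / (m * k) : ℝ) : AddCircle (1 : ℝ)) with hy₀
  have hmR : (m : ℝ) ≠ 0 := by positivity
  have hkR : (k : ℝ) ≠ 0 := by positivity
  have hmk : ∀ d : ℕ, k • ((m * d) • y₀) = 0 := by
    intro d
    have h1 : (m * k) • y₀ = 0 := by
      rw [hy₀, ← AddCircle.coe_nsmul]
      have : (m * k) • (1 / (m * k) : ℝ) = 1 := by
        rw [nsmul_eq_mul]
        push_cast
        field_simp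
      rw [this]
      exact AddCircle.coe_period 1
    rw [smul_smul, show k * (m * d) = d * (m * k) by ring, mul_smul, h1, smul_zero]
  set f : ℕ → Measure (AddCircle (1 : ℝ)) := fun j => cst k hk (2 ^ j • y₀) with hf
  have hper : ∀ j, f (j + L) = f j := by
    intro j
    simp only [hf]
    have : (2 ^ (j + L)) • y₀ = 2 ^ j • y₀ + 2 ^ j • ((m * b) • y₀) := by
      rw [pow_add, hp, mul_add, mul_one, add_smul, mul_smul]
    rw [this, fin_cst_add]
    rw [smul_comm, hmk, smul_zero]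
  have hthree : ∀ j, cst k hk (3 • (2 ^ j • y₀)) = f (j + a) := by
    intro j
    simp only [hf]
    have : (2 ^ (j + a)) • y₀ = 3 • (2 ^ j • y₀) + 2 ^ j • ((m * c) • y₀) := by
      rw [pow_add, ha, mul_add, add_smul, mul_smul, mul_smul, smul_comm]
    rw [this, fin_cst_add]
    rw [smul_comm, hmk, smul_zero]
  set ρ : Measure (AddCircle (1 : ℝ)) := ∑ j ∈ Finset.range L, f j with hρ
  have hmap2 : ρ.map (fun x : AddCircle (1 : ℝ) => (2 : ℕ) • x) = ρ := by
    have hmm : Measurable fun x : AddCircle (1 : ℝ) => (2 : ℕ) • x :=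
      (continuous_nsmul 2).measurable
    rw [hρ, Measure.map_finset_sum hmm.aemeasurable]
    rw [← fin_shift f L hper 1]
    refine Finset.sum_congr rfl fun j _ => ?_
    simp only [hf]
    rw [fin_cst_map h2, smul_smul, pow_succ']
  have hmap3 : ρ.map (fun x : AddCircle (1 : ℝ) => (3 : ℕ) • x) = ρ := by
    have hmm : Measurable fun x : AddCircle (1 : ℝ) => (3 : ℕ) • x :=
      (continuous_nsmul 3).measurable
    rw [hρ, Measure.map_finset_sum hmm.aemeasurable]
    rw [← fin_shift f L hper a]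
    refine Finset.sum_congr rfl fun j _ => ?_
    rw [← hthree j]
    simp only [hf]
    rw [fin_cst_map h3]
  set N : ℕ := L * (ker k hk).card with hN
  have hNpos : 0 < N := Nat.mul_pos hL fin_ker_card
  have huniv : ρ Set.univ = N := by
    rw [hρ, Measure.finsetSum_apply]
    simp only [hf, cst, Measure.finsetSum_apply, measure_univ]
    simp [hN]
  have hNe : (N : ENNReal) ≠ 0 := by exact_mod_cast hNpos.ne'
  have hNt : (N : ENNReal) ≠ ⊤ := ENNReal.natCast_ne_top N
  refine ⟨(N : ENNReal)⁻¹ • ρ, ⟨⟨?_⟩, ⟨(continuous_nsmul 2).measurable, ?_⟩,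
    ⟨(continuous_nsmul 3).measurable, ?_⟩⟩, ?_⟩
  · rw [Measure.smul_apply, huniv, smul_eq_mul, ENNReal.inv_mul_cancel hNe hNt]
  · rw [Measure.map_smul, hmap2]
  · rw [Measure.map_smul, hmap3]
  · unfold coef
    rw [integral_smul_measure, hρ]
    have hpt : ∀ j, ∀ t ∈ ker k hk, (fourier (k : ℤ) (2 ^ j • y₀ + t) : ℂ) = pt m j := by
      intro j t ht
      have e1 : (fourier (k : ℤ) (2 ^ j • y₀ + t) : ℂ) = fourier 1 (k • (2 ^ j • y₀ + t)) := by
        rw [fourier_apply, fourier_apply, one_zsmul, natCast_zsmul]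
      rw [e1, smul_add, fin_ker.mp ht, add_zero, smul_comm, mea_nsmul]
      unfold pt rt
      congr 1
      rw [hy₀, ← AddCircle.coe_nsmul, fourier_coe_apply]
      congr 1
      rw [nsmul_eq_mul]
      push_cast
      have hmC : (m : ℂ) ≠ 0 := by exact_mod_cast hm.ne'
      have hkC : (k : ℂ) ≠ 0 := by exact_mod_cast hk.ne'
      field_simp
    have hint : ∀ j, ∫ x, (fourier (k : ℤ) x : ℂ) ∂(f j) = (ker k hk).card * pt m j := by
      intro j
      simp only [hf, cst]
      rw [integral_finsetSum_measure]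
      · simp only [integral_dirac]
        rw [Finset.sum_congr rfl (hpt j), Finset.sum_const, nsmul_eq_mul]
      · intro t _
        exact integrable_dirac (by simp)
    rw [integral_finsetSum_measure]
    · simp only [hint]
      rw [← Finset.mul_sum]
      unfold vtx sm
      rw [ENNReal.toReal_inv, ENNReal.toReal_natCast, Complex.real_smul, hN]
      have hcC : ((ker k hk).card : ℂ) ≠ 0 := by exact_mod_cast fin_ker_card.ne'
      have hLC : (L : ℂ) ≠ 0 := by exact_mod_cast hL.ne'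
      push_cast
      field_simp
    · intro j _
      simp only [hf, cst]
      rw [integrable_finsetSum_measure]
      intro t _
      exact integrable_dirac (by simp)

/-! ## The set of values -/

/-- The set of values of one coefficient. -/
def vals (n : ℤ) : Set ℂ := {w : ℂ | ∃ μ : Measure (AddCircle (1 : ℝ)), Inv μ ∧ coef μ n = w}

theorem fin_convex (n : ℤ) : Convex ℝ (vals n) := by
  rintro w₁ ⟨μ, hμ, rfl⟩ w₂ ⟨ν, hν, rfl⟩ a b ha hb hab
  obtain ⟨hμ1, hμ2, hμ3⟩ := hμ
  obtain ⟨hν1, hν2, hν3⟩ := hν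
  have key : ∀ c : ℕ, MeasurePreserving (fun x : AddCircle (1 : ℝ) => c • x) μ μ →
      MeasurePreserving (fun x : AddCircle (1 : ℝ) => c • x) ν ν →
      MeasurePreserving (fun x : AddCircle (1 : ℝ) => c • x)
        (ENNReal.ofReal a • μ + ENNReal.ofReal b • ν)
        (ENNReal.ofReal a • μ + ENNReal.ofReal b • ν) := by
    intro c h1 h2
    refine ⟨h1.measurable, ?_⟩
    rw [Measure.map_add _ _ h1.measurable, Measure.map_smul, Measure.map_smul, h1.map_eq,
      h2.map_eq]
  refine ⟨ENNReal.ofReal a • μ + ENNReal.ofReal b • ν, ⟨⟨?_⟩, key 2 hμ2 hν2, key 3 hμ3 hν3⟩, ?_⟩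
  · rw [Measure.add_apply, Measure.smul_apply, Measure.smul_apply, measure_univ, measure_univ,
      smul_eq_mul, smul_eq_mul, mul_one, mul_one, ← ENNReal.ofReal_add ha hb, hab,
      ENNReal.ofReal_one]
  · unfold coef
    have hi1 : Integrable (fun x : AddCircle (1 : ℝ) => (fourier n x : ℂ)) μ :=
      mea_integrable (fourier n).continuous
    have hi2 : Integrable (fun x : AddCircle (1 : ℝ) => (fourier n x : ℂ)) ν :=
      mea_integrable (fourier n).continuous
    rw [integral_add_measure (hi1.smul_measure ENNReal.ofReal_ne_top)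
      (hi2.smul_measure ENNReal.ofReal_ne_top), integral_smul_measure, integral_smul_measure,
      ENNReal.toReal_ofReal ha, ENNReal.toReal_ofReal hb]

theorem fin_red {n : ℕ} (hn : n ≠ 0) : ∃ k : ℕ, 0 < k ∧ Nat.Coprime 2 k ∧ Nat.Coprime 3 k ∧
    ∀ μ : Measure (AddCircle (1 : ℝ)), Inv μ → coef μ n = coef μ k := by
  obtain ⟨a, n', h2, rfl⟩ := Nat.exists_eq_pow_mul_and_not_dvd hn 2 (by norm_num)
  have hn' : n' ≠ 0 := by
    rintro rfl
    exact h2 (dvd_zero 2)
  obtain ⟨b, k, h3, rfl⟩ := Nat.exists_eq_pow_mul_and_not_dvd hn' 3 (by norm_num)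
  have hk : k ≠ 0 := by
    rintro rfl
    exact h3 (dvd_zero 3)
  refine ⟨k, Nat.pos_of_ne_zero hk, ?_, (Nat.Prime.coprime_iff_not_dvd Nat.prime_three).mpr h3, ?_⟩
  · refine (Nat.Prime.coprime_iff_not_dvd Nat.prime_two).mpr fun h => h2 ?_
    exact h.mul_left _
  · intro μ hμ
    have e2 : ∀ (a : ℕ) (l : ℕ), coef μ ((2 ^ a * l : ℕ) : ℤ) = coef μ l := by
      intro a l
      induction a with
      | zero => simp
      | succ a ih =>
        rw [← ih, ← fin_mul μ hμ.2.1 ((2 ^ a * l : ℕ) : ℤ)]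
        congr 1
        push_cast
        ring
    have e3 : ∀ (a : ℕ) (l : ℕ), coef μ ((3 ^ a * l : ℕ) : ℤ) = coef μ l := by
      intro a l
      induction a with
      | zero => simp
      | succ a ih =>
        rw [← ih, ← fin_mul μ hμ.2.2 ((3 ^ a * l : ℕ) : ℤ)]
        congr 1
        push_cast
        ring
    rw [e2, e3]

theorem fin_val {n : ℤ} (hn : n ≠ 0) (m L a b c : ℕ) (hm : 0 < m) (hL : 0 < L)
    (hp : 2 ^ L = 1 + m * b) (ha : 2 ^ a = 3 + m * c) :
    vtx m L ∈ vals n ∧ conj (vtx m L) ∈ vals n := by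
  obtain ⟨k, hk, h2, h3, hred⟩ := fin_red (Int.natAbs_ne_zero.mpr hn)
  obtain ⟨μ, hμ, hv⟩ := fin_exists k hk h2 h3 m L a b c hm hL hp ha
  have h1 : coef μ (n.natAbs : ℤ) = vtx m L := by rw [hred μ hμ, hv]
  have hmu : ∃ ν : Measure (AddCircle (1 : ℝ)), Inv ν ∧ coef ν n = vtx m L := by
    rcases Int.natAbs_eq n with h | h
    · exact ⟨μ, hμ, by rw [h]; exact h1⟩
    · refine ⟨_, fin_push hμ (-1), ?_⟩
      rw [fin_push_coef, h]
      rw [← h1]
      congr 1
      ring
  obtain ⟨ν, hν, hνv⟩ := hmu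
  refine ⟨⟨ν, hν, hνv⟩, ⟨_, fin_push hν (-1), ?_⟩⟩
  rw [fin_push_coef, ← hνv, ← fin_conj]
  congr 1
  ring

theorem fin_v1 : vtx 1 1 = 1 := by
  unfold vtx sm pt rt
  simp

theorem fin_v5 : vtx 5 4 = -1 / 4 := by
  have hp : IsPrimitiveRoot (rt 5) 5 := Complex.isPrimitiveRoot_exp 5 (by norm_num)
  have h5 : rt 5 ^ 5 = 1 := hp.pow_eq_one
  have hs : ∑ i ∈ Finset.range 5, rt 5 ^ i = 0 := hp.geom_sum_eq_zero (by norm_num)
  unfold vtx sm pt
  simp only [Finset.sum_range_succ, Finset.sum_range_zero] at hs ⊢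
  have h8 : rt 5 ^ 2 ^ 3 = rt 5 ^ 3 := by
    have : rt 5 ^ 2 ^ 3 = rt 5 ^ 5 * rt 5 ^ 3 := by
      rw [← pow_add]
      norm_num
    rw [this, h5, one_mul]
  rw [h8]
  push_cast
  linear_combination (1 / 4 : ℂ) * hs

theorem fin_sub {n : ℤ} (hn : n ≠ 0) : hexagon ⊆ vals n := by
  refine convexHull_min ?_ (fin_convex n)
  have v1 := (fin_val hn 1 1 2 1 1 (by norm_num) (by norm_num) (by norm_num) (by norm_num)).1
  have v5 := (fin_val hn 5 4 3 3 1 (by norm_num) (by norm_num) (by norm_num) (by norm_num)).1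
  have v23 := fin_val hn 23 11 8 89 11 (by norm_num) (by norm_num) (by norm_num) (by norm_num)
  have v431 := fin_val hn 431 43 13 20408568497 19 (by norm_num) (by norm_num) (by norm_num)
    (by norm_num)
  rw [fin_v1] at v1
  rw [fin_v5] at v5
  intro x hx
  simp only [Set.mem_insert_iff, Set.mem_singleton_iff] at hx
  rcases hx with h | h | h | h | h | h
  · rw [h]; exact v1
  · rw [h]; exact v431.1
  · rw [h]; exact v23.1
  · rw [h]; exact v5
  · rw [h]; exact v23.2
  · rw [h]; exact v431.2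

/-! ## The frontier -/

theorem fin_fib {n : ℤ} (hn : n ≠ 0) (S : Finset ℂ) :
    {x : AddCircle (1 : ℝ) | (fourier 1 (n • x) : ℂ) ∈ S}.Finite := by
  have h0 : {u : AddCircle (1 : ℝ) | n • u = 0}.Finite := by
    refine (AddCircle.finite_torsion (1 : ℝ) (Int.natAbs_pos.mpr hn)).subset ?_
    intro u hu
    have hu' : n • u = 0 := hu
    change n.natAbs • u = 0
    rw [← natCast_zsmul]
    rcases Int.natAbs_eq n with h | h
    · rw [← h]; exact hu'
    · have : ((n.natAbs : ℕ) : ℤ) = -n := by omega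
      rw [this, neg_smul, hu', neg_zero]
  refine Set.Finite.preimage' (f := fun x : AddCircle (1 : ℝ) => (fourier 1 (n • x) : ℂ))
    S.finite_toSet ?_
  intro b _
  rcases Set.eq_empty_or_nonempty
    ((fun x : AddCircle (1 : ℝ) => (fourier 1 (n • x) : ℂ)) ⁻¹' {b}) with h | ⟨x₀, hx₀⟩
  · rw [h]
    exact Set.finite_empty
  · refine (h0.image (fun u => x₀ + u)).subset ?_
    intro x hx
    refine ⟨x - x₀, ?_, by simp⟩
    have h1 : (fourier 1 (n • x) : ℂ) = b := hx
    have h2 : (fourier 1 (n • x₀) : ℂ) = b := hx₀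
    have h3 : (fourier 1 (n • x) : ℂ) = fourier 1 (n • x₀) := by rw [h1, h2]
    rw [fourier_apply, fourier_apply, one_zsmul, one_zsmul] at h3
    have h4 := AddCircle.injective_toCircle one_ne_zero (Subtype.ext h3)
    change n • (x - x₀) = 0
    rw [smul_sub, h4, sub_self]

theorem fin_rigid {μ : Measure (AddCircle (1 : ℝ))} {n : ℤ} (hn : n ≠ 0) (S : Finset ℂ)
    (h : (μ.map fun x => n • x) {x | (fourier 1 x : ℂ) ∉ S} = 0) :
    ∃ T : Set (AddCircle (1 : ℝ)), T.Finite ∧ μ Tᶜ = 0 := by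
  have hm : Measurable fun x : AddCircle (1 : ℝ) => n • x := (continuous_zsmul n).measurable
  refine ⟨_, fin_fib hn S, ?_⟩
  refine nonpos_iff_eq_zero.mp ?_
  rw [← h]
  exact Measure.le_map_apply hm.aemeasurable _

/-- THE THEOREM from the inputs. -/
theorem final (h : Inputs) : ∀ n : ℤ, n ≠ 0 →
    {w : ℂ | ∃ μ : Measure (AddCircle (1 : ℝ)), Inv μ ∧ coef μ n = w} = hexagon ∧
    ∀ μ : Measure (AddCircle (1 : ℝ)), Inv μ → coef μ n ∈ frontier hexagon →
      ∃ T : Set (AddCircle (1 : ℝ)), T.Finite ∧ μ Tᶜ = 0 := by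
  intro n hn
  have hn' : -n ≠ 0 := neg_ne_zero.mpr hn
  have cA : ∀ μ : Measure (AddCircle (1 : ℝ)), coef (μ.map fun x => n • x) 1 = coef μ n := by
    intro μ
    rw [fin_push_coef, mul_one]
  have cB : ∀ μ : Measure (AddCircle (1 : ℝ)),
      coef (μ.map fun x => (-n) • x) 1 = conj (coef μ n) := by
    intro μ
    rw [fin_push_coef, mul_one, fin_conj]
  have six : ∀ μ : Measure (AddCircle (1 : ℝ)), Inv μ → ∀ l : ℤ,
      (0 ≤ lft 1 (vtx 431 43) (coef (μ.map fun x => l • x) 1) ∧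
      (lft 1 (vtx 431 43) (coef (μ.map fun x => l • x) 1) = 0 →
        (μ.map fun x => l • x) {x | (fourier 1 x : ℂ) ∉ orb 1 1 ∪ orb 431 43} = 0)) ∧
      (0 ≤ lft (vtx 431 43) (vtx 23 11) (coef (μ.map fun x => l • x) 1) ∧
      (lft (vtx 431 43) (vtx 23 11) (coef (μ.map fun x => l • x) 1) = 0 →
        (μ.map fun x => l • x) {x | (fourier 1 x : ℂ) ∉ orb 431 43 ∪ orb 23 11} = 0)) ∧
      (0 ≤ lft (vtx 23 11) (-1 / 4) (coef (μ.map fun x => l • x) 1) ∧
      (lft (vtx 23 11) (-1 / 4) (coef (μ.map fun x => l • x) 1) = 0 →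
        (μ.map fun x => l • x) {x | (fourier 1 x : ℂ) ∉ orb 23 11 ∪ orb 5 4} = 0)) := by
    intro μ hμ l
    have e1 := h.e1 _ (fin_push hμ l)
    have e2 := h.e2 _ (fin_push hμ l)
    have e3 := h.e3 _ (fin_push hμ l)
    rw [fin_v1] at e1
    rw [fin_v5] at e3
    exact ⟨e1, e2, e3⟩
  refine ⟨Set.Subset.antisymm ?_ (fin_sub hn), ?_⟩
  · rintro w ⟨μ, hμ, rfl⟩
    obtain ⟨⟨a1, -⟩, ⟨a2, -⟩, ⟨a3, -⟩⟩ := six μ hμ n
    obtain ⟨⟨b1, -⟩, ⟨b2, -⟩, ⟨b3, -⟩⟩ := six μ hμ (-n)
    rw [cA] at a1 a2 a3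
    rw [cB] at b1 b2 b3
    exact geo_mem h.v431 h.v23 a1 a2 a3 b1 b2 b3
  · intro μ hμ hfr
    obtain ⟨⟨a1, r1⟩, ⟨a2, r2⟩, ⟨a3, r3⟩⟩ := six μ hμ n
    obtain ⟨⟨b1, s1⟩, ⟨b2, s2⟩, ⟨b3, s3⟩⟩ := six μ hμ (-n)
    rcases eq_or_lt_of_le a1 with q | q1
    · exact fin_rigid hn _ (r1 q.symm)
    rcases eq_or_lt_of_le a2 with q | q2
    · exact fin_rigid hn _ (r2 q.symm)
    rcases eq_or_lt_of_le a3 with q | q3
    · exact fin_rigid hn _ (r3 q.symm)
    rcases eq_or_lt_of_le b1 with q | q4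
    · exact fin_rigid hn' _ (s1 q.symm)
    rcases eq_or_lt_of_le b2 with q | q5
    · exact fin_rigid hn' _ (s2 q.symm)
    rcases eq_or_lt_of_le b3 with q | q6
    · exact fin_rigid hn' _ (s3 q.symm)
    rw [cA] at q1 q2 q3
    rw [cB] at q4 q5 q6
    exact absurd (geo_int h.v431 h.v23 q1 q2 q3 q4 q5 q6) hfr.2

end Pool.Agent.Hex
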