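import Pool.Agent.Hex.Defs

/-!
# Trigonometric sums have first order expansions
-/

open Complex ComplexConjugate Polynomial

namespace Pool.Agent.Hex

/-- Trigonometric sums with frequencies at most `D` and sum of the absolute values of the coefficients at most `W`. -/
def TS (f : ℂ → ℂ) (D : ℕ) (W : ℝ) : Prop :=
  ∃ (ι : Type) (_ : Fintype ι) (c : ι → ℂ) (k : ι → ℤ), (∀ i, |k i| ≤ D) ∧ ∑ i, ‖c i‖ ≤ W ∧
    ∀ z : ℂ, ‖z‖ = 1 → f z = ∑ i, c i * z ^ k i

theorem TS.mono {f : ℂ → ℂ} {D D' : ℕ} {W W' : ℝ} (h : TS f D W) (hD : D ≤ D') (hW : W ≤ W') : TS f D' W' := by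
  obtain ⟨ι, hι, c, k, h1, h2, h3⟩ := h
  exact ⟨ι, hι, c, k, fun i => (h1 i).trans (by exact_mod_cast hD), h2.trans hW, h3⟩

theorem TS.congr {f g : ℂ → ℂ} {D : ℕ} {W : ℝ} (h : TS f D W) (hg : ∀ z : ℂ, ‖z‖ = 1 → g z = f z) : TS g D W := by
  obtain ⟨ι, hι, c, k, h1, h2, h3⟩ := h
  exact ⟨ι, hι, c, k, h1, h2, fun z hz => (hg z hz).trans (h3 z hz)⟩

theorem TS.nonneg {f : ℂ → ℂ} {D : ℕ} {W : ℝ} (h : TS f D W) : 0 ≤ W := by
  obtain ⟨ι, hι, c, k, h1, h2, h3⟩ := h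
  exact (Finset.sum_nonneg fun i _ => norm_nonneg _).trans h2

theorem TS.const (a : ℂ) : TS (fun _ => a) 0 ‖a‖ := by
  refine ⟨Unit, inferInstance, fun _ => a, fun _ => 0, fun _ => by simp, by simp, fun z _ => by simp⟩

theorem TS.ident : TS (fun z => z) 1 1 := by
  refine ⟨Unit, inferInstance, fun _ => 1, fun _ => 1, fun _ => by simp, by simp, fun z _ => by simp⟩

theorem TS.add {f g : ℂ → ℂ} {D : ℕ} {W W' : ℝ} (hf : TS f D W) (hg : TS g D W') :
    TS (fun z => f z + g z) D (W + W') := by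
  obtain ⟨ι, hι, c, k, h1, h2, h3⟩ := hf
  obtain ⟨κ, hκ, c', k', h1', h2', h3'⟩ := hg
  refine ⟨ι ⊕ κ, inferInstance, Sum.elim c c', Sum.elim k k', ?_, ?_, ?_⟩
  · rintro (i | i)
    · exact h1 i
    · exact h1' i
  · rw [Fintype.sum_sum_type]
    exact add_le_add h2 h2'
  · intro z hz
    show f z + g z = _
    rw [Fintype.sum_sum_type, h3 z hz, h3' z hz]
    rfl

theorem TS.mul {f g : ℂ → ℂ} {D D' : ℕ} {W W' : ℝ} (hf : TS f D W) (hg : TS g D' W') :
    TS (fun z => f z * g z) (D + D') (W * W') := by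
  have hW : 0 ≤ W := hf.nonneg
  obtain ⟨ι, hι, c, k, h1, h2, h3⟩ := hf
  obtain ⟨κ, hκ, c', k', h1', h2', h3'⟩ := hg
  refine ⟨ι × κ, inferInstance, fun i => c i.1 * c' i.2, fun i => k i.1 + k' i.2, ?_, ?_, ?_⟩
  · intro i
    push_cast
    exact (abs_add_le _ _).trans (add_le_add (h1 i.1) (h1' i.2))
  · rw [Fintype.sum_prod_type]
    simp only [norm_mul]
    rw [← Finset.sum_mul_sum]
    exact mul_le_mul h2 h2' (Finset.sum_nonneg fun i _ => norm_nonneg _) hW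
  · intro z hz
    have hz0 : z ≠ 0 := by
      rintro rfl
      simp at hz
    show f z * g z = _
    rw [Fintype.sum_prod_type, h3 z hz, h3' z hz, Finset.sum_mul_sum]
    refine Finset.sum_congr rfl fun i _ => Finset.sum_congr rfl fun j _ => ?_
    rw [zpow_add₀ hz0]
    ring

theorem conj_zpow_of_norm {z : ℂ} (hz : ‖z‖ = 1) (k : ℤ) : conj (z ^ k) = z ^ (-k) := by
  rw [map_zpow₀, zpow_neg, ← inv_zpow, Complex.inv_def]
  congr 1
  rw [Complex.normSq_eq_norm_sq, hz]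
  simp

theorem TS.conj {f : ℂ → ℂ} {D : ℕ} {W : ℝ} (hf : TS f D W) : TS (fun z => conj (f z)) D W := by
  obtain ⟨ι, hι, c, k, h1, h2, h3⟩ := hf
  refine ⟨ι, hι, fun i => (starRingEnd ℂ) (c i), fun i => -k i, fun i => by rw [abs_neg]; exact h1 i, ?_, ?_⟩
  · simpa using h2
  · intro z hz
    show (starRingEnd ℂ) (f z) = _
    rw [h3 z hz, map_sum]
    refine Finset.sum_congr rfl fun i _ => ?_
    rw [map_mul, conj_zpow_of_norm hz]

theorem TS.re {f : ℂ → ℂ} {D : ℕ} {W : ℝ} (hf : TS f D W) : TS (fun z => (((f z).re : ℝ) : ℂ)) D W := by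
  have h := ((TS.const (1 / 2)).mul (hf.add hf.conj)).mono (D' := D) (W' := W) (by simp)
    (by rw [show ‖(1 / 2 : ℂ)‖ = 1 / 2 by simp]; linarith)
  refine h.congr fun z _ => ?_
  rw [Complex.add_conj]
  push_cast
  ring

theorem TS.prod {α : Type} (S : Finset α) (f : α → ℂ → ℂ) (W : ℝ) (hf : ∀ a ∈ S, TS (f a) 1 W) :
    TS (fun z => ∏ a ∈ S, f a z) S.card (W ^ S.card) := by
  classical
  induction S using Finset.induction_on with
  | empty => simpa using TS.const 1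
  | insert a S ha ih =>
    have h := (hf a (Finset.mem_insert_self _ _)).mul (ih fun b hb => hf b (Finset.mem_insert_of_mem hb))
    rw [Finset.card_insert_of_notMem ha]
    refine (h.mono (by omega) (le_of_eq (by ring))).congr fun z _ => ?_
    rw [Finset.prod_insert ha]

theorem TS.poly (A : ℂ[X]) {D : ℕ} (hD : A.natDegree ≤ D) : TS (fun z => A.eval z) D (l1 A) := by
  refine ⟨A.support, inferInstance, fun i => A.coeff i, fun i => ((i : ℕ) : ℤ), ?_, ?_, ?_⟩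
  · intro i
    rw [Nat.abs_cast]
    exact_mod_cast (le_natDegree_of_mem_supp _ i.2).trans hD
  · rw [l1, Polynomial.sum, Finset.sum_coe_sort A.support (fun i => ‖A.coeff i‖)]
  · intro z _
    show A.eval z = _
    rw [Polynomial.eval_eq_sum, Polynomial.sum, Finset.sum_coe_sort A.support (fun i => A.coeff i * z ^ ((i : ℕ) : ℤ))]
    simp

/-! ## Jets -/

theorem norm_sub_one_sq {w : ℂ} (hw : ‖w‖ = 1) : ‖w - 1‖ ^ 2 = 2 - 2 * w.re := by
  have h1 : w.re * w.re + w.im * w.im = 1 := by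
    rw [← Complex.normSq_apply, Complex.normSq_eq_norm_sq, hw]; norm_num
  rw [← Complex.normSq_eq_norm_sq, Complex.normSq_apply]
  simp only [sub_re, one_re, sub_im, one_im]
  nlinarith

theorem abs_im_le_sub_one (w : ℂ) : |w.im| ≤ ‖w - 1‖ := by
  have := Complex.abs_im_le_norm (w - 1)
  simpa using this

theorem jet_pow {w : ℂ} (hw : ‖w‖ = 1) (k : ℕ) :
    ‖w ^ k - 1 - k * I * (w.im : ℂ)‖ ≤ (k : ℝ) ^ 2 / 2 * ‖w - 1‖ ^ 2 := by
  induction k with
  | zero => simp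
  | succ k ih =>
    have e : w ^ (k + 1) - 1 - ((k + 1 : ℕ) : ℂ) * I * (w.im : ℂ) =
        w * (w ^ k - 1 - k * I * (w.im : ℂ)) + (w - 1 - I * (w.im : ℂ)) + k * I * (w.im : ℂ) * (w - 1) := by
      push_cast
      ring
    have e1 : w - 1 - I * (w.im : ℂ) = ((w.re - 1 : ℝ) : ℂ) := by
      apply Complex.ext <;> simp
    have h1 : ‖w - 1 - I * (w.im : ℂ)‖ = 1 / 2 * ‖w - 1‖ ^ 2 := by
      rw [e1, Complex.norm_real, norm_sub_one_sq hw, Real.norm_eq_abs, abs_of_nonpos]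
      · ring
      · have := (abs_le.mp (Complex.abs_re_le_norm w)).2
        linarith
    have h2 : ‖(k : ℂ) * I * (w.im : ℂ) * (w - 1)‖ ≤ k * ‖w - 1‖ ^ 2 := by
      rw [norm_mul, norm_mul, norm_mul, Complex.norm_I, Complex.norm_real, Complex.norm_natCast, Real.norm_eq_abs]
      have := abs_im_le_sub_one w
      have hk : (0 : ℝ) ≤ k := Nat.cast_nonneg k
      have h0 := norm_nonneg (w - 1)
      calc (k : ℝ) * 1 * |w.im| * ‖w - 1‖ ≤ k * 1 * ‖w - 1‖ * ‖w - 1‖ := by gcongr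
        _ = _ := by ring
    rw [e]
    calc _ ≤ ‖w * (w ^ k - 1 - k * I * (w.im : ℂ))‖ + ‖w - 1 - I * (w.im : ℂ)‖ + ‖(k : ℂ) * I * (w.im : ℂ) * (w - 1)‖ :=
          norm_add₃_le
      _ ≤ (k : ℝ) ^ 2 / 2 * ‖w - 1‖ ^ 2 + 1 / 2 * ‖w - 1‖ ^ 2 + k * ‖w - 1‖ ^ 2 := by
          rw [norm_mul, hw, one_mul, h1]
          gcongr
      _ = _ := by push_cast; ring

theorem jet_zpow {w : ℂ} (hw : ‖w‖ = 1) (k : ℤ) :
    ‖w ^ k - 1 - k * I * (w.im : ℂ)‖ ≤ (k : ℝ) ^ 2 / 2 * ‖w - 1‖ ^ 2 := by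
  obtain ⟨n, rfl | rfl⟩ := k.eq_nat_or_neg
  · simpa using jet_pow hw n
  · have h := jet_pow hw n
    rw [← Complex.norm_conj] at h
    rw [← conj_zpow_of_norm hw]
    simpa using h

/-- Trigonometric sums have first order expansions. -/
theorem TS.cjet {f : ℂ → ℂ} {D : ℕ} {W : ℝ} (h : TS f D W) : CJet f (((D : ℝ) + 1) ^ 2 * W) := by
  have hW : 0 ≤ W := h.nonneg
  obtain ⟨ι, hι, c, k, h1, h2, h3⟩ := h
  have hD : (0 : ℝ) ≤ D := Nat.cast_nonneg D
  have hD1 : W ≤ ((D : ℝ) + 1) ^ 2 * W := le_mul_of_one_le_left hW (by nlinarith)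
  have hD2 : W * D ≤ ((D : ℝ) + 1) ^ 2 * W := by
    rw [mul_comm]
    exact mul_le_mul_of_nonneg_right (by nlinarith) hW
  have hk : ∀ i, |(k i : ℝ)| ≤ D := fun i => by
    have := h1 i
    exact_mod_cast this
  constructor
  · intro z hz
    rw [h3 z hz]
    calc ‖∑ i, c i * z ^ k i‖ ≤ ∑ i, ‖c i * z ^ k i‖ := norm_sum_le _ _
      _ = ∑ i, ‖c i‖ := by
          refine Finset.sum_congr rfl fun i _ => ?_
          rw [norm_mul, norm_zpow, hz, one_zpow, mul_one]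
      _ ≤ W := h2
      _ ≤ _ := hD1
  · intro p hp
    refine ⟨∑ i, c i * p ^ k i * (k i * I), ?_, ?_⟩
    · calc ‖∑ i, c i * p ^ k i * (k i * I)‖ ≤ ∑ i, ‖c i * p ^ k i * (k i * I)‖ := norm_sum_le _ _
        _ ≤ ∑ i, ‖c i‖ * D := by
            refine Finset.sum_le_sum fun i _ => ?_
            rw [norm_mul, norm_mul, norm_zpow, hp, one_zpow, mul_one, norm_mul, Complex.norm_I, mul_one,
              Complex.norm_intCast]
            gcongr
            exact hk i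
        _ ≤ W * D := by rw [← Finset.sum_mul]; gcongr
        _ ≤ _ := hD2
    · intro z hz
      set w : ℂ := z * (starRingEnd ℂ) p with hw
      have hpp : p * (starRingEnd ℂ) p = 1 := by
        rw [Complex.mul_conj, Complex.normSq_eq_norm_sq, hp]; simp
      have hw1 : ‖w‖ = 1 := by rw [hw, norm_mul, Complex.norm_conj, hz, hp, one_mul]
      have hzw : z = p * w := by
        rw [hw]
        calc z = z * (p * (starRingEnd ℂ) p) := by rw [hpp, mul_one]
          _ = _ := by ring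
      have hnorm : ‖w - 1‖ = ‖z - p‖ := by
        have : z - p = p * (w - 1) := by rw [hzw]; ring
        rw [this, norm_mul, hp, one_mul]
      have e : f z - f p - (∑ i, c i * p ^ k i * (k i * I)) * ((w.im : ℝ) : ℂ) =
          ∑ i, c i * p ^ k i * (w ^ k i - 1 - k i * I * (w.im : ℂ)) := by
        rw [h3 z hz, h3 p hp, Finset.sum_mul, ← Finset.sum_sub_distrib, ← Finset.sum_sub_distrib]
        refine Finset.sum_congr rfl fun i _ => ?_
        rw [hzw, mul_zpow]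
        ring
      rw [e]
      calc _ ≤ ∑ i, ‖c i * p ^ k i * (w ^ k i - 1 - k i * I * (w.im : ℂ))‖ := norm_sum_le _ _
        _ ≤ ∑ i, ‖c i‖ * ((D : ℝ) ^ 2 / 2 * ‖w - 1‖ ^ 2) := by
            refine Finset.sum_le_sum fun i _ => ?_
            rw [norm_mul, norm_mul, norm_zpow, hp, one_zpow, mul_one]
            have hk2 : (k i : ℝ) ^ 2 ≤ (D : ℝ) ^ 2 := by
              rw [← sq_abs]
              exact pow_le_pow_left₀ (abs_nonneg _) (hk i) 2
            have := jet_zpow hw1 (k i)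
            have h5 : (k i : ℝ) ^ 2 / 2 * ‖w - 1‖ ^ 2 ≤ (D : ℝ) ^ 2 / 2 * ‖w - 1‖ ^ 2 := by gcongr
            exact mul_le_mul_of_nonneg_left (this.trans h5) (norm_nonneg _)
        _ ≤ W * ((D : ℝ) ^ 2 / 2 * ‖w - 1‖ ^ 2) := by
            rw [← Finset.sum_mul]
            gcongr
        _ ≤ _ := by
            rw [hnorm]
            have : (D : ℝ) ^ 2 / 2 ≤ ((D : ℝ) + 1) ^ 2 := by nlinarith
            have h6 : W * ((D : ℝ) ^ 2 / 2 * ‖z - p‖ ^ 2) ≤ W * (((D : ℝ) + 1) ^ 2 * ‖z - p‖ ^ 2) := by gcongr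
            linarith [h6]

theorem CJet.mono {f : ℂ → ℂ} {K K' : ℝ} (h : CJet f K) (hK : K ≤ K') : CJet f K' := by
  refine ⟨fun z hz => (h.1 z hz).trans hK, fun p hp => ?_⟩
  obtain ⟨d, h1, h2⟩ := h.2 p hp
  exact ⟨d, h1.trans hK, fun z hz => (h2 z hz).trans (by gcongr)⟩

end Pool.Agent.Hex
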