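import Pool.Agent.Hex.Defs

/-!
# Lists of Gaussian integers as polynomials
-/

open Complex ComplexConjugate Polynomial

namespace Pool.Agent.Hex.Cr

/-- Gaussian integers. -/
abbrev GI := ℤ × ℤ

/-- Sum. -/
def gadd (a b : GI) : GI := (a.1 + b.1, a.2 + b.2)

/-- Negative. -/
def gneg (a : GI) : GI := (-a.1, -a.2)

/-- Product. -/
def gmul (a b : GI) : GI := (a.1 * b.1 - a.2 * b.2, a.1 * b.2 + a.2 * b.1)

/-- Conjugate. -/
def gconj (a : GI) : GI := (a.1, -a.2)

/-- Multiplication by `2 ^ k`. -/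
def gshl (k : ℕ) (a : GI) : GI := (a.1 * 2 ^ k, a.2 * 2 ^ k)

/-- `|re| + |im|`. -/
def gnrm (a : GI) : ℕ := a.1.natAbs + a.2.natAbs

/-- The square of the distance. -/
def gdist (a b : GI) : ℕ := (a.1 - b.1).natAbs ^ 2 + (a.2 - b.2).natAbs ^ 2

/-- Powers. -/
def gpow (a : GI) : ℕ → GI
  | 0 => (1, 0)
  | n + 1 => gmul a (gpow a n)

/-- The sum of a list. -/
def gsum : List GI → GI
  | [] => (0, 0)
  | a :: l => gadd a (gsum l)

/-- Sum of lists of coefficients. -/
def ladd : List GI → List GI → List GI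
  | [], l => l
  | a :: k, [] => a :: k
  | a :: k, b :: l => gadd a b :: ladd k l

/-- Negative of a list. -/
def lneg (l : List GI) : List GI := l.map gneg

/-- Product with a scalar. -/
def lsc (a : GI) (l : List GI) : List GI := l.map (gmul a)

/-- Product of lists of coefficients. -/
def lmul : List GI → List GI → List GI
  | [], _ => []
  | a :: k, l => ladd (lsc a l) ((0, 0) :: lmul k l)

/-- Multiplication by `2 ^ k`. -/
def lshl (k : ℕ) (l : List GI) : List GI := l.map (gshl k)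

/-- The list of the coefficients of `A(z ^ (r + 1))`. -/
def lexp (r : ℕ) : List GI → List GI
  | [] => []
  | a :: l => a :: (List.replicate r (0, 0) ++ lexp r l)

/-- The reversed conjugate list. -/
def lstar (l : List GI) : List GI := (l.map gconj).reverse

/-- On the circle `Re (z ^ (-d) A(z)) = Re (lfold d A)(z)`. -/
def lfold (d : ℕ) (l : List GI) : List GI := ladd ((0, 0) :: lstar (l.take d)) (l.drop d)

/-- `Σ (|re| + |im|)`. -/
def lnrm : List GI → ℕ
  | [] => 0
  | a :: l => gnrm a + lnrm l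

/-- Decoding: `n` pairs of integers of `B` bits, with offset `2 ^ (B - 1)`. -/
def dec (B : ℕ) : ℕ → ℕ → List GI
  | 0, _ => []
  | n + 1, x => (((x % 2 ^ B : ℕ) : ℤ) - 2 ^ (B - 1), ((x / 2 ^ B % 2 ^ B : ℕ) : ℤ) - 2 ^ (B - 1)) ::
      dec B n (x / 2 ^ (2 * B))

/-- The value of a Gaussian integer at scale `2 ^ s`. -/
noncomputable def toC (s : ℕ) (a : GI) : ℂ := ((a.1 : ℂ) + (a.2 : ℂ) * Complex.I) / 2 ^ s

/-- The polynomial of a list at scale `2 ^ s`. -/
noncomputable def pol (s : ℕ) : List GI → ℂ[X]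
  | [] => 0
  | a :: l => C (toC s a) + X * pol s l

/-! ## Packing -/

/-- The value of a list of coefficients at `2 ^ B`. -/
def pk (B : ℕ) : List GI → GI
  | [] => (0, 0)
  | a :: l => gadd a (gshl B (pk B l))

/-- Balanced digits in base `2 ^ B`. -/
def unp (B : ℕ) : ℕ → GI → List GI
  | 0, _ => []
  | n + 1, x => (Int.bmod x.1 (2 ^ B), Int.bmod x.2 (2 ^ B)) ::
      unp B n ((x.1 - Int.bmod x.1 (2 ^ B)) / 2 ^ B, (x.2 - Int.bmod x.2 (2 ^ B)) / 2 ^ B)

/-- Fast multiplication. -/
def fmul (B : ℕ) (k l : List GI) : List GI := unp B (k.length + l.length - 1) (gmul (pk B k) (pk B l))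

/-- The condition under which `fmul` is `lmul`. -/
def fOK (B : ℕ) (k l : List GI) : Bool :=
  Nat.blt 0 k.length && Nat.blt 0 l.length && Nat.blt (2 * (lnrm k * lnrm l)) (2 ^ B)

/-! ## Checks -/

/-- Consecutive squares. -/
def chain : GI → List GI → Bool
  | _, [] => true
  | a, b :: l => Nat.ble (gnrm (gadd (gmul a a) (gneg (gshl 640 b)))) (2 ^ 642) && chain b l

/-- `a ^ n` is close to one. -/
def powOK (a : GI) (n : ℕ) : Bool :=
  Nat.ble (gnrm (gadd (gpow a n) (gneg (2 ^ (640 * n), 0)))) (2 ^ (640 * n - 630))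

/-- The check of a cycle: consecutive squares, the first point is close to an `n`-th root of unity, and its rough
position is `(u + v i) / 10 ^ 6` up to `w / 10 ^ 6`. -/
def cycOK (n : ℕ) (u v : ℤ) (w : ℕ) : List GI → Bool
  | [] => false
  | a :: l => chain a l && powOK a n &&
      Nat.ble (gnrm (gadd (10 ^ 6 * a.1, 10 ^ 6 * a.2) (gneg (u * 2 ^ 640, v * 2 ^ 640)))) (w * 2 ^ 640)

/-- `a` is close to `n (u + v i) / 10 ^ 6`, where `a` is at scale `2 ^ 640`: up to `w / 10 ^ 6`. -/
def roughOK (a : GI) (n : ℕ) (u v : ℤ) (w : ℕ) : Bool :=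
  Nat.ble (gnrm (gadd (10 ^ 6 * a.1, 10 ^ 6 * a.2) (gneg (n * u * 2 ^ 640, n * v * 2 ^ 640)))) (w * 2 ^ 640)

/-- All pairs have distance at least `2 ^ (-10)`. -/
def sepOK : List GI → Bool
  | [] => true
  | a :: l => l.all (fun b => Nat.ble (2 ^ 1260) (gdist a b)) && sepOK l

/-- The product of the squares of the distances, with `2 ^ 1282` for the distance zero. -/
def pdist (a : GI) : List GI → ℕ
  | [] => 1
  | b :: l => (if gdist a b = 0 then 2 ^ 1282 else gdist a b) * pdist a l

/-- All products of distances are large. -/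
def prodOK (Z : List GI) : Bool := Z.all fun a => Nat.ble (2 ^ (1282 * Z.length - 170)) (pdist a Z)

/-- The coefficients of the product of the `X - z`, at scale `2 ^ (640 * length)`. -/
def rootsL : List GI → List GI
  | [] => [(1, 0)]
  | z :: l => ladd (lsc (gneg z) (rootsL l)) ((0, 0) :: lshl 640 (rootsL l))

/-- `F` is close to the product of the `X - z`. -/
def chkF (Z F : List GI) : Bool :=
  Nat.blt 0 Z.length && Nat.ble F.length 64 &&
    Nat.ble (lnrm (ladd (rootsL Z) (lneg (lshl (640 * (Z.length - 1)) F)))) (2 ^ (640 * Z.length - 500))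

/-- The line through the two means, times `L₁ L₂`, at scale `2 ^ 1920`. -/
def lineL (Z₁ Z₂ : List GI) : List GI :=
  [gshl 640 (-(gmul (gconj (gsum Z₂)) (gsum Z₁)).2, 0),
    gshl 1280 (gmul (0, -1) (gconj (gadd (gmul (Z₁.length, 0) (gsum Z₂)) (gneg (gmul (Z₂.length, 0) (gsum Z₁))))))]

/-- `G(z²) - G(z) + K(z³) - K(z)`. -/
def dL (G K : List GI) : List GI := ladd (ladd (lexp 1 G) (lneg G)) (ladd (lexp 2 K) (lneg K))

/-- The error of the identity, at scale `2 ^ 1920`. -/
def eL (Z₁ Z₂ F q G K : List GI) : List GI :=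
  ladd (ladd (lineL Z₁ Z₂) (lshl 1280 (dL G K)))
    (lneg (lfold (F.length - 1) (fmul 2304 (fmul 2304 F (lstar F)) q)))

/-- The check of the identity. -/
def chkA (Z₁ Z₂ F q G K : List GI) : Bool :=
  fOK 2304 F (lstar F) && fOK 2304 (fmul 2304 F (lstar F)) q &&
    Nat.ble q.length 512 && Nat.ble (lnrm q) (2 ^ 730) &&
    Nat.ble (eL Z₁ Z₂ F q G K).length 512 && Nat.ble (lnrm (eL Z₁ Z₂ F q G K)) (2 ^ 1440)

/-- The head of the list dominates the rest. -/
def headOK : List GI → Bool
  | [] => false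
  | a :: l => decide ((2 ^ 836 + lnrm l : ℤ) ≤ a.1)

/-- The difference of `q` and `|R| ^ 2`, at scale `2 ^ 896`. -/
def rL (q R : List GI) : List GI :=
  ladd (lshl 256 q) (lneg (lshl 640 (lfold (R.length - 1) (fmul 512 R (lstar R)))))

/-- The check of positivity. -/
def chkQ (q R : List GI) : Bool := fOK 512 R (lstar R) && headOK (rL q R)

end Pool.Agent.Hex.Cr
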