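import Pool.Agent.Hex.Lst

/-!
# Lists of Gaussian integers as polynomials: the arithmetic
-/

open Complex ComplexConjugate Polynomial

namespace Pool.Agent.Hex.Cr

/-! ## LTC: the values -/

/-- Module LTC. Unfold `toC`, `gadd`; `push_cast`; `ring` / `field_simp`. -/
theorem toC_add (s : ℕ) (a b : GI) : toC s (gadd a b) = toC s a + toC s b := by
  unfold toC gadd
  push_cast
  ring

theorem toC_neg (s : ℕ) (a : GI) : toC s (gneg a) = -toC s a := by
  unfold toC gneg
  push_cast
  ring

/-- `I * I = -1`, `2 ^ (s + t) = 2 ^ s * 2 ^ t`. -/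
theorem toC_mul (s t : ℕ) (a b : GI) : toC (s + t) (gmul a b) = toC s a * toC t b := by
  unfold toC gmul
  rw [div_mul_div_comm, ← pow_add]
  congr 1
  push_cast
  linear_combination (-((a.2 : ℂ) * (b.2 : ℂ))) * Complex.I_sq

/-- `map_div₀`, `map_add`, `conj_I`, `Complex.conj_ofReal` / `map_intCast`, `map_pow`, `map_ofNat`. -/
theorem toC_conj (s : ℕ) (a : GI) : toC s (gconj a) = conj (toC s a) := by
  unfold toC gconj
  rw [map_div₀, map_add, map_mul, Complex.conj_I, map_pow, map_ofNat, map_intCast, map_intCast]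
  push_cast
  ring

theorem toC_shl (s k : ℕ) (a : GI) : toC (s + k) (gshl k a) = toC s a := by
  unfold toC gshl
  have h : (2 : ℂ) ^ k ≠ 0 := pow_ne_zero _ two_ne_zero
  have h' : (2 : ℂ) ^ s ≠ 0 := pow_ne_zero _ two_ne_zero
  push_cast
  rw [pow_add]
  field_simp

private theorem LTC_eq (s : ℕ) (a : GI) :
    toC s a = (((a.1 : ℝ) / 2 ^ s : ℝ) : ℂ) + (((a.2 : ℝ) / 2 ^ s : ℝ) : ℂ) * Complex.I := by
  unfold toC
  push_cast
  ring

theorem toC_re (s : ℕ) (a : GI) : (toC s a).re = (a.1 : ℝ) / 2 ^ s := by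
  rw [LTC_eq, Complex.add_re, Complex.re_ofReal_mul, Complex.I_re, mul_zero, add_zero,
    Complex.ofReal_re]

theorem toC_im (s : ℕ) (a : GI) : (toC s a).im = (a.2 : ℝ) / 2 ^ s := by
  rw [LTC_eq, Complex.add_im, Complex.im_ofReal_mul, Complex.I_im, mul_one, Complex.ofReal_im,
    zero_add]

/-- Triangle inequality (`Complex.norm_le_abs_re_add_abs_im` or `norm_add_le`), with `Nat.cast_natAbs`. -/
theorem norm_toC_le (s : ℕ) (a : GI) : ‖toC s a‖ ≤ (gnrm a : ℝ) / 2 ^ s := by
  have h1 : (gnrm a : ℝ) = |(a.1 : ℝ)| + |(a.2 : ℝ)| := by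
    unfold gnrm
    rw [Nat.cast_add, Nat.cast_natAbs, Nat.cast_natAbs, Int.cast_abs, Int.cast_abs]
  have h2 : (0 : ℝ) < 2 ^ s := pow_pos two_pos s
  refine (Complex.norm_le_abs_re_add_abs_im _).trans (le_of_eq ?_)
  rw [toC_re, toC_im, abs_div, abs_div, abs_of_pos h2, h1, add_div]

/-! ## LPA: sums -/

/-- Module LPA. `ladd` by induction on the first list, cases on the second; `toC_add`; `C_add`; `ring`. -/
theorem pol_add (s : ℕ) (k l : List GI) : pol s (ladd k l) = pol s k + pol s l := by
  induction k generalizing l with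
  | nil => rw [ladd, pol, zero_add]
  | cons a k ih =>
    cases l with
    | nil => rw [ladd, pol, pol, add_zero]
    | cons b l =>
      rw [ladd, pol, pol, pol, ih, toC_add, C_add]
      ring

theorem pol_neg (s : ℕ) (l : List GI) : pol s (lneg l) = -pol s l := by
  induction l with
  | nil => rw [lneg, List.map_nil, pol, neg_zero]
  | cons a l ih =>
    rw [lneg] at ih ⊢
    rw [List.map_cons, pol, pol, ih, toC_neg, C_neg]
    ring

theorem pol_sc (s t : ℕ) (a : GI) (l : List GI) : pol (s + t) (lsc a l) = C (toC s a) * pol t l := by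
  induction l with
  | nil => rw [lsc, List.map_nil, pol, pol, mul_zero]
  | cons b l ih =>
    rw [lsc] at ih ⊢
    rw [List.map_cons, pol, pol, ih, toC_mul, C_mul]
    ring

theorem pol_shl (s k : ℕ) (l : List GI) : pol (s + k) (lshl k l) = pol s l := by
  induction l with
  | nil => rw [lshl, List.map_nil, pol, pol]
  | cons b l ih =>
    rw [lshl] at ih ⊢
    rw [List.map_cons, pol, pol, ih, toC_shl]

/-! ## LPM: products -/

private theorem LPM_zero (s : ℕ) : toC s (0, 0) = 0 := by
  unfold toC
  simp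

/-- Module LPM. Induction on `k`: `pol (s+t) (ladd (lsc a l) ((0,0) :: lmul k l)) = C (toC s a) * pol t l + (C 0 + X * (pol s k * pol t l))`
by `pol_add`, `pol_sc`; `toC (s+t) (0,0) = 0`. -/
theorem pol_mul (s t : ℕ) (k l : List GI) : pol (s + t) (lmul k l) = pol s k * pol t l := by
  induction k with
  | nil => rw [lmul, pol, pol, zero_mul]
  | cons a k ih =>
    rw [lmul, pol_add, pol_sc, pol, pol, ih, LPM_zero, C_0]
    ring

/-! ## LPP: append and expansion -/

/-- Module LPP. Induction on `k`. -/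
theorem pol_append (s : ℕ) (k l : List GI) : pol s (k ++ l) = pol s k + X ^ k.length * pol s l := by
  induction k with
  | nil => rw [List.nil_append, pol, List.length_nil, pow_zero, one_mul, zero_add]
  | cons a k ih =>
    rw [List.cons_append, pol, pol, ih, List.length_cons, pow_succ]
    ring

private theorem LPP_rep (s r : ℕ) : pol s (List.replicate r (0, 0)) = 0 := by
  induction r with
  | zero => rw [List.replicate_zero, pol]
  | succ r ih => rw [List.replicate_succ, pol, ih, LPM_zero, C_0, mul_zero, add_zero]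

/-- Induction on `l`, with `pol_append` and `pol s (List.replicate r (0,0)) = 0` (induction on `r`):
`eval z (pol s (a :: (replicate r 0 ++ lexp r l))) = a + z * z ^ r * eval z (pol s (lexp r l))`. -/
theorem eval_exp (s r : ℕ) (l : List GI) (z : ℂ) :
    (pol s (lexp r l)).eval z = (pol s l).eval (z ^ (r + 1)) := by
  induction l with
  | nil => rw [lexp, pol, eval_zero, eval_zero]
  | cons a l ih =>
    rw [lexp, pol, pol, pol_append, LPP_rep, zero_add, List.length_replicate, eval_add, eval_C,
      eval_mul, eval_X, eval_mul, eval_pow, eval_X, ih, eval_add, eval_C, eval_mul, eval_X]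
    ring

/-! ## LPS: the reversed conjugate -/

private theorem LPS_len (l : List GI) : (lstar l).length = l.length := by
  rw [lstar, List.length_reverse, List.length_map]

private theorem LPS_norm (z : ℂ) (hz : ‖z‖ = 1) : z * conj z = 1 := by
  rw [Complex.mul_conj, Complex.normSq_eq_norm_sq, hz]
  simp

/-- Module LPS. Induction on `l`: `lstar (a :: l) = lstar l ++ [gconj a]` (`List.map_cons`, `List.reverse_cons`), so by
`pol_append` (the length of `lstar l` is `l.length`) the left side is
`z * eval z (pol (lstar l)) + z * z ^ l.length * conj a = z ^ l.length * conj (eval z (pol l)) + z ^ (l.length + 1) * conj a`,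
and the right side is `z ^ (l.length + 1) * (conj a + conj z * conj (eval z (pol l)))`, with `z * conj z = ‖z‖ ^ 2 = 1`
(`Complex.mul_conj`, `Complex.normSq_eq_norm_sq`). -/
theorem eval_star (s : ℕ) (l : List GI) (z : ℂ) (hz : ‖z‖ = 1) :
    z * (pol s (lstar l)).eval z = z ^ l.length * conj ((pol s l).eval z) := by
  induction l with
  | nil => rw [lstar, List.map_nil, List.reverse_nil, pol, eval_zero, map_zero, mul_zero, mul_zero]
  | cons a l ih =>
    have h1 : lstar (a :: l) = lstar l ++ [gconj a] := by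
      rw [lstar, List.map_cons, List.reverse_cons, lstar]
    have h2 : pol s [gconj a] = C (conj (toC s a)) := by
      rw [pol, pol, mul_zero, add_zero, toC_conj]
    rw [h1, pol_append, h2, LPS_len, eval_add, eval_mul, eval_pow, eval_X, eval_C, mul_add, ih,
      List.length_cons, pol, eval_add, eval_C, eval_mul, eval_X, map_add, map_mul]
    have h3 := LPS_norm z hz
    linear_combination (-(z ^ l.length * conj ((pol s l).eval z))) * h3

/-! ## LPF: folding -/

/-- Module LPF. Write `l = l.take d ++ l.drop d` (`List.take_append_drop`), `(l.take d).length = d`. By `pol_append`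
`conj z ^ d * eval (pol l) = conj z ^ d * eval (pol (l.take d)) + eval (pol (l.drop d))` since `(conj z) ^ d * z ^ d = 1`.
By `pol_add` the left side is `Re (z * eval (pol (lstar (l.take d))) + eval (pol (l.drop d)))`, and by `eval_star`
`z * eval (pol (lstar (l.take d))) = z ^ d * conj (eval (pol (l.take d))) = conj (conj z ^ d * eval (pol (l.take d)))`, which
has the same real part. -/
theorem re_fold (s d : ℕ) (l : List GI) (z : ℂ) (hz : ‖z‖ = 1) (hd : d ≤ l.length) :
    ((pol s (lfold d l)).eval z).re = (conj z ^ d * (pol s l).eval z).re := by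
  have h1 : (l.take d).length = d := by
    rw [List.length_take]
    exact min_eq_left hd
  have h2 : pol s l = pol s (l.take d) + X ^ d * pol s (l.drop d) := by
    conv_lhs => rw [← List.take_append_drop d l]
    rw [pol_append, h1]
  have h3 := LPS_norm z hz
  have h4 : conj z ^ d * z ^ d = 1 := by
    rw [← mul_pow, mul_comm (conj z), h3, one_pow]
  have h5 := eval_star s (l.take d) z hz
  rw [h1] at h5
  rw [lfold, pol_add, pol, LPM_zero, C_0, zero_add, h2, eval_add, eval_mul, eval_X, h5, eval_add,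
    eval_mul, eval_pow, eval_X, mul_add, ← mul_assoc, h4, one_mul, Complex.add_re, Complex.add_re]
  congr 1
  rw [← Complex.conj_re, map_mul, map_pow, Complex.conj_conj]

/-! ## LPD: degrees -/

/-- Module LPD. Induction on `l`; for `a :: l` with `l = []` the polynomial is a constant (plus `X * 0`), otherwise
`natDegree (C a + X * P) ≤ max 0 (1 + natDegree P)` (`Polynomial.natDegree_add_le`, `natDegree_C`, `natDegree_mul_le`,
`natDegree_X`) and `P = pol s l` has degree at most `l.length - 1`. -/
theorem natDegree_pol (s : ℕ) (l : List GI) : (pol s l).natDegree ≤ l.length - 1 := by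
  induction l with
  | nil => rw [pol, natDegree_zero]; exact Nat.zero_le _
  | cons a l ih =>
    rw [pol, List.length_cons, Nat.add_sub_cancel]
    cases l with
    | nil => rw [pol, mul_zero, add_zero, natDegree_C]; exact Nat.zero_le _
    | cons b l =>
      refine (natDegree_add_le _ _).trans (max_le ?_ ?_)
      · rw [natDegree_C]
        exact Nat.zero_le _
      · refine natDegree_mul_le.trans ?_
        rw [natDegree_X, List.length_cons] at *
        omega

/-! ## LLB: the norm `l1` -/

/-- Module LLB. `l1 A = ∑ n ∈ range (N + 1), ‖A.coeff n‖` for every `N ≥ natDegree A`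
(`Polynomial.sum_over_range'` with `norm_zero`). -/
theorem l1_eq (A : ℂ[X]) (N : ℕ) (hN : A.natDegree ≤ N) :
    l1 A = ∑ n ∈ Finset.range (N + 1), ‖A.coeff n‖ := by
  unfold l1
  exact sum_over_range' A (fun n => norm_zero) _ (Nat.lt_succ_of_le hN)

theorem l1_nonneg (A : ℂ[X]) : 0 ≤ l1 A := by
  rw [l1_eq A _ le_rfl]
  exact Finset.sum_nonneg fun n _ => norm_nonneg _

/-- Both sides over `range (N + 1)`, `N` the larger degree; `coeff_add`, `norm_add_le`. -/
theorem l1_add_le (A B : ℂ[X]) : l1 (A + B) ≤ l1 A + l1 B := by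
  rw [l1_eq (A + B) (max A.natDegree B.natDegree) (natDegree_add_le _ _),
    l1_eq A (max A.natDegree B.natDegree) (le_max_left _ _),
    l1_eq B (max A.natDegree B.natDegree) (le_max_right _ _), ← Finset.sum_add_distrib]
  refine Finset.sum_le_sum fun n _ => ?_
  rw [coeff_add]
  exact norm_add_le _ _

theorem l1_neg (A : ℂ[X]) : l1 (-A) = l1 A := by
  rw [l1_eq (-A) A.natDegree (natDegree_neg A).le, l1_eq A _ le_rfl]
  refine Finset.sum_congr rfl fun n _ => ?_
  rw [coeff_neg, norm_neg]

theorem l1_sub_le (A B : ℂ[X]) : l1 (A - B) ≤ l1 A + l1 B := by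
  rw [sub_eq_add_neg, ← l1_neg B]
  exact l1_add_le _ _

theorem l1_zero : l1 (0 : ℂ[X]) = 0 := by
  rw [l1_eq 0 0 (by rw [natDegree_zero])]
  simp

theorem l1_C (a : ℂ) : l1 (C a) = ‖a‖ := by
  rw [l1_eq (C a) 0 (by rw [natDegree_C])]
  simp

/-- `coeff (X * A) (n + 1) = coeff A n`, `coeff (X * A) 0 = 0`; `Finset.sum_range_succ'`. -/
theorem l1_X_mul (A : ℂ[X]) : l1 (X * A) = l1 A := by
  have h1 : (X * A).natDegree ≤ A.natDegree + 1 := by
    refine natDegree_mul_le.trans ?_
    rw [natDegree_X, add_comm]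
  rw [l1_eq (X * A) _ h1, l1_eq A _ le_rfl, Finset.sum_range_succ']
  rw [coeff_X_mul_zero, norm_zero, add_zero]
  refine Finset.sum_congr rfl fun n _ => ?_
  rw [coeff_X_mul]

/-- `coeff (C a * A) n = a * coeff A n`. -/
theorem l1_C_mul (a : ℂ) (A : ℂ[X]) : l1 (C a * A) = ‖a‖ * l1 A := by
  rw [l1_eq (C a * A) A.natDegree (natDegree_C_mul_le a A), l1_eq A _ le_rfl, Finset.mul_sum]
  refine Finset.sum_congr rfl fun n _ => ?_
  rw [coeff_C_mul, norm_mul]

/-! ## LLC: the norm `l1`, evaluation -/

/-- Module LLC. `A.eval z = ∑ n ∈ range (natDegree + 1), coeff n * z ^ n` (`Polynomial.eval_eq_sum_range`), norm of each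
term at most `‖coeff n‖`. Uses `l1_eq`. -/
theorem norm_eval_le (A : ℂ[X]) (z : ℂ) (hz : ‖z‖ ≤ 1) : ‖A.eval z‖ ≤ l1 A := by
  rw [eval_eq_sum_range, l1_eq A _ le_rfl]
  refine (norm_sum_le _ _).trans (Finset.sum_le_sum fun n _ => ?_)
  rw [norm_mul, norm_pow]
  exact mul_le_of_le_one_right (norm_nonneg _) (pow_le_one₀ (norm_nonneg _) hz)

/-- `(X - C a) * A = X * A - C a * A`: `l1 ≤ (1 + ‖a‖) * l1 A`. -/
theorem l1_lin_mul_le (a : ℂ) (A : ℂ[X]) : l1 ((X - C a) * A) ≤ (1 + ‖a‖) * l1 A := by
  rw [sub_mul, add_mul, one_mul, ← l1_C_mul, ← l1_X_mul A]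
  exact l1_sub_le _ _

/-- Induction on `l` with `l1_add_le`, `l1_C`, `l1_X_mul`, `norm_toC_le`. -/
theorem l1_pol (s : ℕ) (l : List GI) : l1 (pol s l) ≤ (lnrm l : ℝ) / 2 ^ s := by
  induction l with
  | nil => rw [pol, l1_zero, lnrm, Nat.cast_zero, zero_div]
  | cons a l ih =>
    rw [pol, lnrm, Nat.cast_add, add_div]
    refine (l1_add_le _ _).trans (add_le_add ?_ ?_)
    · rw [l1_C]
      exact norm_toC_le s a
    · rw [l1_X_mul]
      exact ih

end Pool.Agent.Hex.Cr
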