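import Pool.Agent.Hex.Defs

/-!
# Integration of the function of a side
-/

open MeasureTheory Complex ComplexConjugate Polynomial

namespace Pool.Agent.Hex

theorem mea_norm (x : AddCircle (1 : ℝ)) : ‖(fourier 1 x : ℂ)‖ = 1 := by
  rw [fourier_apply]
  exact Circle.norm_coe _

theorem mea_nsmul (k : ℕ) (x : AddCircle (1 : ℝ)) :
    (fourier 1 (k • x) : ℂ) = (fourier 1 x : ℂ) ^ k := by
  rw [fourier_apply, fourier_apply, one_zsmul, one_zsmul, AddCircle.toCircle_nsmul]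
  simp

theorem mea_int_comp {k : ℕ} {μ : Measure (AddCircle (1 : ℝ))}
    (hk : MeasurePreserving (fun x : AddCircle (1 : ℝ) => k • x) μ μ) {E : Type*}
    [NormedAddCommGroup E] [NormedSpace ℝ E] (f : AddCircle (1 : ℝ) → E)
    (hf : AEStronglyMeasurable f μ) : ∫ x, f (k • x) ∂μ = ∫ x, f x ∂μ := by
  have h := integral_map (μ := μ) (φ := fun x : AddCircle (1 : ℝ) => k • x) (f := f)
    hk.measurable.aemeasurable (by rw [hk.map_eq]; exact hf)
  rw [hk.map_eq] at h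
  exact h.symm

theorem mea_cont (G : ℂ[X]) : Continuous fun x : AddCircle (1 : ℝ) => G.eval (fourier 1 x : ℂ) :=
  G.continuous.comp (fourier 1).continuous

theorem mea_integrable {μ : Measure (AddCircle (1 : ℝ))} [IsProbabilityMeasure μ]
    {E : Type*} [NormedAddCommGroup E] {f : AddCircle (1 : ℝ) → E}
    (hf : Continuous f) : Integrable f μ := by
  have := hf.continuousOn.integrableOn_compact (μ := μ) isCompact_univ
  rwa [integrableOn_univ] at this

theorem mea_alg (n₁ L₁ n₂ L₂ : ℕ) (h1 : 0 < L₁) (h2 : 0 < L₂) (w : ℂ) :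
    tE n₁ L₁ n₂ L₂ + (sE n₁ L₁ n₂ L₂ * w).re =
      (L₁ : ℝ) * L₂ * (conj (vtx n₂ L₂ - vtx n₁ L₁) * (w - vtx n₁ L₁)).im := by
  unfold tE sE vtx
  have h1' : (L₁ : ℝ) ≠ 0 := by positivity
  have h2' : (L₂ : ℝ) ≠ 0 := by positivity
  generalize sm n₁ L₁ = A
  generalize sm n₂ L₂ = B
  have hA : A / (L₁ : ℂ) = (⟨A.re / L₁, A.im / L₁⟩ : ℂ) := by
    apply Complex.ext
    · simp
    · simp
  have hB : B / (L₂ : ℂ) = (⟨B.re / L₂, B.im / L₂⟩ : ℂ) := by
    apply Complex.ext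
    · simp
    · simp
  rw [hA, hB]
  simp only [mul_re, mul_im, conj_re, conj_im, sub_re, sub_im, neg_re, neg_im, I_re, I_im,
    natCast_re, natCast_im]
  field_simp
  ring

theorem mea_add3 {X : Type*} [MeasurableSpace X] {μ : Measure X} {a b c : X → ℂ}
    (ha : Integrable a μ) (hb : Integrable b μ) (hc : Integrable c μ) :
    ∫ x, (a x + b x + c x) ∂μ = ∫ x, a x ∂μ + ∫ x, b x ∂μ + ∫ x, c x ∂μ := by
  have h1 : ∫ x, (a x + b x) ∂μ = ∫ x, a x ∂μ + ∫ x, b x ∂μ := integral_add ha hb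
  have h2 : ∫ x, ((a x + b x) + c x) ∂μ = ∫ x, (a x + b x) ∂μ + ∫ x, c x ∂μ :=
    integral_add (ha.add hb) hc
  rw [h2, h1]

theorem mea_add4 {X : Type*} [MeasurableSpace X] {μ : Measure X} [IsProbabilityMeasure μ]
    {a b c : X → ℝ} (k : ℝ)
    (ha : Integrable a μ) (hb : Integrable b μ) (hc : Integrable c μ) :
    ∫ x, (k + a x + b x - c x) ∂μ = k + ∫ x, a x ∂μ + ∫ x, b x ∂μ - ∫ x, c x ∂μ := by
  have h0 : ∫ x, (k + a x) ∂μ = k + ∫ x, a x ∂μ := by
    have := integral_add (integrable_const k) ha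
    rw [integral_const] at this
    simpa using this
  have h1 : ∫ x, (k + a x + b x) ∂μ = ∫ x, (k + a x) ∂μ + ∫ x, b x ∂μ :=
    integral_add ((integrable_const k).add ha) hb
  have h2 : ∫ x, (k + a x + b x - c x) ∂μ = ∫ x, (k + a x + b x) ∂μ - ∫ x, c x ∂μ :=
    integral_sub (((integrable_const k).add ha).add hb) hc
  rw [h2, h1, h0]

/-- Integration: a good function gives the side. -/
theorem edge_of_good {n₁ L₁ n₂ L₂ : ℕ} (h1 : 0 < L₁) (h2 : 0 < L₂) (G₂ G₃ : ℂ[X])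
    (h : Good (orb n₁ L₁ ∪ orb n₂ L₂) (hE n₁ L₁ n₂ L₂ G₂ G₃)) : EdgeT n₁ L₁ n₂ L₂ := by
  obtain ⟨u, hum, ⟨C, hC⟩, hnn, hz⟩ := h
  intro μ hμ
  obtain ⟨hP, hp2, hp3⟩ := hμ
  have hφ : Continuous fun x : AddCircle (1 : ℝ) => (fourier 1 x : ℂ) := (fourier 1).continuous
  -- the two coboundary terms and the bounded function
  have hui : Integrable (fun x : AddCircle (1 : ℝ) => u (fourier 1 x : ℂ)) μ :=
    Integrable.of_bound (hum.comp hφ.measurable).aestronglyMeasurable C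
      (Filter.Eventually.of_forall fun x => by
        rw [Real.norm_eq_abs]
        exact hC _ (mea_norm x))
  have hu2i : Integrable (fun x : AddCircle (1 : ℝ) => u ((fourier 1 x : ℂ) ^ 2)) μ :=
    Integrable.of_bound (hum.comp (hφ.pow 2).measurable).aestronglyMeasurable C
      (Filter.Eventually.of_forall fun x => by
        rw [Real.norm_eq_abs]
        exact hC _ (by rw [norm_pow, mea_norm, one_pow]))
  have hu2 : ∫ x, u ((fourier 1 x : ℂ) ^ 2) ∂μ = ∫ x, u (fourier 1 x : ℂ) ∂μ := by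
    rw [← mea_int_comp hp2 (fun x => u (fourier 1 x : ℂ)) hui.aestronglyMeasurable]
    simp only [mea_nsmul]
  have hG : ∀ (G : ℂ[X]) (k : ℕ), MeasurePreserving (fun x : AddCircle (1 : ℝ) => k • x) μ μ →
      ∫ x, (G.eval ((fourier 1 x : ℂ) ^ k) - G.eval (fourier 1 x : ℂ)) ∂μ = 0 := by
    intro G k hk
    have hc : Continuous fun x : AddCircle (1 : ℝ) => G.eval ((fourier 1 x : ℂ) ^ k) :=
      G.continuous.comp (hφ.pow k)
    rw [integral_sub (mea_integrable hc) (mea_integrable (mea_cont G)), sub_eq_zero]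
    rw [← mea_int_comp hk (fun x => G.eval (fourier 1 x : ℂ)) (mea_cont G).aestronglyMeasurable]
    simp only [mea_nsmul]
  -- the polynomial part
  set P : AddCircle (1 : ℝ) → ℂ := fun x => sE n₁ L₁ n₂ L₂ * (fourier 1 x : ℂ) +
    (G₂.eval ((fourier 1 x : ℂ) ^ 2) - G₂.eval (fourier 1 x : ℂ)) +
    (G₃.eval ((fourier 1 x : ℂ) ^ 3) - G₃.eval (fourier 1 x : ℂ)) with hPdef
  have hc2 : Continuous fun x : AddCircle (1 : ℝ) =>
      (G₂.eval ((fourier 1 x : ℂ) ^ 2) - G₂.eval (fourier 1 x : ℂ)) :=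
    (G₂.continuous.comp (hφ.pow 2)).sub (mea_cont G₂)
  have hc3 : Continuous fun x : AddCircle (1 : ℝ) =>
      (G₃.eval ((fourier 1 x : ℂ) ^ 3) - G₃.eval (fourier 1 x : ℂ)) :=
    (G₃.continuous.comp (hφ.pow 3)).sub (mea_cont G₃)
  have hc1 : Continuous fun x : AddCircle (1 : ℝ) => sE n₁ L₁ n₂ L₂ * (fourier 1 x : ℂ) :=
    continuous_const.mul hφ
  have hPc : Continuous P := (hc1.add hc2).add hc3
  have hPint : ∫ x, P x ∂μ = sE n₁ L₁ n₂ L₂ * coef μ 1 := by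
    have h3 := mea_add3 (mea_integrable (μ := μ) hc1) (mea_integrable hc2) (mea_integrable hc3)
    rw [hG G₂ 2 hp2, hG G₃ 3 hp3, add_zero, add_zero, integral_const_mul] at h3
    exact h3
  have hPre : ∫ x, (P x).re ∂μ = (sE n₁ L₁ n₂ L₂ * coef μ 1).re := by
    rw [← hPint]
    exact integral_re (mea_integrable hPc)
  have hPri : Integrable (fun x => (P x).re) μ := (mea_integrable hPc).re
  -- the whole function
  set f : AddCircle (1 : ℝ) → ℝ := fun x => tE n₁ L₁ n₂ L₂ + (P x).re + u (fourier 1 x : ℂ) -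
    u ((fourier 1 x : ℂ) ^ 2) with hfdef
  have hfe : ∀ x, f x = hE n₁ L₁ n₂ L₂ G₂ G₃ (fourier 1 x : ℂ) + u (fourier 1 x : ℂ) -
      u ((fourier 1 x : ℂ) ^ 2) := fun x => rfl
  have hf0 : ∀ x, 0 ≤ f x := fun x => by
    rw [hfe]
    exact hnn _ (mea_norm x)
  have hfi : Integrable f μ := (((integrable_const _).add hPri).add hui).sub hu2i
  have hfint : ∫ x, f x ∂μ = (L₁ : ℝ) * L₂ *
      (conj (vtx n₂ L₂ - vtx n₁ L₁) * (coef μ 1 - vtx n₁ L₁)).im := by
    rw [← mea_alg n₁ L₁ n₂ L₂ h1 h2]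
    have h4 := mea_add4 (μ := μ) (tE n₁ L₁ n₂ L₂) hPri hui hu2i
    rw [hu2, hPre, add_sub_cancel_right] at h4
    exact h4
  have hL : 0 < (L₁ : ℝ) * L₂ := by positivity
  have hfnn : 0 ≤ ∫ x, f x ∂μ := integral_nonneg hf0
  refine ⟨?_, ?_⟩
  · rw [hfint] at hfnn
    exact nonneg_of_mul_nonneg_right hfnn hL
  · intro h0
    rw [h0, mul_zero] at hfint
    have hae : f =ᵐ[μ] 0 := (integral_eq_zero_iff_of_nonneg hf0 hfi).mp hfint
    refine measure_mono_null ?_ (ae_iff.mp hae)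
    intro x hx hfx
    exact hx (hz _ (mea_norm x) (by rw [← hfe]; exact hfx))

end Pool.Agent.Hex
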