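import Pool.Agent.Hex.LstA

/-!
# Fast multiplication by packing
-/

open Complex ComplexConjugate Polynomial

namespace Pool.Agent.Hex.Cr

/-! ## PKM: packing is multiplicative -/

/-- Module PKM. `toC 0` is injective on pairs of integers (`toC_re`, `toC_im`). -/
theorem toC_inj {a b : GI} (h : toC 0 a = toC 0 b) : a = b := by
  have h1 := congrArg Complex.re h
  have h2 := congrArg Complex.im h
  rw [toC_re, toC_re, pow_zero, div_one, div_one] at h1
  rw [toC_im, toC_im, pow_zero, div_one, div_one] at h2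
  exact Prod.ext (by exact_mod_cast h1) (by exact_mod_cast h2)

/-- Induction on `l`: `toC 0 (gadd a (gshl B x)) = toC 0 a + toC 0 (gshl B x)` and `toC 0 (gshl B x) = 2 ^ B * toC 0 x`. -/
theorem pk_eval (B : ℕ) (l : List GI) : toC 0 (pk B l) = (pol 0 l).eval (2 ^ B : ℂ) := by
  induction l with
  | nil => simp [pk, pol, toC]
  | cons a l ih =>
    rw [pk, pol, toC_add, eval_add, eval_C, eval_mul, eval_X, ← ih]
    congr 1
    simp only [toC, gshl, pow_zero, div_one]
    push_cast
    ring

/-- From `toC_inj`, `pk_eval`, `pol_mul 0 0`, `toC_mul 0 0`. -/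
theorem pk_mul (B : ℕ) (k l : List GI) : pk B (lmul k l) = gmul (pk B k) (pk B l) := by
  apply toC_inj
  have h1 := pol_mul 0 0 k l
  have h2 := toC_mul 0 0 (pk B k) (pk B l)
  rw [Nat.add_zero] at h1 h2
  rw [h2, pk_eval, pk_eval, pk_eval, h1, eval_mul]

/-! ## PKU: unpacking -/

/-- Module PKU. For `2 |x| < 2 ^ B`: `Int.bmod (x + y * 2 ^ B) (2 ^ B) = x`. (`Int.bmod_add_mul_cancel` or
`Int.add_mul_bmod_self_right`, and `Int.bmod_eq_of_le` / `Int.bmod_eq_self_of_le`; `2 ^ B` is even if `B > 0`, and for `B = 0` the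
hypothesis gives `x = 0`.) -/
theorem bmod_aux (B : ℕ) (x y : ℤ) (hx : 2 * |x| < 2 ^ B) : Int.bmod (x + y * 2 ^ B) (2 ^ B) = x := by
  have h2 : ((2 ^ B : ℕ) : ℤ) = 2 ^ B := by push_cast; rfl
  have h3 : x + y * 2 ^ B = x + y * ((2 ^ B : ℕ) : ℤ) := by rw [h2]
  rw [h3, Int.add_mul_bmod_self_right]
  have h4 := abs_le.1 (le_refl |x|)
  have h5 : (0 : ℤ) ≤ |x| := abs_nonneg x
  apply Int.bmod_eq_of_le
  · rw [h2]
    omega
  · rw [h2]
    omega

/-- Induction on `l`: with `pk B (a :: l) = (a.1 + (pk B l).1 * 2 ^ B, a.2 + (pk B l).2 * 2 ^ B)` the first digit is `a`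
by `bmod_aux` and the rest is `pk B l` (`Int.mul_ediv_cancel`). Careful: `Int.bmod x (2 ^ B)` has a natural number as
second argument. -/
theorem unp_pk (B : ℕ) (l : List GI) (h : ∀ a ∈ l, 2 * |a.1| < 2 ^ B ∧ 2 * |a.2| < 2 ^ B) :
    unp B l.length (pk B l) = l := by
  induction l with
  | nil => rfl
  | cons a l ih =>
    have h1 := h a List.mem_cons_self
    have h2 := ih fun b hb => h b (List.mem_cons_of_mem a hb)
    have e1 : (pk B (a :: l)).1 = a.1 + (pk B l).1 * 2 ^ B := rfl
    have e2 : (pk B (a :: l)).2 = a.2 + (pk B l).2 * 2 ^ B := rfl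
    have hp : (2 ^ B : ℤ) ≠ 0 := by positivity
    rw [List.length_cons, unp, e1, e2, bmod_aux B _ _ h1.1, bmod_aux B _ _ h1.2,
      add_sub_cancel_left, add_sub_cancel_left, Int.mul_ediv_cancel _ hp, Int.mul_ediv_cancel _ hp]
    exact congrArg (a :: ·) h2

/-! ## PKN: sizes -/

/-- Module PKN. -/
theorem gnrm_add (a b : GI) : gnrm (gadd a b) ≤ gnrm a + gnrm b := by
  have h1 := Int.natAbs_add_le a.1 b.1
  have h2 := Int.natAbs_add_le a.2 b.2
  simp only [gnrm, gadd]
  omega

theorem gnrm_mul (a b : GI) : gnrm (gmul a b) ≤ gnrm a * gnrm b := by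
  have h1 : (a.1 * b.1 - a.2 * b.2).natAbs ≤ (a.1 * b.1).natAbs + (a.2 * b.2).natAbs :=
    Int.natAbs_sub_le _ _
  have h2 := Int.natAbs_add_le (a.1 * b.2) (a.2 * b.1)
  rw [Int.natAbs_mul, Int.natAbs_mul] at h1 h2
  have h3 : gnrm a * gnrm b = a.1.natAbs * b.1.natAbs + a.2.natAbs * b.2.natAbs +
      (a.1.natAbs * b.2.natAbs + a.2.natAbs * b.1.natAbs) := by
    simp only [gnrm]
    ring
  rw [h3]
  exact Nat.add_le_add h1 h2

theorem lnrm_add (k l : List GI) : lnrm (ladd k l) ≤ lnrm k + lnrm l := by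
  induction k generalizing l with
  | nil => simp [ladd, lnrm]
  | cons a k ih =>
    cases l with
    | nil => simp [ladd, lnrm]
    | cons b l =>
      have h1 := ih l
      have h2 := gnrm_add a b
      simp only [ladd, lnrm]
      omega

theorem lnrm_sc (a : GI) (l : List GI) : lnrm (lsc a l) ≤ gnrm a * lnrm l := by
  induction l with
  | nil => simp [lsc, lnrm]
  | cons b l ih =>
    have h1 := gnrm_mul a b
    have h2 : lnrm (lsc a (b :: l)) = gnrm (gmul a b) + lnrm (lsc a l) := rfl
    have h3 : gnrm a * lnrm (b :: l) = gnrm a * gnrm b + gnrm a * lnrm l := by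
      rw [lnrm, mul_add]
    rw [h2, h3]
    exact Nat.add_le_add h1 ih

theorem lnrm_mul (k l : List GI) : lnrm (lmul k l) ≤ lnrm k * lnrm l := by
  induction k with
  | nil => simp [lmul, lnrm]
  | cons a k ih =>
    have h1 := lnrm_add (lsc a l) ((0, 0) :: lmul k l)
    have h2 := lnrm_sc a l
    have h3 : lnrm ((0, 0) :: lmul k l) = lnrm (lmul k l) := by
      simp [lnrm, gnrm]
    have h4 : lnrm (a :: k) * lnrm l = gnrm a * lnrm l + lnrm k * lnrm l := by
      rw [lnrm, add_mul]
    rw [h3] at h1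
    rw [lmul, h4]
    omega

theorem gnrm_le_lnrm {l : List GI} {a : GI} (ha : a ∈ l) : gnrm a ≤ lnrm l := by
  induction l with
  | nil => simp at ha
  | cons b l ih =>
    rw [lnrm]
    rcases List.mem_cons.1 ha with h | h
    · rw [h]
      omega
    · have := ih h
      omega

/-! ## PKF: fast multiplication is multiplication -/

/-- Module PKF. `length (ladd k l) = max (length k) (length l)`. -/
theorem length_add (k l : List GI) : (ladd k l).length = max k.length l.length := by
  induction k generalizing l with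
  | nil => simp [ladd]
  | cons a k ih =>
    cases l with
    | nil => simp [ladd]
    | cons b l =>
      rw [ladd, List.length_cons, List.length_cons, List.length_cons, ih l]
      omega

/-- Induction on `k`: `lmul (a :: k) l = ladd (lsc a l) ((0,0) :: lmul k l)`; if `k = []` the length is `max l.length 1`. -/
theorem length_mul (k l : List GI) (hk : 0 < k.length) (hl : 0 < l.length) :
    (lmul k l).length = k.length + l.length - 1 := by
  induction k with
  | nil => simp at hk
  | cons a k ih =>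
    rw [lmul, length_add, List.length_cons, List.length_cons]
    have h1 : (lsc a l).length = l.length := by rw [lsc, List.length_map]
    rw [h1]
    cases k with
    | nil =>
      rw [lmul, List.length_nil]
      omega
    | cons c k =>
      rw [ih (by simp), List.length_cons]
      omega

private theorem PKF_ok {B : ℕ} {k l : List GI} (h : fOK B k l = true) :
    0 < k.length ∧ 0 < l.length ∧ 2 * (lnrm k * lnrm l) < 2 ^ B := by
  rw [fOK, Bool.and_eq_true, Bool.and_eq_true, Nat.blt_eq, Nat.blt_eq, Nat.blt_eq] at h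
  exact ⟨h.1.1, h.1.2, h.2⟩

/-- From `pk_mul`, `length_mul`, `unp_pk` (the bound by `gnrm_le_lnrm`, `lnrm_mul`, `|a.1| ≤ gnrm a`). -/
theorem fmul_eq (B : ℕ) (k l : List GI) (h : fOK B k l = true) : fmul B k l = lmul k l := by
  obtain ⟨hk, hl, hn⟩ := PKF_ok h
  rw [fmul, ← pk_mul, ← length_mul k l hk hl]
  apply unp_pk
  intro a ha
  have h1 := gnrm_le_lnrm ha
  have h2 := lnrm_mul k l
  have h3 : gnrm a = a.1.natAbs + a.2.natAbs := rfl
  have h4 : 2 * (a.1.natAbs + a.2.natAbs) < 2 ^ B := by omega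
  have h5 : ((2 * (a.1.natAbs + a.2.natAbs) : ℕ) : ℤ) < ((2 ^ B : ℕ) : ℤ) := Int.ofNat_lt.2 h4
  push_cast at h5
  constructor
  · have := abs_nonneg a.2
    linarith
  · have := abs_nonneg a.1
    linarith

/-- The form used below. -/
theorem fOK_length (B : ℕ) (k l : List GI) (h : fOK B k l = true) : 0 < k.length ∧ 0 < l.length := by
  obtain ⟨hk, hl, -⟩ := PKF_ok h
  exact ⟨hk, hl⟩

end Pool.Agent.Hex.Cr
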